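import Pool.Agent.Lib.MP_1d6fae_al.Defs

/-!
# MP_1d6fae_al: algebraic definitions
-/

set_option autoImplicit false

namespace Pool.Agent.Lib.MP_1d6fae_al

/-- the alternating product `q 0 * h 0 * (q 1 * h 1) * ... * (q (n-1) * h (n-1))` -/
def pw {M : Type} [Monoid M] : ℕ → (ℕ → M) → (ℕ → M) → M
  | 0, _, _ => 1
  | n + 1, q, h => q 0 * h 0 * pw n (fun i => q (i + 1)) (fun i => h (i + 1))

/-- amplification data of a `*`-algebra: two commuting independent copies, a system of 2x2 matrix units, and countable sums of unitaries -/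
structure Amp (R : Type) [Ring R] [StarRing R] [Algebra ℂ R] where
  /-- the first copy -/
  i1 : R →⋆ₐ[ℂ] R
  /-- the second copy -/
  i2 : R →⋆ₐ[ℂ] R
  comm : ∀ x y, i1 x * i2 y = i2 y * i1 x
  ne : ∀ x y, x ≠ 0 → y ≠ 0 → i1 x * i2 y ≠ 0
  /-- the matrix units -/
  E : Fin 2 → Fin 2 → R
  Emul : ∀ i j k l, E i j * E k l = if j = k then E i l else 0
  Estar : ∀ i j, star (E i j) = E j i
  Eone : E 0 0 + E 1 1 = 1
  Ene : ∀ i j, E i j ≠ 0
  /-- the direct sum of countably many unitaries -/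
  sum : (ℕ → unitary R) →* unitary R
  suminj : Function.Injective sum

end Pool.Agent.Lib.MP_1d6fae_al
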