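import Pool.Agent.Lib.MP_1d6fae_al.RH

/-!
# Row LM: matrix units in `Rf`

PROOF IN WORDS. The left translations `lam a = sp (Equiv.addRight a) (fun x => sg a (x + a))`, `(lam a ξ) x = sg a (x + a) * ξ (x + a)`, `lam a (dl w) = sg a w • dl (a + w)`. They commute with every `rho v` (on basis vectors: both products give `sg a (w + v) sg w v dl (a + w + v) = sg (a + w) v sg a w dl ..`), so they are in `Rf` (`rfm`).
`lam a * lam b = sg a b • lam (a + b)`. Let `a = single 0 (1, 0)`, `b = single 0 (0, 1)`, `X = lam a`, `Z = lam b`: `sg a a = 1 = sg b b`, `sg a b = -1`, `sg b a = 1`: `X X = 1 = Z Z`, `X Z = - Z X`; `X`, `Z` are isometries with square `1`, so unitary and selfadjoint.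
`E 0 0 = (1 + Z)/2`, `E 1 1 = (1 - Z)/2`, `E 0 1 = E 0 0 * X`, `E 1 0 = X * E 0 0` (`X * E 0 0 = E 1 1 * X`). `E 0 0 (dl 0) = (dl 0 + dl b)/2` has norm `1/√2`; all `E i j ≠ 0` follow (`E i j * E j i = E i i`, `E 1 1 = E 1 0 * E 0 0 * E 0 1`, `E 0 0 = E 0 1 * E 1 1 * E 1 0`).
-/

set_option autoImplicit false

namespace Pool.Agent.Lib.MP_1d6fae_al

/-- the left translation -/
private noncomputable def lmL (a : V) : L2 V →L[ℂ] L2 V :=
  sp (Equiv.addRight a) (fun x => sg a (x + a)) fun _ => norm_chi _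

private theorem lmL_apply (a : V) (ξ : L2 V) (x : V) : lmL a ξ x = sg a (x + a) * ξ (x + a) := rfl

private theorem lmL_dl (a w : V) : lmL a (dl w) = sg a w • dl (a + w) := by
  classical
  apply lp.ext
  funext x
  rw [lmL_apply, lp.coeFn_smul, Pi.smul_apply, dl_apply, dl_apply, smul_eq_mul]
  have h : x + a = w ↔ x = a + w := by
    constructor
    · intro h
      rw [← h, add_comm x a, ← add_assoc, v2, zero_add]
    · intro h
      rw [h, add_comm a w, add_assoc, v2, add_zero]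
  by_cases hx : x + a = w
  · rw [if_pos hx, if_pos (h.1 hx), hx]
  · rw [if_neg hx, if_neg fun h' => hx (h.2 h'), mul_zero, mul_zero]

private theorem lmL_mem (a : V) : lmL a ∈ Rf := by
  rw [rfm]
  intro v
  apply td0
  intro w
  rw [mul_apply_eq_comp, mul_apply_eq_comp, rhd, lmL_dl, map_smul, map_smul,
    lmL_dl, rhd, smul_smul, smul_smul, sg_r, sg_l, add_assoc]
  congr 1
  ring

private theorem lmL_mul (a b : V) : lmL a * lmL b = sg a b • lmL (a + b) := by
  apply td0
  intro w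
  rw [mul_apply_eq_comp, smul_apply, lmL_dl, map_smul, lmL_dl,
    lmL_dl, smul_smul, smul_smul, sg_r, sg_l, add_assoc]
  congr 1
  ring

private theorem bl_single (n : ℕ) (p : ZMod 2 × ZMod 2) (w : V) :
    bl (Finsupp.single n p) w = p.1 * (w n).2 := by
  unfold bl
  rw [Finsupp.sum_single_index]
  simp

private theorem sg_zero (w : V) : sg 0 w = 1 := by
  unfold sg bl chi
  simp

private theorem sg_zero' (w : V) : sg w 0 = 1 := by
  unfold sg bl chi
  simp

private theorem lmL_zero : lmL 0 = 1 := by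
  apply td0
  intro w
  rw [lmL_dl, sg_zero, one_smul, zero_add]
  rfl

private theorem lmL_norm (a : V) (ξ : L2 V) : ‖lmL a ξ‖ = ‖ξ‖ :=
  spF_norm (Equiv.addRight a) (fun x => sg a (x + a)) (fun _ => norm_chi _) ξ

private theorem lmL_star (a : V) (h : lmL a * lmL a = 1) : star (lmL a) = lmL a := by
  have h1 : ContinuousLinearMap.adjoint (lmL a) ∘L lmL a = 1 :=
    (ContinuousLinearMap.norm_map_iff_adjoint_comp_self (lmL a)).1 (lmL_norm a)
  have h2 : star (lmL a) * lmL a = 1 := h1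
  calc star (lmL a) = star (lmL a) * (lmL a * lmL a) := by rw [h, mul_one]
    _ = lmL a := by rw [← mul_assoc, h2, one_mul]

private theorem dl_norm {α : Type} (a : α) : ‖(dl a : L2 α)‖ = 1 := by
  classical
  unfold dl
  rw [lp.norm_single (by norm_num)]
  simp

private theorem dl_inner {α : Type} (a b : α) (h : b ≠ a) : inner ℂ (dl a : L2 α) (dl b) = 0 := by
  classical
  have h1 : inner ℂ (dl a : L2 α) (dl b) = inner ℂ (1 : ℂ) ((dl b : L2 α) a) := by
    unfold dl
    rw [lp.inner_single_left]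
  rw [h1, dl_apply, if_neg h.symm]
  simp

/-- the algebra -/
private theorem lm_alg {R : Type*} [Ring R] [StarRing R] [Algebra ℂ R] [StarModule ℂ R] (X Z : R)
    (hX : X * X = 1) (hZ : Z * Z = 1) (hXZ : X * Z = -(Z * X)) (sX : star X = X) (sZ : star Z = Z) :
    ∃ E : Fin 2 → Fin 2 → R, (∀ i j k l, E i j * E k l = if j = k then E i l else 0) ∧
      (∀ i j, star (E i j) = E j i) ∧ E 0 0 + E 1 1 = 1 ∧ E 0 0 = (1 / 2 : ℂ) • (1 + Z) := by
  set P : R := (1 / 2 : ℂ) • (1 + Z) with hP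
  set Q : R := (1 / 2 : ℂ) • (1 - Z) with hQ
  have hPQ : P + Q = 1 := by
    rw [hP, hQ, ← smul_add, add_add_sub_cancel, ← two_smul ℂ (1 : R), smul_smul]
    norm_num
  have hPP : P * P = P := by
    rw [hP, smul_mul_smul_comm, mul_add, add_mul, add_mul, hZ]
    simp only [one_mul, mul_one]
    rw [show (1 : R) + Z + (Z + 1) = (2 : ℂ) • (1 + Z) by rw [two_smul]; abel, smul_smul]
    norm_num
  have hPQ0 : P * Q = 0 := by
    have : Q = 1 - P := by rw [← hPQ]; abel
    rw [this, mul_sub, mul_one, hPP, sub_self]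
  have hQP0 : Q * P = 0 := by
    have : Q = 1 - P := by rw [← hPQ]; abel
    rw [this, sub_mul, one_mul, hPP, sub_self]
  have hQQ : Q * Q = Q := by
    have : Q = 1 - P := by rw [← hPQ]; abel
    calc Q * Q = Q * (1 - P) := by rw [← this]
      _ = Q := by rw [mul_sub, mul_one, hQP0, sub_zero]
  have hXP : X * P = Q * X := by
    rw [hP, hQ, mul_smul_comm, smul_mul_assoc, mul_add, sub_mul, mul_one, one_mul, hXZ, sub_eq_add_neg]
  have hXQ : X * Q = P * X := by
    have h1 : X * (P + Q) = (P + Q) * X := by rw [hPQ, mul_one, one_mul]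
    rw [mul_add, add_mul, hXP, add_comm] at h1
    exact add_right_cancel h1
  have sP : star P = P := by
    rw [hP, star_smul, star_add, star_one, sZ]
    congr 1
    simp
  have sQ : star Q = Q := by
    rw [hQ, star_smul, star_sub, star_one, sZ]
    congr 1
    simp
  have k1 : P * X * P = 0 := by rw [mul_assoc, hXP, ← mul_assoc, hPQ0, zero_mul]
  have k2 : Q * X * Q = 0 := by rw [mul_assoc, hXQ, ← mul_assoc, hQP0, zero_mul]
  refine ⟨fun i j => if i = 0 then (if j = 0 then P else P * X) else (if j = 0 then Q * X else Q),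
    ?_, ?_, ?_, ?_⟩
  · have e1 : P * (P * X) = P * X := by rw [← mul_assoc, hPP]
    have e2 : P * (Q * X) = 0 := by rw [← mul_assoc, hPQ0, zero_mul]
    have e3 : Q * (P * X) = 0 := by rw [← mul_assoc, hQP0, zero_mul]
    have e4 : Q * (Q * X) = Q * X := by rw [← mul_assoc, hQQ]
    have e5 : P * X * Q = P * X := by rw [mul_assoc, hXQ, ← mul_assoc, hPP]
    have e6 : Q * X * P = Q * X := by rw [mul_assoc, hXP, ← mul_assoc, hQQ]
    have e7 : P * X * (P * X) = 0 := by rw [← mul_assoc, k1, zero_mul]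
    have e8 : Q * X * (Q * X) = 0 := by rw [← mul_assoc, k2, zero_mul]
    have e9 : P * X * (Q * X) = P := by rw [← mul_assoc, e5, mul_assoc, hX, mul_one]
    have e10 : Q * X * (P * X) = Q := by rw [← mul_assoc, e6, mul_assoc, hX, mul_one]
    intro i j k l
    fin_cases i <;> fin_cases j <;> fin_cases k <;> fin_cases l <;>
      simp [hPP, hPQ0, hQP0, hQQ, k1, k2, e1, e2, e3, e4, e5, e6, e7, e8, e9, e10]
  · intro i j
    fin_cases i <;> fin_cases j <;> simp [sP, sQ, sX, hXP, hXQ]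
  · simpa using hPQ
  · simp

theorem lm : ∃ E : Fin 2 → Fin 2 → Rf, (∀ i j k l, E i j * E k l = if j = k then E i l else 0) ∧ (∀ i j, star (E i j) = E j i) ∧ E 0 0 + E 1 1 = 1 ∧
    (∀ i j, E i j ≠ 0) ∧ ‖((E 0 0 : Rf) : L2 V →L[ℂ] L2 V) (dl 0)‖ ^ 2 = 1 / 2 := by
  set a : V := Finsupp.single 0 (1, 0) with ha
  set b : V := Finsupp.single 0 (0, 1) with hb
  have haa : sg a a = 1 := by
    unfold sg
    rw [ha, bl_single]
    simp [chi]
  have hbb : sg b b = 1 := by
    unfold sg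
    rw [hb, bl_single]
    simp [chi]
  have hab : sg a b = -1 := by
    unfold sg
    rw [ha, bl_single, hb]
    simp [chi]
  have hba : sg b a = 1 := by
    unfold sg
    rw [hb, bl_single]
    simp [chi]
  have hX : lmL a * lmL a = 1 := by rw [lmL_mul, haa, v2, lmL_zero, one_smul]
  have hZ : lmL b * lmL b = 1 := by rw [lmL_mul, hbb, v2, lmL_zero, one_smul]
  have hXZ : lmL a * lmL b = -(lmL b * lmL a) := by
    rw [lmL_mul, lmL_mul, hab, hba, add_comm b a, neg_smul]
  obtain ⟨E, h1, h2, h3, h4⟩ := lm_alg (⟨lmL a, lmL_mem a⟩ : Rf) (⟨lmL b, lmL_mem b⟩ : Rf)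
    (Subtype.ext hX) (Subtype.ext hZ) (Subtype.ext hXZ) (Subtype.ext (lmL_star a hX))
    (Subtype.ext (lmL_star b hZ))
  have h5 : ‖((E 0 0 : Rf) : L2 V →L[ℂ] L2 V) (dl 0)‖ ^ 2 = 1 / 2 := by
    have h6 : ((E 0 0 : Rf) : L2 V →L[ℂ] L2 V) (dl 0) = (1 / 2 : ℂ) • (dl 0 + dl b) := by
      rw [h4]
      have h7 : (((1 / 2 : ℂ) • (1 + (⟨lmL b, lmL_mem b⟩ : Rf)) : Rf) : L2 V →L[ℂ] L2 V) =
          (1 / 2 : ℂ) • (1 + lmL b) := rfl
      rw [h7, smul_apply, add_apply, lmL_dl, sg_zero',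
        one_smul, add_zero]
      rfl
    have hb0 : b ≠ 0 := by
      intro h
      have h7 : b 0 = 0 := by rw [h]; rfl
      rw [hb, Finsupp.single_eq_same] at h7
      have h8 := congrArg Prod.snd h7
      simp at h8
    rw [h6, norm_smul, mul_pow]
    have h8 : ‖(dl 0 : L2 V) + dl b‖ ^ 2 = 2 := by
      rw [norm_add_sq (𝕜 := ℂ), dl_norm, dl_norm, dl_inner 0 b hb0]
      norm_num
    rw [h8]
    norm_num
  have h0 : E 0 0 ≠ 0 := by
    intro h
    rw [h] at h5
    have : ‖((0 : Rf) : L2 V →L[ℂ] L2 V) (dl 0)‖ = 0 := by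
      have h7 : ((0 : Rf) : L2 V →L[ℂ] L2 V) = 0 := rfl
      rw [h7]
      simp
    rw [this] at h5
    norm_num at h5
  refine ⟨E, h1, h2, h3, fun i j hij => h0 ?_, h5⟩
  have h7 : E 0 0 = E 0 i * E i j * E j 0 := by
    rw [h1, if_pos rfl, h1, if_pos rfl]
  rw [h7, hij, mul_zero, zero_mul]

end Pool.Agent.Lib.MP_1d6fae_al
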