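import Pool.Agent.Lib.MP_1d6fae_al.RH

/-!
# Row PN: orthogonal projections with strong sum `1`

PROOF IN WORDS. `q 0 = 1`, `q (n + 1) = i1 e * i2 (q n)`: projections (`comm`), and `q (n + 1) * q n = q (n + 1)` by induction, so `q m * q n = q m` for `m ≥ n` (and `q n * q m = q m`, take `star`). `p n = q n - q (n + 1)`: orthogonal projections. `dl 0 = tv eV (dl 0) (dl 0)` (`tvd`, `eV 0 = 0`), so `‖q (n + 1) (dl 0)‖ = ‖e (dl 0)‖ * ‖q n (dl 0)‖` (`tvn`):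
`‖q n (dl 0)‖^2 = 2^(-n)`, so `p n ≠ 0` (`q n ≠ q (n + 1)`). Similarly `‖i2 (q n) (dl 0)‖ = ‖q n (dl 0)‖ → 0`. Every element `T` of `Rf` has `‖T (dl v)‖ = ‖T (rho v (dl 0))‖ = ‖rho v (T (dl 0))‖ = ‖T (dl 0)‖` (`rhd` for `w = 0`: `sg 0 v = 1`; `rhn`). So `i2 (q n) (dl v) → 0` for all `v`, and `‖i2 (q n)‖ ≤ 1` (projection), so
`i2 (q n) ξ → 0` for all `ξ` (density of the span of the `dl v`: `lp.hasSum_single`). `∑_(n < N) i2 (p n) ξ = ξ - i2 (q N) ξ → ξ`; `HasSum`: orthogonal vectors with `∑ ‖i2 (p n) ξ‖^2 ≤ ‖ξ‖^2` (e.g. `OrthogonalFamily`/`summable_of_..`), or: for every finite set `s ⊇ range N`, `‖ξ - ∑_s i2 (p n) ξ‖ ≤ ‖i2 (q N) ξ‖`,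
as `(1 - ∑_s p n) = (1 - ∑_s p n) q N` and `1 - ∑_s p n` is a projection.
-/

set_option autoImplicit false

namespace Pool.Agent.Lib.MP_1d6fae_al

open Finset Filter Topology

private noncomputable def pq (i1 i2 : Rf →⋆ₐ[ℂ] Rf) (e : Rf) : ℕ → Rf
  | 0 => 1
  | n + 1 => i1 e * i2 (pq i1 i2 e n)

private theorem pq_s {i1 i2 : Rf →⋆ₐ[ℂ] Rf} {e : Rf} (n : ℕ) : pq i1 i2 e (n + 1) = i1 e * i2 (pq i1 i2 e n) := rfl

private theorem pq_0 {i1 i2 : Rf →⋆ₐ[ℂ] Rf} {e : Rf} : pq i1 i2 e 0 = 1 := rfl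

private theorem pq_st {i1 i2 : Rf →⋆ₐ[ℂ] Rf} (hc : Cop i1 i2) {e : Rf} (he : star e = e) (n : ℕ) :
    star (pq i1 i2 e n) = pq i1 i2 e n := by
  induction n with
  | zero => exact star_one _
  | succ n ih => rw [pq_s, star_mul, ← map_star, ← map_star, ih, he, hc.comm]

private theorem pq_mul4 {i1 i2 : Rf →⋆ₐ[ℂ] Rf} (hc : Cop i1 i2) (a b c d : Rf) :
    (i1 a * i2 b) * (i1 c * i2 d) = i1 (a * c) * i2 (b * d) := by
  calc (i1 a * i2 b) * (i1 c * i2 d) = i1 a * (i2 b * i1 c) * i2 d := by simp only [mul_assoc]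
    _ = i1 a * (i1 c * i2 b) * i2 d := by rw [hc.comm c b]
    _ = _ := by rw [map_mul, map_mul]; simp only [mul_assoc]

private theorem pq_succ {i1 i2 : Rf →⋆ₐ[ℂ] Rf} (hc : Cop i1 i2) {e : Rf} (hee : e * e = e) (n : ℕ) :
    pq i1 i2 e (n + 1) * pq i1 i2 e n = pq i1 i2 e (n + 1) := by
  induction n with
  | zero => rw [pq_0, mul_one]
  | succ n ih => rw [pq_s (n + 1), pq_s n, pq_mul4 hc, hee, ← pq_s n, ih]

private theorem pq_sq {i1 i2 : Rf →⋆ₐ[ℂ] Rf} (hc : Cop i1 i2) {e : Rf} (hee : e * e = e) (n : ℕ) :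
    pq i1 i2 e n * pq i1 i2 e n = pq i1 i2 e n := by
  induction n with
  | zero => rw [pq_0, mul_one]
  | succ n ih => rw [pq_s n, pq_mul4 hc, hee, ih]

private theorem pq_ge {i1 i2 : Rf →⋆ₐ[ℂ] Rf} (hc : Cop i1 i2) {e : Rf} (hee : e * e = e) (n d : ℕ) :
    pq i1 i2 e (n + d) * pq i1 i2 e n = pq i1 i2 e (n + d) := by
  induction d with
  | zero => exact pq_sq hc hee n
  | succ d ih =>
    rw [← add_assoc, ← pq_succ hc hee (n + d), mul_assoc, ih]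

private theorem pq_le {i1 i2 : Rf →⋆ₐ[ℂ] Rf} (hc : Cop i1 i2) {e : Rf} (he : star e = e) (hee : e * e = e) (n d : ℕ) :
    pq i1 i2 e n * pq i1 i2 e (n + d) = pq i1 i2 e (n + d) := by
  have h := congrArg star (pq_ge hc hee n d)
  rwa [star_mul, pq_st hc he, pq_st hc he] at h

private theorem proj_le (T : Rf) (hs : star T = T) (hq : T * T = T) (ξ : L2 V) : ‖(T : L2 V →L[ℂ] L2 V) ξ‖ ≤ ‖ξ‖ := by
  have hs' : star (T : L2 V →L[ℂ] L2 V) = T := congrArg Subtype.val hs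
  have hq' : (T : L2 V →L[ℂ] L2 V) ((T : L2 V →L[ℂ] L2 V) ξ) = (T : L2 V →L[ℂ] L2 V) ξ :=
    congrArg (fun S : L2 V →L[ℂ] L2 V => S ξ) (congrArg Subtype.val hq)
  have h2 : inner ℂ ((T : L2 V →L[ℂ] L2 V) ξ) ((T : L2 V →L[ℂ] L2 V) ξ) = inner ℂ ξ ((T : L2 V →L[ℂ] L2 V) ξ) := by
    conv_lhs => 
      arg 2
      rw [← hs', ContinuousLinearMap.star_eq_adjoint]
    rw [ContinuousLinearMap.adjoint_inner_left, hq']
  have h3 : ‖inner ℂ ((T : L2 V →L[ℂ] L2 V) ξ) ((T : L2 V →L[ℂ] L2 V) ξ)‖ = ‖(T : L2 V →L[ℂ] L2 V) ξ‖ ^ 2 := by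
    rw [inner_self_eq_norm_sq_to_K]
    simp
  rw [h2] at h3
  have h4 := norm_inner_le_norm (𝕜 := ℂ) ξ ((T : L2 V →L[ℂ] L2 V) ξ)
  rw [h3] at h4
  rcases (norm_nonneg ((T : L2 V →L[ℂ] L2 V) ξ)).eq_or_lt with h5 | h5
  · rw [← h5]
    exact norm_nonneg _
  · nlinarith

private theorem norm_dl {α : Type} (v : α) : ‖(dl v : L2 α)‖ = 1 := by
  classical
  unfold dl
  rw [lp.norm_single (by norm_num)]
  simp

private theorem dl00 : (dl 0 : L2 V) = tv eV.toEquiv (dl 0) (dl 0) := by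
  rw [tvd]
  congr 1
  symm
  exact map_zero eV.symm

private theorem pq_norm {i1 i2 : Rf →⋆ₐ[ℂ] Rf} (hc : Cop i1 i2) {e : Rf}
    (hn : ‖((e : Rf) : L2 V →L[ℂ] L2 V) (dl 0)‖ ^ 2 = 1 / 2) (n : ℕ) :
    ‖(pq i1 i2 e n : L2 V →L[ℂ] L2 V) (dl 0)‖ ^ 2 = (1 / 2) ^ n := by
  induction n with
  | zero =>
    have h : (pq i1 i2 e 0 : L2 V →L[ℂ] L2 V) (dl 0) = dl 0 := rfl
    rw [h, norm_dl]
    norm_num
  | succ n ih =>
    have h : (pq i1 i2 e (n + 1) : L2 V →L[ℂ] L2 V) (dl 0) =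
        tv eV.toEquiv ((e : L2 V →L[ℂ] L2 V) (dl 0)) ((pq i1 i2 e n : L2 V →L[ℂ] L2 V) (dl 0)) := by
      calc (pq i1 i2 e (n + 1) : L2 V →L[ℂ] L2 V) (dl 0) =
          (i1 e : L2 V →L[ℂ] L2 V) ((i2 (pq i1 i2 e n) : L2 V →L[ℂ] L2 V) (dl 0)) := rfl
        _ = _ := by
            conv_lhs => rw [dl00]
            rw [hc.h2, hc.h1]
    rw [h, tvn, mul_pow, hn, ih]
    ring

private theorem i2_norm {i1 i2 : Rf →⋆ₐ[ℂ] Rf} (hc : Cop i1 i2) (T : Rf) :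
    ‖(i2 T : L2 V →L[ℂ] L2 V) (dl 0)‖ = ‖(T : L2 V →L[ℂ] L2 V) (dl 0)‖ := by
  conv_lhs => rw [dl00]
  rw [hc.h2, tvn, norm_dl, one_mul]

private theorem rf_norm (T : Rf) (v : V) : ‖(T : L2 V →L[ℂ] L2 V) (dl v)‖ = ‖(T : L2 V →L[ℂ] L2 V) (dl 0)‖ := by
  have h1 : (T : L2 V →L[ℂ] L2 V) (rho v (dl 0)) = rho v ((T : L2 V →L[ℂ] L2 V) (dl 0)) :=
    congrArg (fun S : L2 V →L[ℂ] L2 V => S (dl 0)) ((rfm _).1 T.2 v)
  rw [rhd, zero_add, map_smul] at h1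
  have h2 := congrArg norm h1
  rw [norm_smul, rhn] at h2
  have h3 : ‖sg 0 v‖ = 1 := norm_chi _
  rwa [h3, one_mul] at h2

private theorem lim_dl {α : Type} {P : ℕ → (L2 α →L[ℂ] L2 α)} (hP : ∀ n ξ, ‖P n ξ‖ ≤ ‖ξ‖)
    (h0 : ∀ v, Tendsto (fun n => P n (dl v)) atTop (𝓝 0)) (ξ : L2 α) : Tendsto (fun n => P n ξ) atTop (𝓝 0) := by
  classical
  rw [Metric.tendsto_atTop]
  intro ε hε
  have hs := lp.hasSum_single (E := fun _ : α => ℂ) (p := 2) (by norm_num) ξ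
  simp only [HasSum, SummationFilter.unconditional_filter] at hs
  rw [Metric.tendsto_atTop] at hs
  obtain ⟨s, hs⟩ := hs (ε / 2) (by linarith)
  have hs' := hs s le_rfl
  have h1 : ∀ v, (lp.single 2 v (ξ v) : L2 α) = ξ v • dl v := by
    intro v
    unfold dl
    rw [← lp.single_smul]
    simp
  have h2 : Tendsto (fun n => P n (∑ v ∈ s, lp.single 2 v (ξ v))) atTop (𝓝 0) := by
    have h3 : (fun n => P n (∑ v ∈ s, lp.single 2 v (ξ v))) = fun n => ∑ v ∈ s, ξ v • P n (dl v) := by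
      funext n
      rw [map_sum]
      refine sum_congr rfl fun v _ => ?_
      rw [h1, map_smul]
    rw [h3]
    have h4 := tendsto_finsetSum s (fun v _ => (h0 v).const_smul (ξ v))
    simpa using h4
  rw [Metric.tendsto_atTop] at h2
  obtain ⟨N, hN⟩ := h2 (ε / 2) (by linarith)
  refine ⟨N, fun n hn => ?_⟩
  have h5 := hN n hn
  rw [dist_zero_right] at h5 ⊢
  have h6 : P n ξ = P n (ξ - ∑ v ∈ s, lp.single 2 v (ξ v)) + P n (∑ v ∈ s, lp.single 2 v (ξ v)) := by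
    rw [← map_add, sub_add_cancel]
  rw [h6]
  have h7 := hP n (ξ - ∑ v ∈ s, lp.single 2 v (ξ v))
  rw [dist_eq_norm, ← norm_neg, neg_sub] at hs'
  have h8 := norm_add_le (P n (ξ - ∑ v ∈ s, lp.single 2 v (ξ v))) (P n (∑ v ∈ s, lp.single 2 v (ξ v)))
  linarith

theorem pn (i1 i2 : Rf →⋆ₐ[ℂ] Rf) (hc : Cop i1 i2) (e : Rf) (he : star e = e) (hee : e * e = e) (hn : ‖((e : Rf) : L2 V →L[ℂ] L2 V) (dl 0)‖ ^ 2 = 1 / 2) :
    ∃ p : ℕ → Rf, Prs i2 p := by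
  classical
  have hst := pq_st hc he
  have hge := pq_ge hc hee
  have hle := pq_le hc he hee
  obtain ⟨q, hq⟩ : ∃ q : ℕ → Rf, q = pq i1 i2 e := ⟨_, rfl⟩
  have hq0 : q 0 = 1 := by rw [hq]; rfl
  have hnm := pq_norm hc hn
  rw [← hq] at hst hge hle hnm
  have hqq : ∀ n, q n * q n = q n := fun n => hge n 0
  have hpp : ∀ n m, (q n - q (n + 1)) * (q m - q (m + 1)) = if n = m then q n - q (n + 1) else 0 := by
    intro n m
    split_ifs with h
    · subst h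
      rw [sub_mul, mul_sub, mul_sub, hqq n, hle n 1, hge n 1, hqq (n + 1), sub_self, sub_zero]
    · rcases lt_or_gt_of_ne h with h1 | h1
      · obtain ⟨d, rfl⟩ := Nat.exists_eq_add_of_lt h1
        have e1 := hle n (d + 1)
        have e2 := hle n (d + 1 + 1)
        have e3 := hle (n + 1) d
        have e4 := hle (n + 1) (d + 1)
        rw [show n + 1 + d = n + d + 1 by ring] at e3
        rw [show n + 1 + (d + 1) = n + d + 1 + 1 by ring] at e4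
        rw [← add_assoc] at e1
        rw [show n + (d + 1 + 1) = n + d + 1 + 1 by ring] at e2
        rw [sub_mul, mul_sub, mul_sub, e1, e2, e3, e4, sub_self]
      · obtain ⟨d, rfl⟩ := Nat.exists_eq_add_of_lt h1
        have e1 := hge m (d + 1)
        have e2 := hge m (d + 1 + 1)
        have e3 := hge (m + 1) d
        have e4 := hge (m + 1) (d + 1)
        rw [show m + 1 + d = m + d + 1 by ring] at e3
        rw [show m + 1 + (d + 1) = m + d + 1 + 1 by ring] at e4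
        rw [← add_assoc] at e1
        rw [show m + (d + 1 + 1) = m + d + 1 + 1 by ring] at e2
        rw [sub_mul, mul_sub, mul_sub, e1, e2, e3, e4, sub_self, sub_self, sub_self]
  refine ⟨fun n => q n - q (n + 1), ?_, hpp, ?_, ?_⟩
  · intro n
    simp only [star_sub, hst]
  · intro n h
    have h1 : q n = q (n + 1) := sub_eq_zero.1 h
    have h2 := hnm n
    rw [h1, hnm (n + 1), pow_succ] at h2
    have h3 : (0 : ℝ) < (1 / 2) ^ n := by positivity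
    linarith
  · intro ξ
    -- the projections i2 (q n) tend to zero strongly
    have hlim : Tendsto (fun n => (i2 (q n) : L2 V →L[ℂ] L2 V) ξ) atTop (𝓝 0) := by
      refine lim_dl (P := fun n => (i2 (q n) : L2 V →L[ℂ] L2 V)) (fun n ξ => ?_) (fun v => ?_) ξ
      · refine proj_le (i2 (q n)) ?_ ?_ ξ
        · rw [← map_star, hst]
        · rw [← map_mul, hqq n]
      · rw [tendsto_zero_iff_norm_tendsto_zero]
        have h1 : ∀ n, ‖(i2 (q n) : L2 V →L[ℂ] L2 V) (dl v)‖ = √((1 / 2) ^ n) := by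
          intro n
          rw [rf_norm, i2_norm hc, ← hnm n, Real.sqrt_sq (norm_nonneg _)]
        simp only [h1]
        have h2 := (tendsto_pow_atTop_nhds_zero_of_lt_one (r := (1 / 2 : ℝ)) (by norm_num) (by norm_num)).sqrt
        simpa using h2
    simp only [HasSum, SummationFilter.unconditional_filter]
    rw [Metric.tendsto_atTop]
    intro ε hε
    rw [Metric.tendsto_atTop] at hlim
    obtain ⟨N, hN⟩ := hlim ε hε
    refine ⟨range N, fun s hs => ?_⟩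
    have hF : (1 - ∑ n ∈ s, (q n - q (n + 1))) * q N = 1 - ∑ n ∈ s, (q n - q (n + 1)) := by
      have h1 : 1 - q N = ∑ n ∈ range N, (q n - q (n + 1)) := by
        rw [sum_range_sub', hq0]
      have h2 : (1 - ∑ n ∈ s, (q n - q (n + 1))) * (1 - q N) = 0 := by
        rw [h1, mul_sum]
        refine sum_eq_zero fun m hm => ?_
        rw [sub_mul, one_mul, sum_mul, sub_eq_zero]
        symm
        rw [sum_congr rfl fun n _ => hpp n m, sum_ite_eq' s m]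
        rw [if_pos (hs hm)]
      rw [mul_sub, mul_one, sub_eq_zero] at h2
      exact h2.symm
    have hFs : star (1 - ∑ n ∈ s, (q n - q (n + 1))) = 1 - ∑ n ∈ s, (q n - q (n + 1)) := by
      rw [star_sub, star_one, star_sum]
      congr 1
      refine sum_congr rfl fun n _ => ?_
      rw [star_sub, hst, hst]
    have hFq : (1 - ∑ n ∈ s, (q n - q (n + 1))) * (1 - ∑ n ∈ s, (q n - q (n + 1))) = 1 - ∑ n ∈ s, (q n - q (n + 1)) := by
      have h1 : (∑ n ∈ s, (q n - q (n + 1))) * (∑ n ∈ s, (q n - q (n + 1))) = ∑ n ∈ s, (q n - q (n + 1)) := by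
        rw [sum_mul_sum]
        refine sum_congr rfl fun n hn => ?_
        rw [sum_congr rfl fun m _ => hpp n m, sum_ite_eq s n, if_pos hn]
      rw [sub_mul, mul_sub, mul_sub, h1]
      simp
    have h3 : ξ - ∑ n ∈ s, (i2 (q n - q (n + 1)) : L2 V →L[ℂ] L2 V) ξ =
        (i2 (1 - ∑ n ∈ s, (q n - q (n + 1))) : L2 V →L[ℂ] L2 V) ((i2 (q N) : L2 V →L[ℂ] L2 V) ξ) := by
      have h4 : (i2 (1 - ∑ n ∈ s, (q n - q (n + 1))) : L2 V →L[ℂ] L2 V) ((i2 (q N) : L2 V →L[ℂ] L2 V) ξ) =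
          (i2 (1 - ∑ n ∈ s, (q n - q (n + 1))) : L2 V →L[ℂ] L2 V) ξ := by
        calc _ = ((i2 (1 - ∑ n ∈ s, (q n - q (n + 1))) * i2 (q N) : Rf) : L2 V →L[ℂ] L2 V) ξ := rfl
          _ = _ := by rw [← map_mul, hF]
      rw [h4, map_sub, map_one, map_sum]
      have h5 : ((1 - ∑ n ∈ s, i2 (q n - q (n + 1)) : Rf) : L2 V →L[ℂ] L2 V) =
          1 - ∑ n ∈ s, (i2 (q n - q (n + 1)) : L2 V →L[ℂ] L2 V) := by
        push_cast
        rfl
      rw [h5]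
      simp
    have h6 := proj_le (i2 (1 - ∑ n ∈ s, (q n - q (n + 1)))) (by rw [← map_star, hFs]) (by rw [← map_mul, hFq])
      ((i2 (q N) : L2 V →L[ℂ] L2 V) ξ)
    have h7 := hN N le_rfl
    rw [dist_zero_right] at h7
    rw [dist_eq_norm, ← norm_neg, neg_sub]
    show ‖ξ - ∑ n ∈ s, (i2 (q n - q (n + 1)) : L2 V →L[ℂ] L2 V) ξ‖ < ε
    rw [h3]
    exact lt_of_le_of_lt h6 h7

end Pool.Agent.Lib.MP_1d6fae_al
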