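import Mathlib

/-!
# Row DS: the direct sum of countably many unitaries (Hilbert spaces, only Mathlib)

PROOF IN WORDS. `du`: apply `A` and `B` to `ξ = ∑ P n ξ`. `ds`: the vectors `w n (P n ξ) = P n (w n ξ)` are mutually orthogonal and
`‖w n (P n ξ)‖ = ‖P n ξ‖`, so they are summable (`OrthogonalFamily.summable_iff_norm_sq_summable` for the ranges of the `P n`);
`W ξ = ∑' w n (P n ξ)` is continuous by Banach-Steinhaus, and `W P n = w n P n`.  By `du` (multiply by `P n` on the right)
`P m W = P m w m`, so `star W P m = star (w m) P m`, and again by `du` `star W W = 1 = W star W`.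
-/

set_option autoImplicit false

open Filter Topology

namespace Pool.Agent.Lib.MP_1d6fae_al

theorem du {H : Type} [NormedAddCommGroup H] [InnerProductSpace ℂ H] [CompleteSpace H] (P : ℕ → H →L[ℂ] H) (hP : ∀ ξ, HasSum (fun n => P n ξ) ξ) (A B : H →L[ℂ] H)
    (h : ∀ n, A * P n = B * P n) : A = B := by
  ext ξ
  have h1 : HasSum (fun n => A (P n ξ)) (A ξ) := (hP ξ).mapL A
  have h2 : HasSum (fun n => B (P n ξ)) (B ξ) := (hP ξ).mapL B
  have h3 : (fun n => A (P n ξ)) = fun n => B (P n ξ) := by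
    funext n
    have := congrArg (fun T : H →L[ℂ] H => T ξ) (h n)
    simpa using this
  rw [h3] at h1
  exact h1.unique h2

private theorem norm_w {H : Type} [NormedAddCommGroup H] [InnerProductSpace ℂ H] [CompleteSpace H] (w : H →L[ℂ] H) (hw : star w * w = 1) (v : H) :
    ‖w v‖ = ‖v‖ := by
  have h1 : inner ℂ (w v) (w v) = inner ℂ v v := by
    have h2 : inner ℂ ((star w * w) v) v = inner ℂ (w v) (w v) := by
      rw [ContinuousLinearMap.star_eq_adjoint]
      exact ContinuousLinearMap.adjoint_inner_left w v (w v)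
    rw [← h2, hw]
    rfl
  rw [inner_self_eq_norm_sq_to_K, inner_self_eq_norm_sq_to_K] at h1
  have h3 : ‖w v‖ ^ 2 = ‖v‖ ^ 2 := by exact_mod_cast h1
  exact (sq_eq_sq₀ (norm_nonneg _) (norm_nonneg _)).1 h3

private theorem ortho {H : Type} [NormedAddCommGroup H] [InnerProductSpace ℂ H] [CompleteSpace H] (P : ℕ → H →L[ℂ] H) (hs : ∀ n, star (P n) = P n)
    (hm : ∀ n m, P n * P m = if n = m then P n else 0) :
    OrthogonalFamily ℂ (fun n => LinearMap.range (P n).toLinearMap) (fun n => (LinearMap.range (P n).toLinearMap).subtypeₗᵢ) := by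
  intro n m hnm x y
  obtain ⟨x, x', rfl⟩ := x
  obtain ⟨y, y', rfl⟩ := y
  show inner ℂ (P n x') (P m y') = 0
  have h1 : inner ℂ (P n x') (P m y') = inner ℂ x' ((P n * P m) y') := by
    have h2 := ContinuousLinearMap.adjoint_inner_left (P n) (P m y') x'
    rw [← ContinuousLinearMap.star_eq_adjoint, hs n] at h2
    exact h2
  rw [h1, hm, if_neg hnm]
  simp

private theorem summ {H : Type} [NormedAddCommGroup H] [InnerProductSpace ℂ H] [CompleteSpace H] (P : ℕ → H →L[ℂ] H) (hs : ∀ n, star (P n) = P n)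
    (hm : ∀ n m, P n * P m = if n = m then P n else 0) (hP : ∀ ξ, HasSum (fun n => P n ξ) ξ) (w : ℕ → H →L[ℂ] H)
    (hw : ∀ n, star (w n) * w n = 1 ∧ w n * star (w n) = 1) (hc : ∀ n, w n * P n = P n * w n) (ξ : H) :
    Summable (fun n => w n (P n ξ)) := by
  have hO := ortho P hs hm
  have hc' : ∀ n, w n (P n ξ) = P n (w n ξ) := by
    intro n
    have := congrArg (fun T : H →L[ℂ] H => T ξ) (hc n)
    simpa using this
  have h1 := (hO.summable_iff_norm_sq_summable (fun n => ⟨P n ξ, ⟨ξ, rfl⟩⟩)).1 (hP ξ).summable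
  have h2 := (hO.summable_iff_norm_sq_summable (fun n => ⟨P n (w n ξ), ⟨w n ξ, rfl⟩⟩)).2 (by
    refine h1.congr fun n => ?_
    show ‖P n ξ‖ ^ 2 = ‖P n (w n ξ)‖ ^ 2
    rw [← hc' n, norm_w (w n) (hw n).1])
  refine h2.congr fun n => ?_
  show P n (w n ξ) = w n (P n ξ)
  rw [hc']

theorem ds {H : Type} [NormedAddCommGroup H] [InnerProductSpace ℂ H] [CompleteSpace H] (P : ℕ → H →L[ℂ] H) (hs : ∀ n, star (P n) = P n)
    (hm : ∀ n m, P n * P m = if n = m then P n else 0) (hP : ∀ ξ, HasSum (fun n => P n ξ) ξ) (w : ℕ → H →L[ℂ] H)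
    (hw : ∀ n, star (w n) * w n = 1 ∧ w n * star (w n) = 1) (hc : ∀ n, w n * P n = P n * w n) :
    ∃ W : H →L[ℂ] H, star W * W = 1 ∧ W * star W = 1 ∧ ∀ n, W * P n = w n * P n := by
  obtain ⟨W, hW⟩ : ∃ W : H →L[ℂ] H, ∀ n, W * P n = w n * P n := by
    have ht : Tendsto (fun N : ℕ => fun ξ : H => (∑ n ∈ Finset.range N, w n * P n : H →L[ℂ] H) ξ) atTop
        (𝓝 fun ξ => ∑' n, w n (P n ξ)) := by
      rw [tendsto_pi_nhds]
      intro ξ
      have h1 := (summ P hs hm hP w hw hc ξ).hasSum.tendsto_sum_nat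
      refine h1.congr fun N => ?_
      simp
    refine ⟨continuousLinearMapOfTendsto _ ht, fun n => ?_⟩
    ext ξ
    show ∑' m, w m (P m (P n ξ)) = w n (P n ξ)
    rw [tsum_eq_single n]
    · have := congrArg (fun T : H →L[ℂ] H => T ξ) (hm n n)
      simp only [if_true] at this
      exact congrArg (w n) this
    · intro m hmn
      have := congrArg (fun T : H →L[ℂ] H => T ξ) (hm m n)
      rw [if_neg hmn] at this
      have h2 : P m (P n ξ) = 0 := this
      rw [h2, map_zero]
  have hPW : ∀ m, P m * W = P m * w m := by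
    intro m
    refine du P hP _ _ fun n => ?_
    rw [mul_assoc, hW n, hc n, ← mul_assoc, hm, mul_assoc]
    by_cases h : m = n
    · subst h
      rw [if_pos rfl, hc, ← mul_assoc, hm, if_pos rfl]
    · rw [if_neg h, zero_mul, ← mul_assoc, ← hc m, mul_assoc, hm, if_neg h, mul_zero]
  have hWs : ∀ m, star W * P m = star (w m) * P m := by
    intro m
    have := congrArg star (hPW m)
    rwa [star_mul, star_mul, hs] at this
  have hcs : ∀ m, star (w m) * P m = P m * star (w m) := by
    intro m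
    have := congrArg star (hc m)
    rw [star_mul, star_mul, hs] at this
    exact this.symm
  refine ⟨W, du P hP _ _ fun m => ?_, du P hP _ _ fun m => ?_, hW⟩
  · rw [mul_assoc, hW, hc, ← mul_assoc, hWs, mul_assoc, ← hc, ← mul_assoc, (hw m).1]
  · rw [mul_assoc, hWs, hcs, ← mul_assoc, hW, mul_assoc, ← hcs, ← mul_assoc, (hw m).2]

end Pool.Agent.Lib.MP_1d6fae_al
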