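import Pool.Agent.Lib.MP_1d6fae_al.RH
import Pool.Agent.Lib.MP_1d6fae_al.DS

/-!
# Row SM: countable sums of unitaries of `Rf`

PROOF IN WORDS. `P n = i2 (p n)`, `w n = i1 (u n)`: `ds` gives `W` with `W P n = w n P n` (`hc.comm`), unique by `du`. `W ∈ Rf` (`rfm`): `W rho v P n = W P n rho v = w n P n rho v = rho v w n P n = rho v W P n`, then `du`. Also `star W ∈ Rf`; so `W` is an element of `unitary Rf`. Multiplicative: `W(u) W(v) P n = W(u) i1 (v n) P n = W(u) P n i1 (v n) = i1 (u n) P n i1 (v n)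
= i1 (u n v n) P n`, uniqueness. Injective: `W(u) = W(v)` gives `i1 (u n - v n) * i2 (p n) = 0`, so `u n = v n` by `hc.ne` and `hp.ne`.
-/

set_option autoImplicit false

namespace Pool.Agent.Lib.MP_1d6fae_al

private theorem sm_star (i2 : Rf →⋆ₐ[ℂ] Rf) (p : ℕ → Rf) (hp : Prs i2 p) (n : ℕ) :
    star (i2 (p n) : L2 V →L[ℂ] L2 V) = (i2 (p n) : L2 V →L[ℂ] L2 V) := by
  have h : star (i2 (p n)) = i2 (p n) := by rw [← map_star, hp.st n]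
  have h2 := congrArg (Subtype.val : Rf → L2 V →L[ℂ] L2 V) h
  exact h2

private theorem sm_mul (i2 : Rf →⋆ₐ[ℂ] Rf) (p : ℕ → Rf) (hp : Prs i2 p) (n m : ℕ) :
    (i2 (p n) : L2 V →L[ℂ] L2 V) * (i2 (p m) : L2 V →L[ℂ] L2 V) =
      if n = m then (i2 (p n) : L2 V →L[ℂ] L2 V) else 0 := by
  have h : i2 (p n) * i2 (p m) = if n = m then i2 (p n) else 0 := by
    rw [← map_mul, hp.mul n m]
    split_ifs
    · rfl
    · exact map_zero i2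
  have h2 := congrArg (Subtype.val : Rf → L2 V →L[ℂ] L2 V) h
  split_ifs at h2 ⊢
  · exact h2
  · exact h2

private theorem sm_comm {i1 i2 : Rf →⋆ₐ[ℂ] Rf} (hc : Cop i1 i2) (x y : Rf) :
    (i1 x : L2 V →L[ℂ] L2 V) * (i2 y : L2 V →L[ℂ] L2 V) = (i2 y : L2 V →L[ℂ] L2 V) * (i1 x : L2 V →L[ℂ] L2 V) :=
  congrArg (Subtype.val : Rf → L2 V →L[ℂ] L2 V) (hc.comm x y)

private theorem sm_uni (i1 : Rf →⋆ₐ[ℂ] Rf) (u : unitary Rf) :
    star (i1 (u : Rf) : L2 V →L[ℂ] L2 V) * (i1 (u : Rf) : L2 V →L[ℂ] L2 V) = 1 ∧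
      (i1 (u : Rf) : L2 V →L[ℂ] L2 V) * star (i1 (u : Rf) : L2 V →L[ℂ] L2 V) = 1 := by
  have h1 : star (i1 (u : Rf)) * i1 (u : Rf) = 1 := by
    rw [← map_star, ← map_mul, (Unitary.mem_iff.1 u.2).1, map_one]
  have h2 : i1 (u : Rf) * star (i1 (u : Rf)) = 1 := by
    rw [← map_star, ← map_mul, (Unitary.mem_iff.1 u.2).2, map_one]
  exact ⟨congrArg (Subtype.val : Rf → L2 V →L[ℂ] L2 V) h1, congrArg (Subtype.val : Rf → L2 V →L[ℂ] L2 V) h2⟩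

private theorem sm_ex (i1 i2 : Rf →⋆ₐ[ℂ] Rf) (hc : Cop i1 i2) (p : ℕ → Rf) (hp : Prs i2 p) (u : ℕ → unitary Rf) :
    ∃ W : unitary Rf, ∀ n, ((W : Rf) : L2 V →L[ℂ] L2 V) * (i2 (p n) : L2 V →L[ℂ] L2 V) =
      (i1 (u n : Rf) : L2 V →L[ℂ] L2 V) * (i2 (p n) : L2 V →L[ℂ] L2 V) := by
  obtain ⟨W, h1, h2, h3⟩ := ds (fun n => (i2 (p n) : L2 V →L[ℂ] L2 V)) (sm_star i2 p hp) (sm_mul i2 p hp) hp.sum
    (fun n => (i1 (u n : Rf) : L2 V →L[ℂ] L2 V)) (fun n => sm_uni i1 (u n)) fun n => sm_comm hc _ _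
  have h4 : W ∈ Rf := by
    rw [rfm]
    intro v
    refine du (fun n => (i2 (p n) : L2 V →L[ℂ] L2 V)) hp.sum _ _ fun n => ?_
    have e1 := (rfm _).1 (i2 (p n)).2 v
    have e2 := (rfm _).1 (i1 (u n : Rf)).2 v
    have e3 := h3 n
    beta_reduce at e3 ⊢
    rw [mul_assoc, ← e1, ← mul_assoc, e3, mul_assoc, e1, ← mul_assoc, e2, mul_assoc, mul_assoc, e3]
  refine ⟨⟨⟨W, h4⟩, ?_⟩, h3⟩
  rw [Unitary.mem_iff]
  exact ⟨Subtype.ext h1, Subtype.ext h2⟩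

theorem sm (i1 i2 : Rf →⋆ₐ[ℂ] Rf) (hc : Cop i1 i2) (p : ℕ → Rf) (hp : Prs i2 p) : ∃ Φ : (ℕ → unitary Rf) →* unitary Rf, Function.Injective Φ := by
  choose Φ hΦ using sm_ex i1 i2 hc p hp
  have huniq : ∀ W W' : unitary Rf, (∀ n, ((W : Rf) : L2 V →L[ℂ] L2 V) * (i2 (p n) : L2 V →L[ℂ] L2 V) =
      ((W' : Rf) : L2 V →L[ℂ] L2 V) * (i2 (p n) : L2 V →L[ℂ] L2 V)) → W = W' := fun W W' h =>
    Subtype.ext (Subtype.ext (du (fun n => (i2 (p n) : L2 V →L[ℂ] L2 V)) hp.sum _ _ h))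
  refine ⟨MonoidHom.mk' Φ fun u v => huniq _ _ fun n => ?_, fun u v h => ?_⟩
  · rw [hΦ]
    have e1 : (((Φ u * Φ v : unitary Rf) : Rf) : L2 V →L[ℂ] L2 V) =
        ((Φ u : Rf) : L2 V →L[ℂ] L2 V) * ((Φ v : Rf) : L2 V →L[ℂ] L2 V) := rfl
    have e2 : (i1 (((u * v) n : unitary Rf) : Rf) : L2 V →L[ℂ] L2 V) =
        (i1 (u n : Rf) : L2 V →L[ℂ] L2 V) * (i1 (v n : Rf) : L2 V →L[ℂ] L2 V) := by
      have e3 : i1 (((u * v) n : unitary Rf) : Rf) = i1 (u n : Rf) * i1 (v n : Rf) := by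
        rw [← map_mul]
        rfl
      exact congrArg (Subtype.val : Rf → L2 V →L[ℂ] L2 V) e3
    rw [e1, e2, mul_assoc, mul_assoc, hΦ v n, sm_comm hc, ← mul_assoc, ← mul_assoc, hΦ u n]
  · have h' : Φ u = Φ v := h
    funext n
    have e1 : (i1 (u n : Rf) : L2 V →L[ℂ] L2 V) * (i2 (p n) : L2 V →L[ℂ] L2 V) =
        (i1 (v n : Rf) : L2 V →L[ℂ] L2 V) * (i2 (p n) : L2 V →L[ℂ] L2 V) := by
      rw [← hΦ u n, ← hΦ v n, h']
    have e2 : i1 (u n : Rf) * i2 (p n) = i1 (v n : Rf) * i2 (p n) := Subtype.ext e1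
    have e3 : i1 ((u n : Rf) - (v n : Rf)) * i2 (p n) = 0 := by
      rw [map_sub, sub_mul, e2, sub_self]
    by_contra hne
    have e4 : (u n : Rf) - (v n : Rf) ≠ 0 := fun h0 => hne (Subtype.ext (sub_eq_zero.1 h0))
    exact hc.ne _ _ e4 (hp.ne n) e3

end Pool.Agent.Lib.MP_1d6fae_al
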