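import Pool.Agent.Lib.MP_1d6fae_al.RI
import Pool.Agent.Lib.MP_1d6fae_al.LM
import Pool.Agent.Lib.MP_1d6fae_al.PN
import Pool.Agent.Lib.MP_1d6fae_al.SM

/-!
# Row AM: the amplification data of `Rf`
-/

set_option autoImplicit false

namespace Pool.Agent.Lib.MP_1d6fae_al

theorem am : Nonempty (Amp Rf) := by
  obtain ⟨i1, i2, hc⟩ := ri
  obtain ⟨E, h1, h2, h3, h4, h5⟩ := lm
  obtain ⟨p, hp⟩ := pn i1 i2 hc (E 0 0) (h2 0 0) (by rw [h1]; simp) h5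
  obtain ⟨Φ, hΦ⟩ := sm i1 i2 hc p hp
  exact ⟨{ i1 := i1, i2 := i2, comm := hc.comm, ne := hc.ne, E := E, Emul := h1, Estar := h2, Eone := h3, Ene := h4, sum := Φ, suminj := hΦ }⟩



end Pool.Agent.Lib.MP_1d6fae_al
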