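import Pool.Agent.Lib.MP_1d6fae_al.ADefs

/-!
# MP_1d6fae_al: definitions for the concrete algebra
-/

set_option autoImplicit false

namespace Pool.Agent.Lib.MP_1d6fae_al

theorem tv_mem {α β γ : Type} (e : γ ≃ α × β) (f : L2 α) (g : L2 β) : Memℓp (fun c : γ => f (e c).1 * g (e c).2) 2 := by
  have h1 := lp.memℓp f
  have h2 := lp.memℓp g
  rw [memℓp_gen_iff (by norm_num)] at h1 h2 ⊢
  have h3 := Summable.mul_of_nonneg h1 h2 (fun _ => by positivity) (fun _ => by positivity)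
  have h4 := (Equiv.summable_iff e).2 h3
  refine h4.congr fun c => ?_
  simp only [Function.comp_apply, norm_mul]
  rw [Real.mul_rpow (norm_nonneg _) (norm_nonneg _)]

/-- the product vector `f ⊗ g`, transported by `e` -/
noncomputable def tv {α β γ : Type} (e : γ ≃ α × β) (f : L2 α) (g : L2 β) : L2 γ := ⟨fun c => f (e c).1 * g (e c).2, tv_mem e f g⟩

theorem tv_apply {α β γ : Type} (e : γ ≃ α × β) (f : L2 α) (g : L2 β) (c : γ) : tv e f g c = f (e c).1 * g (e c).2 := rfl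

open Classical in
/-- the basis vector of `a` -/
noncomputable def dl {α : Type} (a : α) : L2 α := lp.single 2 a 1

/-- the isomorphism of `V` and `V × V` (even and odd coordinates) -/
noncomputable def eV : V ≃+ V × V :=
  (Finsupp.domCongr Equiv.natSumNatEquivNat.symm : (ℕ →₀ ZMod 2 × ZMod 2) ≃+ (ℕ ⊕ ℕ →₀ ZMod 2 × ZMod 2)).trans
    Finsupp.sumFinsuppAddEquivProdFinsupp

/-- `i1` and `i2` are the two tensor copies of `Rf` in itself -/
structure Cop (i1 i2 : Rf →⋆ₐ[ℂ] Rf) : Prop where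
  h1 : ∀ (x : Rf) (f g : L2 V), (i1 x : L2 V →L[ℂ] L2 V) (tv eV.toEquiv f g) = tv eV.toEquiv ((x : L2 V →L[ℂ] L2 V) f) g
  h2 : ∀ (x : Rf) (f g : L2 V), (i2 x : L2 V →L[ℂ] L2 V) (tv eV.toEquiv f g) = tv eV.toEquiv f ((x : L2 V →L[ℂ] L2 V) g)
  comm : ∀ x y, i1 x * i2 y = i2 y * i1 x
  ne : ∀ x y, x ≠ 0 → y ≠ 0 → i1 x * i2 y ≠ 0

/-- mutually orthogonal nonzero projections whose second copies have the strong sum `1` -/
structure Prs (i2 : Rf →⋆ₐ[ℂ] Rf) (p : ℕ → Rf) : Prop where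
  st : ∀ n, star (p n) = p n
  mul : ∀ n m, p n * p m = if n = m then p n else 0
  ne : ∀ n, p n ≠ 0
  sum : ∀ ξ : L2 V, HasSum (fun n => (i2 (p n) : L2 V →L[ℂ] L2 V) ξ) ξ

end Pool.Agent.Lib.MP_1d6fae_al
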