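import Pool.Agent.Lib.MP_1d6fae_al.MN

/-!
# Row CL: examples of closed subgroups

PROOF IN WORDS. `cl1`: `g` not in the centralizer of `S`: there is `s ∈ S` with `g s ≠ s g`; take `φ` injective and `u = φ s`. `cl2` (finite index): `G` acts on `G ⧸ N`; the permutation matrices give `G →* unitary (Matrix (Fin k) (Fin k) R)`, `k` the index (reindex by `Finite.equivFin (G ⧸ N)`), `u` = the diagonal
matrix with `-1` at the class of `1` and `1` elsewhere: it commutes with the permutation matrix of `g` exactly if `g` fixes the class of `1`, i.e. `g ∈ N` (`-1 ≠ 1` in `R`: `R` is a `ℂ`-algebra and `1 ≠ 0` by `A.Ene`). Apply the injective homomorphism of `mn`.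
-/

set_option autoImplicit false

namespace Pool.Agent.Lib.MP_1d6fae_al

theorem cl1 {U : Type} [Group U] {G : Type} [Group G] (φ : G →* U) (hφ : Function.Injective φ) (S : Set G) (g : G) (hg : g ∉ Subgroup.centralizer S) :
    ∃ u : U, (∀ c ∈ Subgroup.centralizer S, φ c * u = u * φ c) ∧ φ g * u ≠ u * φ g := by
  rw [Subgroup.mem_centralizer_iff] at hg
  push Not at hg
  obtain ⟨s, hs, h⟩ := hg
  refine ⟨φ s, fun c hc => ?_, fun h1 => h ?_⟩
  · rw [Subgroup.mem_centralizer_iff] at hc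
    rw [← map_mul, ← map_mul, hc s hs]
  · rw [← map_mul, ← map_mul] at h1
    exact (hφ h1).symm

/-- permutation matrix -/
private def pmx {R : Type} [Ring R] {k : ℕ} (σ : Equiv.Perm (Fin k)) : Matrix (Fin k) (Fin k) R :=
  fun i j => if i = σ j then 1 else 0

private theorem pmx_one {R : Type} [Ring R] {k : ℕ} : (pmx (1 : Equiv.Perm (Fin k)) : Matrix (Fin k) (Fin k) R) = 1 := by
  ext i j
  by_cases h : i = j
  · subst h
    simp [pmx]
  · simp [pmx, Matrix.one_apply_ne h, h]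

private theorem pmx_mul {R : Type} [Ring R] {k : ℕ} (σ τ : Equiv.Perm (Fin k)) :
    (pmx (σ * τ) : Matrix (Fin k) (Fin k) R) = pmx σ * pmx τ := by
  ext i j
  rw [Matrix.mul_apply, Finset.sum_eq_single (τ j)]
  · by_cases h : i = σ (τ j)
    · simp [pmx, h]
    · simp [pmx, h]
  · intro b _ hb
    simp [pmx, hb]
  · intro h
    exact absurd (Finset.mem_univ _) h

private theorem pmx_star {R : Type} [Ring R] [StarRing R] {k : ℕ} (σ : Equiv.Perm (Fin k)) :
    star (pmx σ : Matrix (Fin k) (Fin k) R) = pmx σ⁻¹ := by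
  ext i j
  rw [Matrix.star_apply]
  unfold pmx
  by_cases h : j = σ i
  · rw [if_pos h, if_pos (by rw [h]; exact (σ.symm_apply_apply i).symm), star_one]
  · rw [if_neg h, if_neg (fun h1 => h (by rw [h1]; exact (σ.apply_symm_apply j).symm)), star_zero]

private theorem pmx_unitary {R : Type} [Ring R] [StarRing R] {k : ℕ} (σ : Equiv.Perm (Fin k)) :
    (pmx σ : Matrix (Fin k) (Fin k) R) ∈ unitary (Matrix (Fin k) (Fin k) R) := by
  rw [Unitary.mem_iff, pmx_star, ← pmx_mul, ← pmx_mul, inv_mul_cancel, mul_inv_cancel, pmx_one]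
  exact ⟨rfl, rfl⟩

/-- the homomorphism to the permutation matrices -/
private def pmHom (R : Type) [Ring R] [StarRing R] (k : ℕ) :
    Equiv.Perm (Fin k) →* unitary (Matrix (Fin k) (Fin k) R) where
  toFun σ := ⟨pmx σ, pmx_unitary σ⟩
  map_one' := Subtype.ext pmx_one
  map_mul' σ τ := Subtype.ext (pmx_mul σ τ)

/-- the diagonal matrix with the entry `-1` at `a` -/
private def dg {R : Type} [Ring R] {k : ℕ} (a : Fin k) : Matrix (Fin k) (Fin k) R :=
  Matrix.diagonal fun i => if i = a then -1 else 1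

private theorem dg_mul {R : Type} [Ring R] {k : ℕ} (a : Fin k) : (dg a : Matrix (Fin k) (Fin k) R) * dg a = 1 := by
  unfold dg
  rw [Matrix.diagonal_mul_diagonal, ← Matrix.diagonal_one]
  congr 1
  funext i
  split_ifs <;> simp

private theorem dg_star {R : Type} [Ring R] [StarRing R] {k : ℕ} (a : Fin k) :
    star (dg a : Matrix (Fin k) (Fin k) R) = dg a := by
  unfold dg
  rw [Matrix.star_eq_conjTranspose, Matrix.diagonal_conjTranspose]
  congr 1
  funext i
  rw [Pi.star_apply]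
  split_ifs <;> simp

private theorem dg_unitary {R : Type} [Ring R] [StarRing R] {k : ℕ} (a : Fin k) :
    (dg a : Matrix (Fin k) (Fin k) R) ∈ unitary (Matrix (Fin k) (Fin k) R) := by
  rw [Unitary.mem_iff, dg_star, dg_mul]
  exact ⟨rfl, rfl⟩

private theorem comm_iff {R : Type} [Ring R] {k : ℕ} (σ : Equiv.Perm (Fin k)) (a : Fin k)
    (h : σ a = a) : (pmx σ : Matrix (Fin k) (Fin k) R) * dg a = dg a * pmx σ := by
  ext i j
  unfold dg
  rw [Matrix.mul_diagonal, Matrix.diagonal_mul]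
  unfold pmx
  by_cases h1 : i = σ j
  · rw [if_pos h1, one_mul, mul_one]
    by_cases h2 : j = a
    · rw [if_pos h2, if_pos (by rw [h1, h2, h])]
    · rw [if_neg h2, if_neg]
      intro h3
      apply h2
      apply σ.injective
      rw [← h1, h3, h]
  · rw [if_neg h1, zero_mul, mul_zero]

private theorem not_comm {R : Type} [Ring R] (hR : (-1 : R) ≠ 1) {k : ℕ} (σ : Equiv.Perm (Fin k)) (a : Fin k)
    (h : σ a ≠ a) : (pmx σ : Matrix (Fin k) (Fin k) R) * dg a ≠ dg a * pmx σ := by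
  intro h1
  have h2 := congrFun (congrFun h1 (σ a)) a
  unfold dg at h2
  rw [Matrix.mul_diagonal, Matrix.diagonal_mul] at h2
  unfold pmx at h2
  rw [if_pos rfl, if_pos rfl, if_neg h, one_mul, mul_one] at h2
  exact hR h2

private theorem neg_one_ne {R : Type} [Ring R] [StarRing R] [Algebra ℂ R] (A : Amp R) : (-1 : R) ≠ 1 := by
  intro h
  have h1 : (2 : R) = 0 := by
    have : (1 : R) + 1 = 0 := by
      nth_rewrite 1 [← h]
      rw [neg_add_cancel]
    rw [← this]
    norm_num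
  have h2 : (1 : R) = 0 := by
    have h3 : (1 : R) = algebraMap ℂ R (1 / 2) * 2 := by
      have h4 : (2 : R) = algebraMap ℂ R 2 := by
        rw [map_ofNat]
      rw [h4, ← map_mul]
      norm_num
    rw [h3, h1, mul_zero]
  refine A.Ene 0 0 ?_
  rw [← one_mul (A.E 0 0), h2, zero_mul]

theorem cl2 {R : Type} [Ring R] [StarRing R] [Algebra ℂ R] [StarModule ℂ R] (A : Amp R) {G : Type} [Group G] (N : Subgroup G) [N.FiniteIndex] (g : G) (hg : g ∉ N) :
    ∃ (φ : G →* unitary R) (u : unitary R), (∀ c ∈ N, φ c * u = u * φ c) ∧ φ g * u ≠ u * φ g := by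
  classical
  have : Finite (G ⧸ N) := Subgroup.finite_quotient_of_finiteIndex
  obtain ⟨k, ⟨e⟩⟩ := Finite.exists_equiv_fin (G ⧸ N)
  obtain ⟨Φ, hΦ⟩ := mn A k
  let τ : G →* Equiv.Perm (Fin k) := (e.permCongrHom : Equiv.Perm (G ⧸ N) ≃* Equiv.Perm (Fin k)).toMonoidHom.comp (MulAction.toPermHom G (G ⧸ N))
  have hτ : ∀ x : G, τ x (e ((1 : G) : G ⧸ N)) = e ((x : G) : G ⧸ N) := by
    intro x
    show e ((MulAction.toPermHom G (G ⧸ N) x) (e.symm (e ((1 : G) : G ⧸ N)))) = _
    rw [Equiv.symm_apply_apply]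
    show e (x • ((1 : G) : G ⧸ N)) = _
    rw [MulAction.Quotient.smul_coe, smul_eq_mul, mul_one]
  have hfix : ∀ x : G, τ x (e ((1 : G) : G ⧸ N)) = e ((1 : G) : G ⧸ N) ↔ x ∈ N := by
    intro x
    rw [hτ x, e.apply_eq_iff_eq, eq_comm, QuotientGroup.eq, inv_one, one_mul]
  refine ⟨Φ.comp ((pmHom R k).comp τ), Φ ⟨dg (e ((1 : G) : G ⧸ N)), dg_unitary _⟩, fun c hc => ?_, fun h => ?_⟩
  · rw [MonoidHom.comp_apply, ← map_mul, ← map_mul]
    congr 1
    exact Subtype.ext (comm_iff (τ c) _ ((hfix c).2 hc))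
  · rw [MonoidHom.comp_apply, ← map_mul, ← map_mul] at h
    have h1 := congrArg Subtype.val (hΦ h)
    exact not_comm (neg_one_ne A) (τ g) _ (fun h2 => hg ((hfix g).1 h2)) h1

end Pool.Agent.Lib.MP_1d6fae_al
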