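import Pool.Agent.Lib.MP_1d6fae_al.ADefs

/-!
# Row DC: two representations which agree exactly on a subgroup

PROOF IN WORDS. `φ g = i1 (α g) * i2 (E 0 0) + i1 (β g) * i2 (E 1 1)` (a homomorphism into the unitary group: `A.comm`, `A.Emul`, `A.Estar`, `A.Eone`), `u = i2 (E 0 1 + E 1 0)`. `φ g * u = i1 (α g) * i2 (E 0 1) + i1 (β g) * i2 (E 1 0)`, `u * φ g = i1 (α g) * i2 (E 1 0) + i1 (β g) * i2 (E 0 1)`. Equal if `α g = β g`;
if they are equal multiply by `i2 (E 0 0)` from the left: `i1 (α g - β g) * i2 (E 0 1) = 0`, so `α g = β g` by `A.ne`. (Compare row ZZ, `z2`.)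
-/

set_option autoImplicit false

namespace Pool.Agent.Lib.MP_1d6fae_al

private theorem dcPr {R : Type} [Ring R] [StarRing R] [Algebra ℂ R] (A : Amp R) (x y a b : R) :
    A.i1 x * A.i2 a * (A.i1 y * A.i2 b) = A.i1 (x * y) * A.i2 (a * b) := by
  calc A.i1 x * A.i2 a * (A.i1 y * A.i2 b)
      = A.i1 x * (A.i2 a * A.i1 y) * A.i2 b := by simp only [mul_assoc]
    _ = A.i1 x * (A.i1 y * A.i2 a) * A.i2 b := by rw [A.comm]
    _ = (A.i1 x * A.i1 y) * (A.i2 a * A.i2 b) := by simp only [mul_assoc]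
    _ = A.i1 (x * y) * A.i2 (a * b) := by rw [← map_mul, ← map_mul]

theorem dc {R : Type} [Ring R] [StarRing R] [Algebra ℂ R] [StarModule ℂ R] (A : Amp R) {G : Type} [Group G] (α β : G →* unitary R) :
    ∃ (φ : G →* unitary R) (u : unitary R), ∀ g, φ g * u = u * φ g ↔ α g = β g := by
  have key : ∀ x y x' y' : R, (A.i1 x * A.i2 (A.E 0 0) + A.i1 y * A.i2 (A.E 1 1)) *
      (A.i1 x' * A.i2 (A.E 0 0) + A.i1 y' * A.i2 (A.E 1 1)) =
      A.i1 (x * x') * A.i2 (A.E 0 0) + A.i1 (y * y') * A.i2 (A.E 1 1) := by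
    intro x y x' y'
    rw [mul_add, add_mul, add_mul, dcPr, dcPr, dcPr, dcPr]
    simp [A.Emul]
  have kone : A.i1 1 * A.i2 (A.E 0 0) + A.i1 1 * A.i2 (A.E 1 1) = 1 := by
    rw [map_one, one_mul, one_mul, ← map_add, A.Eone, map_one]
  have kstar : ∀ x y : R, star (A.i1 x * A.i2 (A.E 0 0) + A.i1 y * A.i2 (A.E 1 1)) =
      A.i1 (star x) * A.i2 (A.E 0 0) + A.i1 (star y) * A.i2 (A.E 1 1) := by
    intro x y
    rw [star_add, star_mul, star_mul, ← map_star, ← map_star, ← map_star, ← map_star,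
      A.Estar, A.Estar, A.comm, A.comm]
  have kL : ∀ x y : R, (A.i1 x * A.i2 (A.E 0 0) + A.i1 y * A.i2 (A.E 1 1)) *
      (A.i1 1 * A.i2 (A.E 0 1 + A.E 1 0)) = A.i1 x * A.i2 (A.E 0 1) + A.i1 y * A.i2 (A.E 1 0) := by
    intro x y
    rw [add_mul, dcPr, dcPr, mul_add, mul_add]
    simp [A.Emul]
  have kR : ∀ x y : R, (A.i1 1 * A.i2 (A.E 0 1 + A.E 1 0)) *
      (A.i1 x * A.i2 (A.E 0 0) + A.i1 y * A.i2 (A.E 1 1)) =
      A.i1 x * A.i2 (A.E 1 0) + A.i1 y * A.i2 (A.E 0 1) := by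
    intro x y
    rw [mul_add, dcPr, dcPr, add_mul, add_mul]
    simp [A.Emul]
  have hu : A.i1 1 * A.i2 (A.E 0 1 + A.E 1 0) ∈ unitary R := by
    have hs : star (A.E 0 1 + A.E 1 0) = A.E 0 1 + A.E 1 0 := by
      rw [star_add, A.Estar, A.Estar, add_comm]
    have hm : (A.E 0 1 + A.E 1 0) * (A.E 0 1 + A.E 1 0) = 1 := by
      rw [← A.Eone, mul_add, add_mul, add_mul]
      simp [A.Emul, add_comm]
    rw [Unitary.mem_iff, map_one, one_mul, ← map_star, ← map_mul, ← map_mul, hs, hm]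
    simp
  refine ⟨{ toFun := fun g => ⟨A.i1 (α g : R) * A.i2 (A.E 0 0) + A.i1 (β g : R) * A.i2 (A.E 1 1), ?_⟩,
            map_one' := ?_, map_mul' := ?_ },
    ⟨A.i1 1 * A.i2 (A.E 0 1 + A.E 1 0), hu⟩, ?_⟩
  · rw [Unitary.mem_iff, kstar, key, key]
    have h1 : star (α g : R) * (α g : R) = 1 := Unitary.coe_star_mul_self _
    have h2 : (α g : R) * star (α g : R) = 1 := Unitary.coe_mul_star_self _
    have h3 : star (β g : R) * (β g : R) = 1 := Unitary.coe_star_mul_self _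
    have h4 : (β g : R) * star (β g : R) = 1 := Unitary.coe_mul_star_self _
    rw [h1, h2, h3, h4, kone]
    exact ⟨rfl, rfl⟩
  · ext
    simp only [map_one, OneMemClass.coe_one]
    rw [one_mul, one_mul, ← map_add, A.Eone, map_one]
  · intro g h
    ext
    simp only [map_mul, Submonoid.coe_mul]
    rw [key, map_mul, map_mul]
  · intro g
    constructor
    · intro he
      have h : (A.i1 (α g : R) * A.i2 (A.E 0 0) + A.i1 (β g : R) * A.i2 (A.E 1 1)) *
          (A.i1 1 * A.i2 (A.E 0 1 + A.E 1 0)) = (A.i1 1 * A.i2 (A.E 0 1 + A.E 1 0)) *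
          (A.i1 (α g : R) * A.i2 (A.E 0 0) + A.i1 (β g : R) * A.i2 (A.E 1 1)) :=
        congrArg (fun u : unitary R => (u : R)) he
      rw [kL, kR] at h
      have h2 := congrArg (fun r : R => r * (A.i1 1 * A.i2 (A.E 1 1))) h
      simp only [add_mul, dcPr, A.Emul] at h2
      simp only [Fin.isValue, zero_ne_one, if_false, if_true, map_zero, mul_zero, zero_add,
        add_zero, mul_one] at h2
      have h3 : A.i1 ((α g : R) - (β g : R)) * A.i2 (A.E 0 1) = 0 := by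
        rw [map_sub, sub_mul, h2, sub_self]
      by_contra hne
      apply A.ne ((α g : R) - (β g : R)) (A.E 0 1) _ (A.Ene 0 1) h3
      intro h4
      apply hne
      ext
      exact sub_eq_zero.mp h4
    · intro he
      ext
      change (A.i1 (α g : R) * A.i2 (A.E 0 0) + A.i1 (β g : R) * A.i2 (A.E 1 1)) *
          (A.i1 1 * A.i2 (A.E 0 1 + A.E 1 0)) = (A.i1 1 * A.i2 (A.E 0 1 + A.E 1 0)) *
          (A.i1 (α g : R) * A.i2 (A.E 0 0) + A.i1 (β g : R) * A.i2 (A.E 1 1))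
      rw [kL, kR, he, add_comm]

end Pool.Agent.Lib.MP_1d6fae_al
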