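import Mathlib

/-!
# MP_1d6fae_al: definitions

`UR` is the unitary group of the hyperfinite `II_1` factor `R`, realised as the algebra of all bounded operators on `l^2(V)` which commute with
the right twisted translations `rho v`; `V` is the group of finitely supported sequences in `(Z/2)^2`. (The left twisted translations generate the
infinite tensor product of the algebras of 2x2 matrices with respect to the trace, and the commutant of the `rho v` is the von Neumann algebra
generated by them.)
-/

set_option autoImplicit false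

namespace Pool.Agent.Lib.MP_1d6fae_al

/-- the index group -/
abbrev V : Type := ℕ →₀ (ZMod 2 × ZMod 2)

/-- the Hilbert space `l^2(α)` -/
abbrev L2 (α : Type) : Type := lp (fun _ : α => ℂ) 2

/-- the sign -/
noncomputable def chi (a : ZMod 2) : ℂ := if a = 0 then 1 else -1

/-- the bilinear form -/
noncomputable def bl (v w : V) : ZMod 2 := v.sum fun i a => a.1 * (w i).2

/-- the cocycle -/
noncomputable def sg (v w : V) : ℂ := chi (bl v w)

theorem norm_chi (a : ZMod 2) : ‖chi a‖ = 1 := by
  unfold chi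
  split_ifs <;> simp

theorem sp_mem {α : Type} (e : α ≃ α) (s : α → ℂ) (hs : ∀ x, ‖s x‖ = 1) (ξ : L2 α) :
    Memℓp (fun x => s x * ξ (e x)) 2 := by
  have h := lp.memℓp ξ
  rw [memℓp_gen_iff (by norm_num)] at h ⊢
  have h2 := (Equiv.summable_iff e).2 h
  refine h2.congr fun x => ?_
  simp [hs]

/-- the function `x ↦ s x * ξ (e x)` -/
noncomputable def spF {α : Type} (e : α ≃ α) (s : α → ℂ) (hs : ∀ x, ‖s x‖ = 1) (ξ : L2 α) : L2 α :=
  ⟨fun x => s x * ξ (e x), sp_mem e s hs ξ⟩

theorem spF_apply {α : Type} (e : α ≃ α) (s : α → ℂ) (hs : ∀ x, ‖s x‖ = 1) (ξ : L2 α) (x : α) :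
    spF e s hs ξ x = s x * ξ (e x) := rfl

theorem spF_norm {α : Type} (e : α ≃ α) (s : α → ℂ) (hs : ∀ x, ‖s x‖ = 1) (ξ : L2 α) : ‖spF e s hs ξ‖ = ‖ξ‖ := by
  have h1 := lp.norm_rpow_eq_tsum (p := 2) (by norm_num) (spF e s hs ξ)
  have h2 := lp.norm_rpow_eq_tsum (p := 2) (by norm_num) ξ
  have h3 : (∑' x, ‖spF e s hs ξ x‖ ^ (2 : ENNReal).toReal) = ∑' x, ‖ξ x‖ ^ (2 : ENNReal).toReal := by
    rw [← Equiv.tsum_eq e (fun x => ‖ξ x‖ ^ (2 : ENNReal).toReal)]
    refine tsum_congr fun x => ?_
    rw [spF_apply]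
    simp [hs]
  rw [h3, ← h2] at h1
  have h5 : (2 : ENNReal).toReal = 2 := by norm_num
  rw [h5] at h1
  exact (Real.rpow_left_inj (norm_nonneg _) (norm_nonneg _) (by norm_num : (2 : ℝ) ≠ 0)).1 h1

/-- signed permutation operator on `l^2(α)`: `(sp e s ξ) x = s x * ξ (e x)` -/
noncomputable def sp {α : Type} (e : α ≃ α) (s : α → ℂ) (hs : ∀ x, ‖s x‖ = 1) : L2 α →L[ℂ] L2 α :=
  LinearMap.mkContinuous
    { toFun := spF e s hs
      map_add' := fun ξ η => by
        ext x
        simp [spF_apply, mul_add]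
      map_smul' := fun c ξ => by
        ext x
        simp [spF_apply]
        ring } 1 (fun ξ => by
        rw [one_mul]
        exact le_of_eq (spF_norm e s hs ξ))

/-- the right twisted translation: `(rho v ξ) x = sg (x + v) v * ξ (x + v)` -/
noncomputable def rho (v : V) : L2 V →L[ℂ] L2 V := sp (Equiv.addRight v) (fun x => sg (x + v) v) fun _ => norm_chi _

/-- the algebra `R`: the commutant of the right twisted translations -/
noncomputable def Rf : StarSubalgebra ℂ (L2 V →L[ℂ] L2 V) := StarSubalgebra.centralizer ℂ (Set.range rho)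

/-- the unitary group of `R` -/
abbrev UR : Type := unitary Rf

/-- `G` embeds in the unitary group of `R` -/
def Emb (G : Type) [Group G] : Prop := ∃ φ : G →* UR, Function.Injective φ

/-- the subgroup `C` of `G` is closed with respect to the homomorphisms into `UR` -/
def Closed {G : Type} [Group G] (C : Subgroup G) : Prop :=
  ∀ g : G, g ∉ C → ∃ (φ : G →* UR) (u : UR), (∀ c ∈ C, φ c * u = u * φ c) ∧ φ g * u ≠ u * φ g

end Pool.Agent.Lib.MP_1d6fae_al
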