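import Pool.Agent.Lib.MP_1d6fae_al.MN

/-!
# Row FI: induction from a subgroup of finite index

PROOF IN WORDS. Let `s : G ⧸ N → G` be a section (`Quotient.out`) changed so that `s (1 N) = 1`. The induced representation: `ind g` is the matrix over `G ⧸ N` with the entry `ρ (s(x)⁻¹ * g * s(y))` at `(x, y)` if `g • y = x` (then `s(x)⁻¹ g s(y) ∈ N`) and `0` otherwise. `ind (g h) = ind g * ind h`, `ind 1 = 1`,
`star (ind g) = ind (g⁻¹)`: a homomorphism into `unitary (Matrix (G ⧸ N) (G ⧸ N) R)`. Reindex (`Finite.equivFin`, `Matrix.reindex`) and apply `mn`. If `g ∉ N` the entry `(1 N, 1 N)` of `ind g` is `0`, not `1` (`R` is not trivial by `A.Ene`); if `g ∈ N` it is `ρ g`. So `ind g ≠ 1` in both cases.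
-/

set_option autoImplicit false

namespace Pool.Agent.Lib.MP_1d6fae_al

/-- representatives of the cosets -/
private theorem fi_reps {G : Type} [Group G] (N : Subgroup G) [N.FiniteIndex] :
    ∃ (n : ℕ) (t : Fin n → G) (i0 : Fin n), t i0 = 1 ∧ (∀ a : G, ∃ i, (t i)⁻¹ * a ∈ N) ∧
      ∀ i j, (t i)⁻¹ * t j ∈ N → i = j := by
  classical
  have hf : Finite (G ⧸ N) := inferInstance
  let e : (G ⧸ N) ≃ Fin (Nat.card (G ⧸ N)) := Finite.equivFin (G ⧸ N)
  let s : G ⧸ N → G := fun x => if x = ((1 : G) : G ⧸ N) then 1 else x.out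
  have hs : ∀ x : G ⧸ N, ((s x : G) : G ⧸ N) = x := by
    intro x
    by_cases h : x = ((1 : G) : G ⧸ N)
    · show (((if x = ((1 : G) : G ⧸ N) then 1 else x.out : G)) : G ⧸ N) = x
      rw [if_pos h, h]
    · show (((if x = ((1 : G) : G ⧸ N) then 1 else x.out : G)) : G ⧸ N) = x
      rw [if_neg h]
      exact QuotientGroup.out_eq' x
  refine ⟨Nat.card (G ⧸ N), fun i => s (e.symm i), e ((1 : G) : G ⧸ N), ?_, fun a => ⟨e (a : G ⧸ N), ?_⟩, fun i j h => ?_⟩
  · show s (e.symm (e ((1 : G) : G ⧸ N))) = 1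
    rw [Equiv.symm_apply_apply]
    exact if_pos rfl
  · rw [← QuotientGroup.eq, hs, Equiv.symm_apply_apply]
  · rw [← QuotientGroup.eq, hs, hs] at h
    exact e.symm.injective h

theorem fi {R : Type} [Ring R] [StarRing R] [Algebra ℂ R] [StarModule ℂ R] (A : Amp R) {G : Type} [Group G] (N : Subgroup G) [N.FiniteIndex] (ρ : N →* unitary R) :
    ∃ Φ : G →* unitary R, ∀ g : G, (∀ h : g ∈ N, ρ ⟨g, h⟩ ≠ 1) → Φ g ≠ 1 := by
  classical
  obtain ⟨n, t, i0, ht0, ht1, ht2⟩ := fi_reps N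
  let r : G → R := fun a => if h : a ∈ N then ((ρ ⟨a, h⟩ : unitary R) : R) else 0
  have hin : ∀ (a : G) (h : a ∈ N), r a = ((ρ ⟨a, h⟩ : unitary R) : R) := fun a h => dif_pos h
  have hout : ∀ a : G, a ∉ N → r a = 0 := fun a h => dif_neg h
  have hone : r 1 = 1 := by
    rw [hin 1 N.one_mem]
    have h1 : (⟨1, N.one_mem⟩ : N) = 1 := rfl
    rw [h1, map_one]
    rfl
  have hmul : ∀ a : G, ∀ b ∈ N, r (a * b) = r a * r b := by
    intro a b hb
    by_cases ha : a ∈ N
    · rw [hin _ (N.mul_mem ha hb), hin a ha, hin b hb]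
      have h1 : (⟨a * b, N.mul_mem ha hb⟩ : N) = ⟨a, ha⟩ * ⟨b, hb⟩ := rfl
      rw [h1, map_mul]
      rfl
    · have h1 : a * b ∉ N := fun h => ha ((N.mul_mem_cancel_right hb).1 h)
      rw [hout _ h1, hout _ ha, zero_mul]
  have hstar : ∀ a : G, star (r a) = r a⁻¹ := by
    intro a
    by_cases ha : a ∈ N
    · rw [hin _ (N.inv_mem ha), hin a ha]
      have h1 : (⟨a⁻¹, N.inv_mem ha⟩ : N) = (⟨a, ha⟩ : N)⁻¹ := rfl
      rw [h1, map_inv]
      rfl
    · have h1 : a⁻¹ ∉ N := fun h => ha (by simpa using N.inv_mem h)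
      rw [hout _ h1, hout _ ha, star_zero]
  let M : G → Matrix (Fin n) (Fin n) R := fun g => Matrix.of fun i j => r ((t i)⁻¹ * g * t j)
  have hM : ∀ g i j, M g i j = r ((t i)⁻¹ * g * t j) := fun g i j => rfl
  have hM1 : M 1 = 1 := by
    ext i j
    rw [hM, mul_one, Matrix.one_apply]
    split_ifs with h
    · rw [h, inv_mul_cancel, hone]
    · exact hout _ fun h' => h (ht2 i j h')
  have hMm : ∀ g h, M (g * h) = M g * M h := by
    intro g h
    ext i k
    rw [Matrix.mul_apply, hM]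
    obtain ⟨j0, hj0⟩ := ht1 (h * t k)
    rw [Finset.sum_eq_single j0]
    · rw [hM, hM, ← hmul _ _ (by rw [mul_assoc]; exact hj0)]
      congr 1
      group
    · intro j _ hj
      have h1 : (t j)⁻¹ * h * t k ∉ N := by
        intro h2
        apply hj
        apply ht2
        have h3 := N.mul_mem h2 (N.inv_mem hj0)
        have h4 : (t j)⁻¹ * h * t k * ((t j0)⁻¹ * (h * t k))⁻¹ = (t j)⁻¹ * t j0 := by group
        rwa [h4] at h3
      rw [hM (g := h), hout _ h1, mul_zero]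
    · intro h1
      exact absurd (Finset.mem_univ _) h1
  have hMs : ∀ g, star (M g) = M g⁻¹ := by
    intro g
    ext i j
    rw [Matrix.star_apply, hM, hM, hstar]
    congr 1
    group
  have hMu : ∀ g, M g ∈ unitary (Matrix (Fin n) (Fin n) R) := by
    intro g
    rw [Unitary.mem_iff, hMs, ← hMm, ← hMm, inv_mul_cancel, mul_inv_cancel, hM1]
    exact ⟨rfl, rfl⟩
  let Φ0 : G →* unitary (Matrix (Fin n) (Fin n) R) :=
    { toFun := fun g => ⟨M g, hMu g⟩
      map_one' := Subtype.ext hM1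
      map_mul' := fun g h => Subtype.ext (hMm g h) }
  obtain ⟨Ψ, hΨ⟩ := mn A n
  refine ⟨Ψ.comp Φ0, fun g hg h1 => ?_⟩
  have h2 : Ψ (Φ0 g) = Ψ 1 := by
    rw [map_one]
    exact h1
  have h3 : M g = 1 := congrArg Subtype.val (hΨ h2)
  have h4 : r g = 1 := by
    have h5 := congrFun (congrFun h3 i0) i0
    rw [hM, ht0, inv_one, one_mul, mul_one, Matrix.one_apply_eq] at h5
    exact h5
  by_cases h : g ∈ N
  · rw [hin g h] at h4
    exact hg h (Subtype.ext h4)
  · rw [hout g h] at h4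
    apply A.Ene 0 0
    rw [← mul_one (A.E 0 0), ← h4, mul_zero]

end Pool.Agent.Lib.MP_1d6fae_al
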