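import Pool.Agent.Lib.MP_1d6fae_al.ADefs

/-!
# Row ZZ: an infinite cyclic group none of whose elements commutes with a certain unitary; and the trick for non-scalar elements

PROOF IN WORDS. `zz`: `D p = E 0 0 + ζ^p E 1 1` with `ζ = exp(i)`, `a = E 0 1 + E 1 0`. `D p * a = E 0 1 + ζ^p E 1 0`, `a * D p = E 1 0 + ζ^p E 0 1`; equality gives `(1 - ζ^p) E 0 1 = 0` (multiply by `E 0 0` from the left), so `ζ^p = 1`, `exp(i p) = 1`,
`p = 2 π k`, so `p = 0` as `π` is irrational (`Complex.exp_eq_one_iff`, `irrational_pi`). `z2`: `ψ' g = i1 (ψ g) * i2 (E 0 0) + i2 (E 1 1)`, `a = i2 (E 0 1 + E 1 0)`; `ψ' g * a = a * ψ' g` gives `i1 (ψ g - 1) * i2 (E 0 1) = 0`, so `ψ g = 1` by `A.ne`.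
-/

set_option autoImplicit false

namespace Pool.Agent.Lib.MP_1d6fae_al

/-- the flip -/
private theorem flip_mul {R : Type} [Ring R] [StarRing R] [Algebra ℂ R] (A : Amp R) :
    (A.E 0 1 + A.E 1 0) * (A.E 0 1 + A.E 1 0) = 1 := by
  rw [← A.Eone]
  simp [mul_add, add_mul, A.Emul]
  abel

private theorem flip_star {R : Type} [Ring R] [StarRing R] [Algebra ℂ R] (A : Amp R) :
    star (A.E 0 1 + A.E 1 0) = A.E 0 1 + A.E 1 0 := by
  simp [A.Estar]
  abel

private theorem dmul {R : Type} [Ring R] [StarRing R] [Algebra ℂ R] (A : Amp R) (z w : ℂ) :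
    (A.E 0 0 + z • A.E 1 1) * (A.E 0 0 + w • A.E 1 1) = A.E 0 0 + (z * w) • A.E 1 1 := by
  rw [mul_add, add_mul, add_mul, smul_mul_assoc, smul_mul_assoc, mul_smul_comm, mul_smul_comm]
  simp only [A.Emul]
  simp [smul_smul]

private theorem dstar {R : Type} [Ring R] [StarRing R] [Algebra ℂ R] [StarModule ℂ R]
    (A : Amp R) (z : ℂ) (hz : star z * z = 1) :
    A.E 0 0 + z • A.E 1 1 ∈ unitary R := by
  have hs : star (A.E 0 0 + z • A.E 1 1) = A.E 0 0 + (star z) • A.E 1 1 := by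
    rw [star_add, star_smul, A.Estar, A.Estar]
  have hz2 : z * star z = 1 := by rw [mul_comm]; exact hz
  rw [Unitary.mem_iff, hs, dmul, dmul, hz, hz2]
  simp [A.Eone]

private noncomputable def cir {R : Type} [Ring R] [StarRing R] [Algebra ℂ R] [StarModule ℂ R]
    (A : Amp R) : Circle →* unitary R where
  toFun c := ⟨A.E 0 0 + (c : ℂ) • A.E 1 1, dstar A _ (by
    have := Circle.normSq_coe c
    rw [Complex.star_def, ← Complex.normSq_eq_conj_mul_self, this]; simp)⟩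
  map_one' := by
    ext
    simp [A.Eone]
  map_mul' x y := by
    have h := dmul A (x : ℂ) (y : ℂ)
    rw [← Circle.coe_mul] at h
    ext
    exact h.symm

theorem zz {R : Type} [Ring R] [StarRing R] [Algebra ℂ R] [StarModule ℂ R] (A : Amp R) : ∃ (D : Multiplicative ℤ →* unitary R) (a : unitary R), ∀ p : Multiplicative ℤ, p ≠ 1 →
    D p * a ≠ a * D p := by
  refine ⟨(cir A).comp (zpowersHom Circle (Circle.exp 1)),
    ⟨A.E 0 1 + A.E 1 0, by rw [Unitary.mem_iff, flip_star, flip_mul]; simp⟩, ?_⟩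
  intro p hp he
  have h := congrArg (fun u : unitary R => A.E 0 0 * (u : R)) he
  set z : Circle := zpowersHom Circle (Circle.exp 1) p with hz
  have h2 : A.E 0 0 * ((A.E 0 0 + (z : ℂ) • A.E 1 1) * (A.E 0 1 + A.E 1 0)) =
      A.E 0 0 * ((A.E 0 1 + A.E 1 0) * (A.E 0 0 + (z : ℂ) • A.E 1 1)) := h
  simp only [mul_add, add_mul, smul_mul_assoc, mul_smul_comm, A.Emul] at h2
  simp [A.Emul] at h2
  have h3 : ((1 : ℂ) - (z : ℂ)) • A.E 0 1 = 0 := by
    rw [sub_smul, one_smul, ← h2, sub_self]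
  rcases smul_eq_zero.mp h3 with h4 | h4
  · have h5 : z = 1 := by
      ext
      rw [Circle.coe_one]
      exact (sub_eq_zero.mp h4).symm
    rw [hz, zpowersHom_apply, ← Circle.exp_zsmul] at h5
    apply hp
    have h6 : Circle.exp ((Multiplicative.toAdd p : ℤ) : ℝ) = 1 := by
      simpa using h5
    rw [Circle.exp_eq_one] at h6
    obtain ⟨n, hn⟩ := h6
    by_contra hc
    have hp0 : (Multiplicative.toAdd p : ℤ) ≠ 0 := fun h => hc (by
      rw [← toAdd_eq_zero]; exact h)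
    have hn0 : n ≠ 0 := by
      rintro rfl
      simp at hn
      exact hp0 (by exact_mod_cast hn)
    apply irrational_pi
    refine ⟨(Multiplicative.toAdd p : ℤ) / (2 * n), ?_⟩
    push_cast
    rw [hn]
    field_simp
  · exact A.Ene 0 1 h4

theorem z2 {R : Type} [Ring R] [StarRing R] [Algebra ℂ R] [StarModule ℂ R] (A : Amp R) {G : Type} [Group G] (ψ : G →* unitary R) :
    ∃ (φ : G →* unitary R) (a : unitary R), ∀ g, ψ g ≠ 1 → φ g * a ≠ a * φ g := by
  have key : ∀ x y : R, (A.i1 x * A.i2 (A.E 0 0) + A.i2 (A.E 1 1)) *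
      (A.i1 y * A.i2 (A.E 0 0) + A.i2 (A.E 1 1)) =
      A.i1 (x * y) * A.i2 (A.E 0 0) + A.i2 (A.E 1 1) := by
    intro x y
    have e1 : A.i1 x * A.i2 (A.E 0 0) * (A.i1 y * A.i2 (A.E 0 0)) =
        A.i1 (x * y) * A.i2 (A.E 0 0) := by
      calc A.i1 x * A.i2 (A.E 0 0) * (A.i1 y * A.i2 (A.E 0 0))
          = A.i1 x * (A.i2 (A.E 0 0) * A.i1 y) * A.i2 (A.E 0 0) := by simp only [mul_assoc]
        _ = A.i1 x * (A.i1 y * A.i2 (A.E 0 0)) * A.i2 (A.E 0 0) := by rw [A.comm]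
        _ = (A.i1 x * A.i1 y) * (A.i2 (A.E 0 0) * A.i2 (A.E 0 0)) := by simp only [mul_assoc]
        _ = A.i1 (x * y) * A.i2 (A.E 0 0) := by rw [← map_mul, ← map_mul, A.Emul]; simp
    have e2 : A.i1 x * A.i2 (A.E 0 0) * A.i2 (A.E 1 1) = 0 := by
      rw [mul_assoc, ← map_mul, A.Emul]; simp
    have e3 : A.i2 (A.E 1 1) * (A.i1 y * A.i2 (A.E 0 0)) = 0 := by
      rw [← mul_assoc, ← A.comm, mul_assoc, ← map_mul, A.Emul]; simp
    have e4 : A.i2 (A.E 1 1) * A.i2 (A.E 1 1) = A.i2 (A.E 1 1) := by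
      rw [← map_mul, A.Emul]; simp
    rw [mul_add, add_mul, add_mul, e1, e2, e3, e4]
    simp
  have kone : A.i1 1 * A.i2 (A.E 0 0) + A.i2 (A.E 1 1) = 1 := by
    rw [map_one, one_mul, ← map_add, A.Eone, map_one]
  have kstar : ∀ x : R, star (A.i1 x * A.i2 (A.E 0 0) + A.i2 (A.E 1 1)) =
      A.i1 (star x) * A.i2 (A.E 0 0) + A.i2 (A.E 1 1) := by
    intro x
    rw [star_add, star_mul, ← map_star, ← map_star, ← map_star, A.Estar, A.Estar, A.comm]
  refine ⟨{ toFun := fun g => ⟨A.i1 (ψ g : R) * A.i2 (A.E 0 0) + A.i2 (A.E 1 1), ?_⟩,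
            map_one' := ?_, map_mul' := ?_ },
    ⟨A.i2 (A.E 0 1 + A.E 1 0), ?_⟩, ?_⟩
  · rw [Unitary.mem_iff, kstar, key, key]
    have h1 : star (ψ g : R) * (ψ g : R) = 1 := Unitary.coe_star_mul_self _
    have h2 : (ψ g : R) * star (ψ g : R) = 1 := Unitary.coe_mul_star_self _
    rw [h1, h2, kone]
    exact ⟨rfl, rfl⟩
  · ext
    simp only [map_one, OneMemClass.coe_one]
    rw [one_mul, ← map_add, A.Eone, map_one]
  · intro g h
    ext
    simp only [map_mul, Submonoid.coe_mul]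
    rw [key, map_mul]
  · rw [Unitary.mem_iff, ← map_star, ← map_mul, ← map_mul, flip_star, flip_mul]
    simp
  · intro g hg he
    have h := congrArg (fun u : unitary R => (u : R) * A.i2 (A.E 1 1)) he
    have h2 : (A.i1 (ψ g : R) * A.i2 (A.E 0 0) + A.i2 (A.E 1 1)) * A.i2 (A.E 0 1 + A.E 1 0)
          * A.i2 (A.E 1 1) =
        A.i2 (A.E 0 1 + A.E 1 0) * (A.i1 (ψ g : R) * A.i2 (A.E 0 0) + A.i2 (A.E 1 1))
          * A.i2 (A.E 1 1) := h
    have l : (A.i1 (ψ g : R) * A.i2 (A.E 0 0) + A.i2 (A.E 1 1)) * A.i2 (A.E 0 1 + A.E 1 0)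
          * A.i2 (A.E 1 1) = A.i1 (ψ g : R) * A.i2 (A.E 0 1) := by
      rw [add_mul, add_mul, mul_assoc, mul_assoc, mul_assoc, ← map_mul, ← map_mul, ← map_mul]
      simp [add_mul, mul_add, A.Emul]
    have r : A.i2 (A.E 0 1 + A.E 1 0) * (A.i1 (ψ g : R) * A.i2 (A.E 0 0) + A.i2 (A.E 1 1))
          * A.i2 (A.E 1 1) = A.i2 (A.E 0 1) := by
      rw [mul_assoc, add_mul, mul_assoc, ← map_mul, ← map_mul, A.Emul, A.Emul]
      simp only [Fin.isValue, zero_ne_one, if_false, if_true, map_zero, mul_zero, zero_add]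
      rw [← map_mul]
      simp [add_mul, A.Emul]
    rw [l, r] at h2
    have h3 : A.i1 ((ψ g : R) - 1) * A.i2 (A.E 0 1) = 0 := by
      rw [map_sub, map_one, sub_mul, one_mul, h2, sub_self]
    apply A.ne ((ψ g : R) - 1) (A.E 0 1) _ (A.Ene 0 1) h3
    intro h4
    apply hg
    ext
    rw [OneMemClass.coe_one]
    exact sub_eq_zero.mp h4

end Pool.Agent.Lib.MP_1d6fae_al
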