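import Pool.Agent.Lib.MP_1d6fae_al.KK
import Pool.Agent.Lib.MP_1d6fae_al.ZZ

/-!
# Row FP: free products are separated by homomorphisms

Let `w ≠ 1`; its reduced word is a nonempty list `(i_1, x_1), ..., (i_n, x_n)`, `x_j ≠ 1`, `i_j ≠ i_(j+1)`. `c : ι → ℕ`
injective. `kk` is applied to the group `(∀ i, G i) × Multiplicative ℤ`, the empty set `C` and the list
`z^(c i_1 + 1)`, `x_1`, `z^(c i_2 - c i_1)`, `x_2`, ..., `x_n`, `z^(- c i_n - 1)`, `1`. It gives `φ`, `u`; `Ψ` is
`x ↦ u * φ z^(c i + 1) * u * φ x * u * φ z^(- c i - 1) * u` on `G i`.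
-/

set_option autoImplicit false

namespace Pool.Agent.Lib.MP_1d6fae_al

/-- the interleaved list -/
private def sq {H S : Type} [One H] (z : ℤ → H) (e : S → H) (q : S → ℤ) : ℤ → List S → List H
  | p, [] => [z (-p), 1]
  | p, s :: L => z (q s - p) :: e s :: sq z e q (q s) L

private theorem sq_prod {H S U : Type} [Monoid H] [Group U] (φ : H →* U) (u : U) (hu : u * u = 1) (z : ℤ → H)
    (hz : ∀ a b, z (a + b) = z a * z b) (hz0 : z 0 = 1) (e : S → H) (q : S → ℤ) (L : List S) : ∀ p : ℤ,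
    ((sq z e q p L).map fun h => u * φ h).prod =
      u * φ (z (-p)) * u * (L.map fun s => (u * φ (z (q s)) * u) * φ (e s) * (u * φ (z (q s)) * u)⁻¹).prod := by
  have hui : u⁻¹ = u := inv_eq_of_mul_eq_one_left hu
  have hzi : ∀ a, (φ (z a))⁻¹ = φ (z (-a)) := by
    intro a
    refine inv_eq_of_mul_eq_one_left ?_
    rw [← map_mul, ← hz, neg_add_cancel, hz0, map_one]
  induction L with
  | nil =>
    intro p
    simp [sq, mul_assoc]
  | cons s L ih =>
    intro p
    show ((z (q s - p) :: e s :: sq z e q (q s) L).map fun h => u * φ h).prod = _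
    rw [List.map_cons, List.map_cons, List.prod_cons, List.prod_cons, ih, List.map_cons, List.prod_cons]
    have h1 : φ (z (q s - p)) = φ (z (-p)) * φ (z (q s)) := by
      rw [← map_mul, ← hz, neg_add_eq_sub]
    rw [h1, mul_inv_rev, mul_inv_rev, hui, hzi]
    have h2 : ∀ x : U, u * (u * x) = x := by
      intro x
      rw [← mul_assoc, hu, one_mul]
    simp only [mul_assoc, h2]

private theorem pw_list {H U : Type} [Monoid H] [Group U] (φ : H →* U) (u : U) (L : List H) :
    pw L.length (fun _ => u) (fun i => φ (L.getD i 1)) = (L.map fun h => u * φ h).prod := by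
  induction L with
  | nil => rfl
  | cons h L ih =>
    rw [List.map_cons, List.prod_cons, ← ih]
    rfl

private theorem sq_good {H S : Type} [Monoid H] (P : H → Prop) (z : ℤ → H) (hz : ∀ k : ℤ, k ≠ 0 → P (z k))
    (e : S → H) (q : S → ℤ) (hq : ∀ s, q s ≠ 0) (r : S → Prop) (hr : ∀ s, r s → P (e s)) (L : List S) :
    ∀ p : ℤ, (∀ s ∈ L, r s) → L.IsChain (fun s s' => q s ≠ q s') → (∀ s ∈ L.head?, q s ≠ p) →
      (L = [] → p ≠ 0) → ∀ j, j + 1 < (sq z e q p L).length → P ((sq z e q p L).getD j 1) := by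
  induction L with
  | nil =>
    intro p _ _ _ h0 j hj
    have hj' : j = 0 := by
      have : (sq z e q p []).length = 2 := rfl
      omega
    subst hj'
    exact hz _ (neg_ne_zero.2 (h0 rfl))
  | cons s L ih =>
    intro p h1 h2 h3 _ j hj
    have hlen : (sq z e q p (s :: L)).length = (sq z e q (q s) L).length + 2 := rfl
    rcases j with _ | _ | j
    · refine hz _ (sub_ne_zero.2 (h3 s ?_))
      simp
    · exact hr s (h1 s (by simp))
    · show P ((sq z e q (q s) L).getD j 1)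
      refine ih (q s) (fun s' hs' => h1 s' (List.mem_cons_of_mem _ hs')) ?_ ?_ (fun _ => hq s) j (by omega)
      · exact h2.tail
      · intro s' hs'
        rcases L with _ | ⟨s'', L⟩
        · simp at hs'
        · have h4 : s'' = s' := by simpa using hs'
          subst h4
          rw [List.isChain_cons_cons] at h2
          exact h2.1.symm

theorem fp {R : Type} [Ring R] [StarRing R] [Algebra ℂ R] [StarModule ℂ R] (A : Amp R) {ι : Type} [Countable ι] {G : ι → Type} [∀ i, Group (G i)]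
    (h1 : ∀ i, ∀ g : G i, g ≠ 1 → ∃ φ : G i →* unitary R, φ g ≠ 1) (w : Monoid.CoprodI G) (hw : w ≠ 1) :
    ∃ Ψ : Monoid.CoprodI G →* unitary R, Ψ w ≠ 1 := by
  classical
  obtain ⟨c, hc⟩ := exists_injective_nat ι
  obtain ⟨W, hW⟩ : ∃ W : Monoid.CoprodI.Word G, W.prod = w := ⟨Monoid.CoprodI.Word.equiv w, Monoid.CoprodI.Word.equiv.symm_apply_apply w⟩
  have hne : W.toList ≠ [] := by
    intro h
    refine hw ?_
    rw [← hW]
    show List.prod (W.toList.map fun l => Monoid.CoprodI.of l.snd) = 1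
    rw [h]
    rfl
  -- the data
  let z : ℤ → (∀ i, G i) × Multiplicative ℤ := fun k => (1, Multiplicative.ofAdd k)
  let e : (Σ i, G i) → (∀ i, G i) × Multiplicative ℤ := fun s => (Pi.mulSingle s.1 s.2, 1)
  let q : (Σ i, G i) → ℤ := fun s => (c s.1 : ℤ) + 1
  let P : (∀ i, G i) × Multiplicative ℤ → Prop := fun h =>
    ∃ (φ : (∀ i, G i) × Multiplicative ℤ →* unitary R) (a : unitary R), φ h * a ≠ a * φ h
  have hzz : ∀ k : ℤ, k ≠ 0 → P (z k) := by
    intro k hk
    obtain ⟨D, a, hD⟩ := zz A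
    refine ⟨D.comp (MonoidHom.snd _ _), a, ?_⟩
    refine hD (Multiplicative.ofAdd k) ?_
    intro h
    exact hk (ofAdd_eq_one.1 h)
  have hee : ∀ s : (Σ i, G i), s.2 ≠ 1 → P (e s) := by
    rintro ⟨i, x⟩ hx
    obtain ⟨ψ, hψ⟩ := h1 i x hx
    obtain ⟨φ, a, hφ⟩ := z2 A ψ
    refine ⟨(φ.comp (Pi.evalMonoidHom G i)).comp (MonoidHom.fst _ _), a, ?_⟩
    have h2 := hφ x hψ
    have h3 : (Pi.mulSingle i x : ∀ i, G i) i = x := Pi.mulSingle_eq_same i x
    show φ ((Pi.mulSingle i x : ∀ i, G i) i) * a ≠ a * φ ((Pi.mulSingle i x : ∀ i, G i) i)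
    rw [h3]
    exact h2
  have hgood := sq_good P z hzz e q (fun s => by
      show (c s.1 : ℤ) + 1 ≠ 0
      omega) (fun s => s.2 ≠ 1) hee W.toList 0 W.ne_one (W.chain_ne.imp fun s s' h => by
      show (c s.1 : ℤ) + 1 ≠ (c s'.1 : ℤ) + 1
      intro h'
      exact h (hc (by omega))) (fun s _ => by
      show (c s.1 : ℤ) + 1 ≠ 0
      omega) (fun h => absurd h hne)
  have hlen : 1 ≤ (sq z e q 0 W.toList).length := by
    rcases W.toList with _ | ⟨s, L⟩
    · show 1 ≤ 2
      omega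
    · show 1 ≤ (sq z e q (q s) L).length + 2
      omega
  obtain ⟨φ, u, hu, -, hφ⟩ := kk A (∅ : Set ((∀ i, G i) × Multiplicative ℤ)) (sq z e q 0 W.toList).length hlen
    (fun j => (sq z e q 0 W.toList).getD j 1) (by
      intro j hj
      obtain ⟨φ, a, h⟩ := hgood j hj
      exact ⟨φ, a, by simp, h⟩)
  have h2 := hφ 1
  rw [map_one, one_mul, pw_list, sq_prod φ u hu z (fun a b => by
      show ((1 : ∀ i, G i), Multiplicative.ofAdd (a + b)) = (1 * 1, Multiplicative.ofAdd a * Multiplicative.ofAdd b)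
      rw [ofAdd_add, one_mul]) rfl] at h2
  have h3 : φ (z (-0)) = 1 := by
    have : z (-0) = 1 := by
      show ((1 : ∀ i, G i), Multiplicative.ofAdd (-0 : ℤ)) = 1
      rw [neg_zero]
      rfl
    rw [this, map_one]
  rw [h3, mul_one, hu, one_mul] at h2
  refine ⟨Monoid.CoprodI.lift fun i => ((MulAut.conj (u * φ (1, Multiplicative.ofAdd ((c i : ℤ) + 1)) * u)).toMonoidHom.comp φ).comp
    ((MonoidHom.inl _ _).comp (MonoidHom.mulSingle G i)), ?_⟩
  intro h4
  refine h2 ?_
  rw [← hW] at h4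
  unfold Monoid.CoprodI.Word.prod at h4
  rw [map_list_prod, List.map_map] at h4
  rw [← h4]
  refine congrArg List.prod (List.map_congr_left fun s _ => ?_)
  rw [Function.comp_apply, Monoid.CoprodI.lift_of]
  rfl

end Pool.Agent.Lib.MP_1d6fae_al
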