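import Pool.Agent.Lib.MP_1d6fae_al.ADefs

/-!
# Row HC: the converse for the extension, and hereditary facts (group theory)

PROOF IN WORDS. `φ = Φ ∘ of`, `u = Φ t`. For `c ∈ C`: `t * of c = of c * t` (`HNNExtension.t_mul_of`). For `g ∉ C`: `of g * t ≠ t * of g`: else `t * of g * t⁻¹ * of g⁻¹ = 1` would be the product of the reduced word `head = 1`, list `[(1, g), (-1, g⁻¹)]` (its chain condition holds as `g ∉ C`),
and `HNNExtension.ReducedWord.toList_eq_nil_of_mem_of_range` would give an empty list. `Φ` is injective.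
-/

set_option autoImplicit false

namespace Pool.Agent.Lib.MP_1d6fae_al

theorem hc {U : Type} [Group U] {G : Type} [Group G] (C : Subgroup G) (Φ : HNNExtension G C C (MulEquiv.refl C) →* U) (hΦ : Function.Injective Φ) :
    ∀ g : G, g ∉ C → (∀ c ∈ C, Φ (HNNExtension.of c) * Φ HNNExtension.t = Φ HNNExtension.t * Φ (HNNExtension.of c)) ∧
      Φ (HNNExtension.of g) * Φ HNNExtension.t ≠ Φ HNNExtension.t * Φ (HNNExtension.of g) := by
  intro g hg
  refine ⟨fun c hc => ?_, fun h => ?_⟩
  · rw [← map_mul, ← map_mul]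
    congr 1
    exact (HNNExtension.t_mul_of (φ := MulEquiv.refl C) ⟨c, hc⟩).symm
  · rw [← map_mul, ← map_mul] at h
    have h1 := hΦ h
    let w : HNNExtension.NormalWord.ReducedWord G C C :=
      { head := 1
        toList := [(1, g), (-1, 1)]
        chain := by
          refine List.isChain_cons_cons.2 ⟨fun hgC => ?_, List.isChain_singleton _⟩
          exact absurd hgC hg }
    have h2 : w.prod (MulEquiv.refl C) = HNNExtension.of g := by
      have h3 : w.prod (MulEquiv.refl C) = HNNExtension.t * HNNExtension.of g * HNNExtension.t⁻¹ := by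
        simp [w, HNNExtension.NormalWord.ReducedWord.prod, mul_assoc]
      rw [h3, ← h1, mul_assoc, mul_inv_cancel, mul_one]
    have h4 := HNNExtension.ReducedWord.toList_eq_nil_of_mem_of_range (MulEquiv.refl C) w ⟨g, h2.symm⟩
    simp [w] at h4

end Pool.Agent.Lib.MP_1d6fae_al
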