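import Pool.Agent.Lib.MP_1d6fae_al.ADefs

/-!
# Row HN: a normal form in the extension `<G, t | [t, C] = 1>` (group theory, only Mathlib)

PROOF IN WORDS. Take a `TransversalPair G C C` (nonempty) and the normal word of `x` (`HNNExtension.NormalWord.equiv`, its `prod` is `x`): a reduced word, `x = of head * (list.map (fun a => t ^ a.1 * of a.2)).prod`, and in the list `a.2 ∈ C` implies `a.1 = b.1` for
neighbours `a, b` (`toSubgroup C C u = C`). Claim for every list with this chain property: it is empty, or its product is `of g0 * pw n (t ^ p i) (of (g i))` with `n ≥ 1`, all `p i ≠ 0`, `g i ∉ C` for `i + 1 < n`, and `p 0` has the sign of the first unit and `g0 ∈ C`.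
Induction on the list `(u, h) :: l`: if `l = []`, `n = 1`. Else `l` has `(g0', n', p', g')`. If `h * g0' ∉ C` (i.e. `h ∉ C`, as `g0' ∈ C`): `n = n' + 1`, `p = u, p'`, `g = h * g0', g'`, `g0 = 1`. If `h ∈ C`: `u` is the sign of `p' 0`; `t^u * h * g0' * t^(p' 0) = (h * g0') * t^(u + p' 0)`
(`t` commutes with `of c`, `c ∈ C`), `u + p' 0 ≠ 0` has the same sign.
-/

set_option autoImplicit false

namespace Pool.Agent.Lib.MP_1d6fae_al

/-- prepend an element to a sequence -/
private def hn_cons {M : Type} (a : M) (f : ℕ → M) : ℕ → M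
  | 0 => a
  | n + 1 => f n

private theorem hn_pw_cons {M : Type} [Monoid M] (n : ℕ) (a b : M) (q h : ℕ → M) :
    pw (n + 1) (hn_cons a q) (hn_cons b h) = a * b * pw n q h := rfl

open HNNExtension in
private theorem hn_list {G : Type} [Group G] (C : Subgroup G) (l : List (ℤˣ × G))
    (hl : l.IsChain (fun a b => a.2 ∈ C → a.1 = b.1)) : l = [] ∨
      ∃ (n : ℕ) (c : G) (p : ℕ → ℤ) (g : ℕ → G), c ∈ C ∧ (∀ i, i < n + 1 → p i ≠ 0) ∧ (∀ i, i < n → g i ∉ C) ∧
        (∃ m : ℕ, p 0 = (l.head?.elim 1 Prod.fst : ℤˣ) * ((m : ℤ) + 1)) ∧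
        (l.map (fun x => (t : HNNExtension G C C (MulEquiv.refl C)) ^ (x.1 : ℤ) * of x.2)).prod =
          of c * pw (n + 1) (fun i => t ^ (p i)) (fun i => of (g i)) := by
  induction l with
  | nil => exact Or.inl rfl
  | cons a l ih =>
    refine Or.inr ?_
    obtain ⟨u, h⟩ := a
    rcases ih (List.isChain_cons.1 hl).2 with rfl | ⟨n, c, p, g, hc, hp, hg, ⟨m, hm⟩, hw⟩
    · refine ⟨0, 1, fun _ => (u : ℤ), fun _ => h, C.one_mem, fun i _ => ?_, fun i hi => absurd hi (Nat.not_lt_zero i), ⟨0, by simp⟩, ?_⟩
      · simp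
      · simp [pw]
    · rcases l with _ | ⟨b, l⟩
      · exact ⟨0, 1, fun _ => (u : ℤ), fun _ => h, C.one_mem, fun i _ => by simp, fun i hi => absurd hi (Nat.not_lt_zero i),
          ⟨0, by simp⟩, by simp [pw]⟩
      by_cases hh : h ∈ C
      · have hub : u = b.1 := (List.isChain_cons.1 hl).1 b (by simp) hh
        have hm' : p 0 = (b.1 : ℤ) * ((m : ℤ) + 1) := by simpa using hm
        refine ⟨n, h * c, fun i => if i = 0 then (u : ℤ) + p 0 else p i, g, C.mul_mem hh hc, fun i hi => ?_, hg, ⟨m + 1, ?_⟩, ?_⟩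
        · by_cases hi0 : i = 0
          · simp only [hi0, if_true]
            rw [hm', hub]
            have h1 : ((b.1 : ℤˣ) : ℤ) + (b.1 : ℤ) * ((m : ℤ) + 1) = (b.1 : ℤ) * ((m : ℤ) + 2) := by ring
            rw [h1]
            exact mul_ne_zero (Units.ne_zero _) (by positivity)
          · simp only [hi0, if_false]
            exact hp i hi
        · simp only [if_true, List.head?_cons, Option.elim_some]
          rw [hm', hub]
          push_cast
          ring
        · rw [List.map_cons, List.prod_cons, hw]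
          have hcomm : (t : HNNExtension G C C (MulEquiv.refl C)) ^ (u : ℤ) * of (h * c) = of (h * c) * t ^ (u : ℤ) := by
            have h0 := t_mul_of (φ := MulEquiv.refl C) (⟨h * c, C.mul_mem hh hc⟩ : C)
            have h1 : Commute (t : HNNExtension G C C (MulEquiv.refl C)) (of (h * c)) := h0
            exact (h1.zpow_left _).eq
          have e1 : pw (n + 1) (fun i => (t : HNNExtension G C C (MulEquiv.refl C)) ^ (if i = 0 then (u : ℤ) + p 0 else p i)) (fun i => of (g i)) =
              t ^ (u : ℤ) * pw (n + 1) (fun i => t ^ (p i)) (fun i => of (g i)) := by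
            simp only [pw, if_true, Nat.add_eq_zero_iff, one_ne_zero, and_false, if_false, zpow_add, mul_assoc]
          rw [e1, ← mul_assoc, ← mul_assoc, ← hcomm, map_mul, mul_assoc, mul_assoc, mul_assoc, mul_assoc]
      · refine ⟨n + 1, 1, hn_cons (u : ℤ) p, hn_cons (h * c) g, C.one_mem, fun i hi => ?_, fun i hi => ?_, ⟨0, ?_⟩, ?_⟩
        · rcases i with _ | i
          · simp [hn_cons]
          · exact hp i (by omega)
        · rcases i with _ | i
          · intro h1
            exact hh ((C.mul_mem_cancel_right hc).1 h1)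
          · exact hg i (by omega)
        · simp [hn_cons]
        · rw [List.map_cons, List.prod_cons, hw]
          have e1 : (fun i => (t : HNNExtension G C C (MulEquiv.refl C)) ^ (hn_cons (u : ℤ) p i)) = hn_cons (t ^ (u : ℤ)) (fun i => t ^ (p i)) := by
            funext i
            cases i <;> rfl
          have e2 : (fun i => (of (hn_cons (h * c) g i) : HNNExtension G C C (MulEquiv.refl C))) = hn_cons (of (h * c)) (fun i => of (g i)) := by
            funext i
            cases i <;> rfl
          rw [e1, e2, hn_pw_cons, map_one, one_mul, map_mul]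
          simp only [mul_assoc]

theorem hn {G : Type} [Group G] (C : Subgroup G) (x : HNNExtension G C C (MulEquiv.refl C)) :
    (∃ g : G, x = HNNExtension.of g) ∨ ∃ (n : ℕ) (g0 : G) (p : ℕ → ℤ) (g : ℕ → G), 1 ≤ n ∧ (∀ i, i < n → p i ≠ 0) ∧ (∀ i, i + 1 < n → g i ∉ C) ∧
      x = HNNExtension.of g0 * pw n (fun i => HNNExtension.t ^ (p i)) (fun i => HNNExtension.of (g i)) := by
  obtain ⟨d⟩ := HNNExtension.NormalWord.TransversalPair.nonempty G C C
  let w := HNNExtension.NormalWord.equiv (MulEquiv.refl C) d x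
  have hw : w.prod (MulEquiv.refl C) = x := (HNNExtension.NormalWord.equiv (MulEquiv.refl C) d).symm_apply_apply x
  have hch : w.toList.IsChain (fun a b => a.2 ∈ C → a.1 = b.1) := by
    refine w.chain.imp fun a b hab h => hab ?_
    rcases Int.units_eq_one_or a.1 with e | e <;> rw [e] <;> exact h
  rcases hn_list C w.toList hch with h0 | ⟨n, c, p, g, -, hp, hg, -, hprod⟩
  · refine Or.inl ⟨w.head, ?_⟩
    rw [← hw, HNNExtension.NormalWord.ReducedWord.prod, h0]
    simp
  · refine Or.inr ⟨n + 1, w.head * c, p, g, by omega, hp, fun i hi => hg i (by omega), ?_⟩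
    rw [← hw, HNNExtension.NormalWord.ReducedWord.prod, hprod, map_mul, mul_assoc]

end Pool.Agent.Lib.MP_1d6fae_al
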