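import Pool.Agent.Lib.MP_1d6fae_al.KK
import Pool.Agent.Lib.MP_1d6fae_al.ZZ
import Pool.Agent.Lib.MP_1d6fae_al.HN

/-!
# Row HT: the extension `<G, t | [t, C] = 1>` is separated by homomorphisms

PROOF IN WORDS. `x ≠ 1`. By `hn`, `x = of g`: then `g ≠ 1`, take `φ` with `φ g ≠ 1` and the homomorphism with `t -> 1` (`HNNExtension.lift`). Otherwise `x = of g0 * pw n (t^(p i)) (of (g i))`. Apply `kk` to the group `G × Multiplicative ℤ`, the set `{(c, 1) : c ∈ C}`, the length `2 n` and
`k (2 i) = (1, ofAdd (p i))`, `k (2 i + 1) = (g i, 1)`. The assumption of `kk`: for even indices by `zz` (composed with the second projection, `C` is mapped to `1`), for odd indices `2 i + 1` with `2 i + 2 < 2 n`, i.e. `i + 1 < n`, by the closedness of `C`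
(composed with the first projection). It gives `φ`, `u`. Put `T = u * φ (1, ofAdd 1) * u`: it commutes with `φ (c, 1)`, and `T^p = u * φ (1, ofAdd p) * u` as `u * u = 1`. `Ψ = lift (φ (·, 1)) T`; `Ψ x = φ (g0, 1) * pw (2 n) u (φ ∘ k) ≠ 1` (an induction on `n` for the interleaved product).
-/

set_option autoImplicit false

namespace Pool.Agent.Lib.MP_1d6fae_al

private theorem ht_map {M N : Type} [Monoid M] [Monoid N] (f : M →* N) (n : ℕ) : ∀ q h : ℕ → M,
    f (pw n q h) = pw n (fun i => f (q i)) (fun i => f (h i)) := by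
  induction n with
  | zero =>
    intro q h
    simp [pw]
  | succ n ih =>
    intro q h
    simp only [pw, map_mul, ih]

private theorem ht_inter {M : Type} [Monoid M] (u : M) (n : ℕ) : ∀ a b : ℕ → M,
    pw n (fun i => u * a i * u) b =
      pw (2 * n) (fun _ => u) (fun j => if j % 2 = 0 then a (j / 2) else b (j / 2)) := by
  induction n with
  | zero =>
    intro a b
    simp [pw]
  | succ n ih =>
    intro a b
    have e : (fun i : ℕ => (fun j : ℕ => if j % 2 = 0 then a (j / 2) else b (j / 2)) (i + 1 + 1)) =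
        fun j : ℕ => if j % 2 = 0 then (fun i => a (i + 1)) (j / 2) else (fun i => b (i + 1)) (j / 2) := by
      funext j
      have h1 : (j + 1 + 1) % 2 = j % 2 := by omega
      have h2 : (j + 1 + 1) / 2 = j / 2 + 1 := by omega
      show (if (j + 1 + 1) % 2 = 0 then a ((j + 1 + 1) / 2) else b ((j + 1 + 1) / 2)) = _
      rw [h1, h2]
    have h3 := ih (fun i => a (i + 1)) (fun i => b (i + 1))
    show u * a 0 * u * b 0 * pw n (fun i => u * a (i + 1) * u) (fun i => b (i + 1)) =
      u * a 0 * (u * b 0 * pw (2 * n) (fun _ => u)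
        (fun i : ℕ => (fun j : ℕ => if j % 2 = 0 then a (j / 2) else b (j / 2)) (i + 1 + 1)))
    rw [e, ← h3]
    simp only [mul_assoc]

theorem ht {R : Type} [Ring R] [StarRing R] [Algebra ℂ R] [StarModule ℂ R] (A : Amp R) {G : Type} [Group G] (C : Subgroup G)
    (h1 : ∀ g : G, g ≠ 1 → ∃ φ : G →* unitary R, φ g ≠ 1)
    (h2 : ∀ g : G, g ∉ C → ∃ (φ : G →* unitary R) (u : unitary R), (∀ c ∈ C, φ c * u = u * φ c) ∧ φ g * u ≠ u * φ g)
    (x : HNNExtension G C C (MulEquiv.refl C)) (hx : x ≠ 1) : ∃ Ψ : HNNExtension G C C (MulEquiv.refl C) →* unitary R, Ψ x ≠ 1 := by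
  rcases hn C x with ⟨g, rfl⟩ | ⟨n, g0, p, g, hn1, hp, hgC, hxe⟩
  · have hg : g ≠ 1 := by
      rintro rfl
      exact hx (map_one _)
    obtain ⟨φ, hφ⟩ := h1 g hg
    refine ⟨HNNExtension.lift φ 1 fun a => by simp, ?_⟩
    rw [HNNExtension.lift_of]
    exact hφ
  · obtain ⟨D, a, hD⟩ := zz A
    let k : ℕ → G × Multiplicative ℤ := fun j =>
      if j % 2 = 0 then (1, Multiplicative.ofAdd (p (j / 2))) else (g (j / 2), 1)
    have hk : ∀ i, i + 1 < 2 * n → ∃ (φ : G × Multiplicative ℤ →* unitary R) (a : unitary R),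
        (∀ c ∈ {z : G × Multiplicative ℤ | z.1 ∈ C ∧ z.2 = 1}, φ c * a = a * φ c) ∧ φ (k i) * a ≠ a * φ (k i) := by
      intro i hi
      rcases Nat.even_or_odd' i with ⟨j, rfl | rfl⟩
      · refine ⟨D.comp (MonoidHom.snd G (Multiplicative ℤ)), a, ?_, ?_⟩
        · rintro ⟨c, z⟩ ⟨hc, hz⟩
          have hz' : z = 1 := hz
          subst hz'
          simp
        · have e1 : k (2 * j) = (1, Multiplicative.ofAdd (p j)) := by
            show (if 2 * j % 2 = 0 then _ else _) = _
            rw [if_pos (by omega), show 2 * j / 2 = j by omega]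
          rw [e1]
          refine hD _ fun h => hp j (by omega) ?_
          exact ofAdd_eq_one.1 h
      · obtain ⟨φ, u, hc, hne⟩ := h2 (g j) (hgC j (by omega))
        refine ⟨φ.comp (MonoidHom.fst G (Multiplicative ℤ)), u, ?_, ?_⟩
        · rintro ⟨c, z⟩ ⟨hc', -⟩
          exact hc c hc'
        · have e1 : k (2 * j + 1) = (g j, 1) := by
            show (if (2 * j + 1) % 2 = 0 then _ else _) = _
            rw [if_neg (by omega), show (2 * j + 1) / 2 = j by omega]
          rw [e1]
          exact hne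
    obtain ⟨φ, u, hu, hcu, hne⟩ := kk A {z : G × Multiplicative ℤ | z.1 ∈ C ∧ z.2 = 1} (2 * n) (by omega) k hk
    have huinv : u = u⁻¹ := eq_inv_of_mul_eq_one_left hu
    set T : unitary R := u * φ (1, Multiplicative.ofAdd 1) * u with hT
    have hTz : ∀ m : ℤ, T ^ m = u * φ (1, Multiplicative.ofAdd m) * u := by
      intro m
      have e1 : T = u * φ (1, Multiplicative.ofAdd 1) * u⁻¹ := by rw [← huinv]
      have e2 : ((1 : G), Multiplicative.ofAdd (1 : ℤ)) ^ m = (1, Multiplicative.ofAdd m) := by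
        rw [Prod.pow_mk, one_zpow, ← ofAdd_zsmul, smul_eq_mul, mul_one]
      rw [e1, conj_zpow, ← map_zpow, e2, ← huinv]
    have hTc : ∀ c : C, T * (φ.comp (MonoidHom.inl G (Multiplicative ℤ))) c =
        (φ.comp (MonoidHom.inl G (Multiplicative ℤ))) ((MulEquiv.refl C) c : C) * T := by
      intro c
      have e1 := hcu ((c : G), 1) ⟨c.2, rfl⟩
      have e2 : φ (1, Multiplicative.ofAdd 1) * φ ((c : G), 1) = φ ((c : G), 1) * φ (1, Multiplicative.ofAdd 1) := by
        rw [← map_mul, ← map_mul, Prod.mk_mul_mk, Prod.mk_mul_mk, one_mul, mul_one, one_mul, mul_one]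
      show T * φ ((c : G), 1) = φ ((c : G), 1) * T
      rw [hT]
      calc u * φ (1, Multiplicative.ofAdd 1) * u * φ ((c : G), 1)
          = u * φ (1, Multiplicative.ofAdd 1) * (u * φ ((c : G), 1)) := by rw [mul_assoc]
        _ = u * (φ (1, Multiplicative.ofAdd 1) * φ ((c : G), 1)) * u := by rw [← e1]; simp only [mul_assoc]
        _ = (u * φ ((c : G), 1)) * φ (1, Multiplicative.ofAdd 1) * u := by rw [e2]; simp only [mul_assoc]
        _ = φ ((c : G), 1) * (u * φ (1, Multiplicative.ofAdd 1) * u) := by rw [← e1]; simp only [mul_assoc]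
    refine ⟨HNNExtension.lift (φ.comp (MonoidHom.inl G (Multiplicative ℤ))) T hTc, ?_⟩
    have h5 : HNNExtension.lift (φ.comp (MonoidHom.inl G (Multiplicative ℤ))) T hTc x =
        φ (g0, 1) * pw (2 * n) (fun _ => u) (fun i => φ (k i)) := by
      rw [hxe, map_mul, HNNExtension.lift_of, ht_map]
      have e1 : (fun i => HNNExtension.lift (φ.comp (MonoidHom.inl G (Multiplicative ℤ))) T hTc
          ((HNNExtension.t : HNNExtension G C C (MulEquiv.refl C)) ^ (p i))) =
          fun i => u * φ (1, Multiplicative.ofAdd (p i)) * u := by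
        funext i
        rw [map_zpow, HNNExtension.lift_t, hTz]
      have e2 : (fun i => HNNExtension.lift (φ.comp (MonoidHom.inl G (Multiplicative ℤ))) T hTc
          (HNNExtension.of (g i) : HNNExtension G C C (MulEquiv.refl C))) = fun i => φ (g i, 1) := by
        funext i
        rw [HNNExtension.lift_of]
        rfl
      have e3 : (fun j : ℕ => if j % 2 = 0 then φ (1, Multiplicative.ofAdd (p (j / 2))) else φ (g (j / 2), 1)) =
          fun i => φ (k i) := by
        funext j
        show _ = φ (if j % 2 = 0 then _ else _)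
        split_ifs <;> rfl
      rw [e1, e2, ht_inter u n (fun i => φ (1, Multiplicative.ofAdd (p i))) (fun i => φ (g i, 1)), e3]
      rfl
    rw [h5]
    exact hne _

end Pool.Agent.Lib.MP_1d6fae_al
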