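import Pool.Agent.Lib.MP_1d6fae_al.KK
import Pool.Agent.Lib.MP_1d6fae_al.ZZ

/-!
# Row PO: amalgamated products are separated by homomorphisms (the same proof as row FP, with an amalgamated subgroup)

PROOF IN WORDS. Let `w ≠ 1` in `P = PushoutI φ` and take its normal word (`Monoid.PushoutI.transversal_nonempty`, `NormalWord.equiv`, `prod`): `w = base h0 * of i_1 x_1 * ... * of i_n x_n`, `i_j ≠ i_(j+1)`, every `x_j ≠ 1` is in the transversal, so `x_j ∉ (φ i_j).range` (`IsComplement`). If `n = 0` (no letter) or `n = 1`, `w` is in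
the image of some `G i` (if `n = 0`: `w = base φ h0 = of i (φ i h0)` for any `i : ι`; if `ι` is empty apply `h0` below) and we use `h1` (`of` is injective). Let `n ≥ 1`. `c : ι → ℕ` injective. Apply `kk` to the group `P × Multiplicative ℤ`, the set `{(base φ h, 1)}`, the length `2 n + 2` and the elements `z^(c i_1 + 1)`, `x_1`, `z^(c i_2 - c i_1)`,
`x_2`, ..., `x_n`, `z^(- c i_n - 1)`, `1` (`z = (1, ofAdd 1)`, `x_j = (of i_j x_j, 1)`), first element `base h0`. The assumption of `kk` for a power of `z` is `zz` (composed with the second projection, which maps the set to `1`), for `x_j` it is `h2` (composed with the first projection). It gives `ψ`, `u`. On `G i` put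
`x ↦ T_i * ψ (of i x, 1) * T_i⁻¹`, `T_i = u * ψ z^(c i + 1) * u`; as `T_i` commutes with `ψ (base h, 1)`, these maps agree with `h ↦ ψ (base φ h, 1)` on `H` and define `Ψ : P → unitary R` (`PushoutI.lift`). `Ψ w` is the word of `kk`, so not `1` (`u * u = 1`).
-/

set_option autoImplicit false

namespace Pool.Agent.Lib.MP_1d6fae_al

/-- the interleaved list -/
private def sq {H S : Type} [One H] (z : ℤ → H) (e : S → H) (q : S → ℤ) : ℤ → List S → List H
  | p, [] => [z (-p), 1]
  | p, s :: L => z (q s - p) :: e s :: sq z e q (q s) L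

private theorem sq_prod {H S U : Type} [Monoid H] [Group U] (φ : H →* U) (u : U) (hu : u * u = 1) (z : ℤ → H)
    (hz : ∀ a b, z (a + b) = z a * z b) (hz0 : z 0 = 1) (e : S → H) (q : S → ℤ) (L : List S) : ∀ p : ℤ,
    ((sq z e q p L).map fun h => u * φ h).prod =
      u * φ (z (-p)) * u * (L.map fun s => (u * φ (z (q s)) * u) * φ (e s) * (u * φ (z (q s)) * u)⁻¹).prod := by
  have hui : u⁻¹ = u := inv_eq_of_mul_eq_one_left hu
  have hzi : ∀ a, (φ (z a))⁻¹ = φ (z (-a)) := by
    intro a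
    refine inv_eq_of_mul_eq_one_left ?_
    rw [← map_mul, ← hz, neg_add_cancel, hz0, map_one]
  induction L with
  | nil =>
    intro p
    simp [sq, mul_assoc]
  | cons s L ih =>
    intro p
    show ((z (q s - p) :: e s :: sq z e q (q s) L).map fun h => u * φ h).prod = _
    rw [List.map_cons, List.map_cons, List.prod_cons, List.prod_cons, ih, List.map_cons, List.prod_cons]
    have h1 : φ (z (q s - p)) = φ (z (-p)) * φ (z (q s)) := by
      rw [← map_mul, ← hz, neg_add_eq_sub]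
    rw [h1, mul_inv_rev, mul_inv_rev, hui, hzi]
    have h2 : ∀ x : U, u * (u * x) = x := by
      intro x
      rw [← mul_assoc, hu, one_mul]
    simp only [mul_assoc, h2]

private theorem pw_list {H U : Type} [Monoid H] [Group U] (φ : H →* U) (u : U) (L : List H) :
    pw L.length (fun _ => u) (fun i => φ (L.getD i 1)) = (L.map fun h => u * φ h).prod := by
  induction L with
  | nil => rfl
  | cons h L ih =>
    rw [List.map_cons, List.prod_cons, ← ih]
    rfl

private theorem sq_good {H S : Type} [Monoid H] (P : H → Prop) (z : ℤ → H) (hz : ∀ k : ℤ, k ≠ 0 → P (z k))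
    (e : S → H) (q : S → ℤ) (hq : ∀ s, q s ≠ 0) (r : S → Prop) (hr : ∀ s, r s → P (e s)) (L : List S) :
    ∀ p : ℤ, (∀ s ∈ L, r s) → L.IsChain (fun s s' => q s ≠ q s') → (∀ s ∈ L.head?, q s ≠ p) →
      (L = [] → p ≠ 0) → ∀ j, j + 1 < (sq z e q p L).length → P ((sq z e q p L).getD j 1) := by
  induction L with
  | nil =>
    intro p _ _ _ h0 j hj
    have hj' : j = 0 := by
      have : (sq z e q p []).length = 2 := rfl
      omega
    subst hj'
    exact hz _ (neg_ne_zero.2 (h0 rfl))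
  | cons s L ih =>
    intro p h1 h2 h3 _ j hj
    have hlen : (sq z e q p (s :: L)).length = (sq z e q (q s) L).length + 2 := rfl
    rcases j with _ | _ | j
    · refine hz _ (sub_ne_zero.2 (h3 s ?_))
      simp
    · exact hr s (h1 s (by simp))
    · show P ((sq z e q (q s) L).getD j 1)
      refine ih (q s) (fun s' hs' => h1 s' (List.mem_cons_of_mem _ hs')) ?_ ?_ (fun _ => hq s) j (by omega)
      · exact h2.tail
      · intro s' hs'
        rcases L with _ | ⟨s'', L⟩
        · simp at hs'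
        · have h4 : s'' = s' := by simpa using hs'
          subst h4
          rw [List.isChain_cons_cons] at h2
          exact h2.1.symm

theorem po {R : Type} [Ring R] [StarRing R] [Algebra ℂ R] [StarModule ℂ R] (A : Amp R) {ι : Type} [Countable ι] [Nonempty ι] {G : ι → Type} [∀ i, Group (G i)]
    {H : Type} [Group H] (φ : ∀ i, H →* G i) (hφ : ∀ i, Function.Injective (φ i))
    (h1 : ∀ i, ∀ g : G i, g ≠ 1 → ∃ ψ : Monoid.PushoutI φ →* unitary R, ψ (Monoid.PushoutI.of i g) ≠ 1)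
    (h2 : ∀ i, ∀ g : G i, g ∉ (φ i).range → ∃ (ψ : Monoid.PushoutI φ →* unitary R) (u : unitary R),
      (∀ h : H, ψ (Monoid.PushoutI.base φ h) * u = u * ψ (Monoid.PushoutI.base φ h)) ∧
        ψ (Monoid.PushoutI.of i g) * u ≠ u * ψ (Monoid.PushoutI.of i g))
    (w : Monoid.PushoutI φ) (hw : w ≠ 1) : ∃ Ψ : Monoid.PushoutI φ →* unitary R, Ψ w ≠ 1 := by
  classical
  obtain ⟨c, hc⟩ := exists_injective_nat ι
  obtain ⟨d⟩ := Monoid.PushoutI.NormalWord.transversal_nonempty φ hφ
  obtain ⟨W, hW⟩ : ∃ W : Monoid.PushoutI.NormalWord d, W.prod = w :=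
    ⟨Monoid.PushoutI.NormalWord.equiv w, Monoid.PushoutI.NormalWord.equiv.symm_apply_apply w⟩
  have hWp : Monoid.PushoutI.ofCoprodI (φ := φ) W.toWord.prod =
      (W.toList.map fun s => (Monoid.PushoutI.of s.1 s.2 : Monoid.PushoutI φ)).prod := by
    unfold Monoid.CoprodI.Word.prod
    rw [map_list_prod, List.map_map]
    refine congrArg List.prod (List.map_congr_left fun s _ => ?_)
    exact Monoid.PushoutI.ofCoprodI_of s.1 s.2
  have hWw : w = Monoid.PushoutI.base φ W.head *
      (W.toList.map fun s => (Monoid.PushoutI.of s.1 s.2 : Monoid.PushoutI φ)).prod := by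
    rw [← hW, ← hWp]
    rfl
  by_cases hne : W.toList = []
  · obtain ⟨i⟩ := ‹Nonempty ι›
    have e : w = Monoid.PushoutI.of i (φ i W.head) := by
      rw [hWw, hne, Monoid.PushoutI.of_apply_eq_base]
      simp
    obtain ⟨ψ, hψ⟩ := h1 i (φ i W.head) (fun h => hw (by rw [e, h, map_one]))
    exact ⟨ψ, by rw [e]; exact hψ⟩
  -- the data
  let z : ℤ → Monoid.PushoutI φ × Multiplicative ℤ := fun k => (1, Multiplicative.ofAdd k)
  let e : (Σ i, G i) → Monoid.PushoutI φ × Multiplicative ℤ := fun s => (Monoid.PushoutI.of s.1 s.2, 1)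
  let q : (Σ i, G i) → ℤ := fun s => (c s.1 : ℤ) + 1
  let C : Set (Monoid.PushoutI φ × Multiplicative ℤ) := {x | ∃ h : H, x = (Monoid.PushoutI.base φ h, 1)}
  let P : Monoid.PushoutI φ × Multiplicative ℤ → Prop := fun h =>
    ∃ (ψ : Monoid.PushoutI φ × Multiplicative ℤ →* unitary R) (a : unitary R), (∀ c ∈ C, ψ c * a = a * ψ c) ∧ ψ h * a ≠ a * ψ h
  have hzz : ∀ k : ℤ, k ≠ 0 → P (z k) := by
    intro k hk
    obtain ⟨D, a, hD⟩ := zz A
    refine ⟨D.comp (MonoidHom.snd _ _), a, ?_, ?_⟩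
    · rintro _ ⟨h, rfl⟩
      show D 1 * a = a * D 1
      rw [map_one, one_mul, mul_one]
    · refine hD (Multiplicative.ofAdd k) ?_
      intro h
      exact hk (ofAdd_eq_one.1 h)
  have hee : ∀ s : (Σ i, G i), s.2 ∉ (φ s.1).range → P (e s) := by
    rintro ⟨i, x⟩ hx
    obtain ⟨ψ, a, hψ1, hψ2⟩ := h2 i x hx
    refine ⟨ψ.comp (MonoidHom.fst _ _), a, ?_, hψ2⟩
    rintro _ ⟨h, rfl⟩
    exact hψ1 h
  have hmem : ∀ s ∈ W.toList, s.2 ∉ (φ s.1).range := by
    rintro ⟨i, x⟩ hs hx
    have h3 : x ∈ d.set i := W.normalized i x hs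
    have h4 : x ≠ 1 := W.ne_one _ hs
    have h5 := (d.compl i).1 (a₁ := (⟨x, hx⟩, ⟨1, d.one_mem i⟩)) (a₂ := (⟨1, one_mem _⟩, ⟨x, h3⟩)) (by simp)
    have h6 := congrArg (fun p => (p.1 : G i)) h5
    exact h4 h6
  have hgood := sq_good P z hzz e q (fun s => by
      show (c s.1 : ℤ) + 1 ≠ 0
      omega) (fun s => s.2 ∉ (φ s.1).range) hee W.toList 0 hmem (W.chain_ne.imp fun s s' h => by
      show (c s.1 : ℤ) + 1 ≠ (c s'.1 : ℤ) + 1
      intro h'
      exact h (hc (by omega))) (fun s _ => by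
      show (c s.1 : ℤ) + 1 ≠ 0
      omega) (fun h => absurd h hne)
  have hlen : 1 ≤ (sq z e q 0 W.toList).length := by
    rcases W.toList with _ | ⟨s, L⟩
    · show 1 ≤ 2
      omega
    · show 1 ≤ (sq z e q (q s) L).length + 2
      omega
  obtain ⟨ψ, u, hu, huC, hψ⟩ := kk A C (sq z e q 0 W.toList).length hlen
    (fun j => (sq z e q 0 W.toList).getD j 1) (by
      intro j hj
      exact hgood j hj)
  have h3 := hψ (Monoid.PushoutI.base φ W.head, 1)
  rw [pw_list, sq_prod ψ u hu z (fun a b => by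
      show ((1 : Monoid.PushoutI φ), Multiplicative.ofAdd (a + b)) = (1 * 1, Multiplicative.ofAdd a * Multiplicative.ofAdd b)
      rw [ofAdd_add, one_mul]) rfl] at h3
  have h4 : ψ (z (-0)) = 1 := by
    have : z (-0) = 1 := by
      show ((1 : Monoid.PushoutI φ), Multiplicative.ofAdd (-0 : ℤ)) = 1
      rw [neg_zero]
      rfl
    rw [this, map_one]
  rw [h4, mul_one, hu, one_mul] at h3
  have hcomm : ∀ (i : ι) (h : H), (u * ψ (z ((c i : ℤ) + 1)) * u) * ψ (Monoid.PushoutI.base φ h, 1) =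
      ψ (Monoid.PushoutI.base φ h, 1) * (u * ψ (z ((c i : ℤ) + 1)) * u) := by
    intro i h
    have e1 : ψ (Monoid.PushoutI.base φ h, 1) * u = u * ψ (Monoid.PushoutI.base φ h, 1) := huC _ ⟨h, rfl⟩
    have e2 : ψ (z ((c i : ℤ) + 1)) * ψ (Monoid.PushoutI.base φ h, 1) = ψ (Monoid.PushoutI.base φ h, 1) * ψ (z ((c i : ℤ) + 1)) := by
      rw [← map_mul, ← map_mul]
      congr 1
      show ((1 : Monoid.PushoutI φ) * Monoid.PushoutI.base φ h, Multiplicative.ofAdd ((c i : ℤ) + 1) * 1) =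
        (Monoid.PushoutI.base φ h * 1, 1 * Multiplicative.ofAdd ((c i : ℤ) + 1))
      rw [one_mul, mul_one, one_mul, mul_one]
    rw [mul_assoc, ← e1, ← mul_assoc, mul_assoc u, e2, ← mul_assoc u, ← e1]
    simp only [mul_assoc]
  refine ⟨Monoid.PushoutI.lift (fun i => ((MulAut.conj (u * ψ (z ((c i : ℤ) + 1)) * u)).toMonoidHom.comp ψ).comp
    ((MonoidHom.inl _ _).comp (Monoid.PushoutI.of i))) (ψ.comp ((MonoidHom.inl _ _).comp (Monoid.PushoutI.base φ))) ?_, ?_⟩
  · intro i
    ext1 h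
    show (u * ψ (z ((c i : ℤ) + 1)) * u) * ψ (Monoid.PushoutI.of i (φ i h), 1) * (u * ψ (z ((c i : ℤ) + 1)) * u)⁻¹ =
      ψ (Monoid.PushoutI.base φ h, 1)
    rw [Monoid.PushoutI.of_apply_eq_base, hcomm, mul_inv_cancel_right]
  · intro h5
    refine h3 ?_
    rw [hWw, map_mul, Monoid.PushoutI.lift_base, map_list_prod, List.map_map] at h5
    refine Eq.trans ?_ h5
    refine congrArg₂ (· * ·) rfl (congrArg List.prod (List.map_congr_left fun s _ => ?_))
    rw [Function.comp_apply, Monoid.PushoutI.lift_of]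
    rfl

end Pool.Agent.Lib.MP_1d6fae_al
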