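import Pool.Agent.Lib.MP_1d6fae_al.ADefs

/-!
# Row RS: a countable group separated by homomorphisms embeds

PROOF IN WORDS. If `G` is trivial, take the trivial homomorphism. Choose for every `g ≠ 1` a homomorphism `φ_g` with `φ_g g ≠ 1` and a surjection from `ℕ` onto `{g // g ≠ 1}` (countable, nonempty): `e`. `Φ x = A.sum (fun n => φ_(e n) x)` is a homomorphism (composition of `A.sum` with the product homomorphism
`Pi.monoidHom`), and injective: if `Φ x = 1` then all `φ_(e n) x = 1` by `A.suminj`, so `x = 1`.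
-/

set_option autoImplicit false

namespace Pool.Agent.Lib.MP_1d6fae_al

theorem rs {R : Type} [Ring R] [StarRing R] [Algebra ℂ R] [StarModule ℂ R] (A : Amp R) {G : Type} [Group G] [Countable G]
    (h1 : ∀ g : G, g ≠ 1 → ∃ φ : G →* unitary R, φ g ≠ 1) : ∃ φ : G →* unitary R, Function.Injective φ := by
  choose φ hφ using h1
  by_cases hne : Nonempty {g : G // g ≠ 1}
  · obtain ⟨e, he⟩ := exists_surjective_nat {g : G // g ≠ 1}
    refine ⟨A.sum.comp (MonoidHom.pi fun n => φ (e n).1 (e n).2), ?_⟩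
    rw [injective_iff_map_eq_one]
    intro x hx
    by_contra hx1
    obtain ⟨n, hn⟩ := he ⟨x, hx1⟩
    have h2 : (MonoidHom.pi fun n => φ (e n).1 (e n).2) x = 1 := by
      apply A.suminj
      rw [map_one]
      exact hx
    have h3 := congrFun h2 n
    simp only [Pi.one_apply] at h3
    have h4 : ∀ y : {g : G // g ≠ 1}, y = ⟨x, hx1⟩ → φ y.1 y.2 x = 1 → False := by
      rintro _ rfl h5
      exact hφ x hx1 h5
    exact h4 _ hn h3
  · refine ⟨1, fun x y _ => ?_⟩
    have h2 : ∀ z : G, z = 1 := fun z => by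
      by_contra hz
      exact hne ⟨⟨z, hz⟩⟩
    rw [h2 x, h2 y]


end Pool.Agent.Lib.MP_1d6fae_al
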