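import Mathlib

/-!
# MP_1d6fae_al: finitely presented groups in algebraic ultrapowers

A finitely presented group which embeds in a group of germs of functions to `M` has enough homomorphisms to `M` to separate its points.
-/

set_option autoImplicit false

open Filter

namespace Pool.Agent.Lib.MP_1d6fae_al

theorem up {G M : Type} [Group G] [Group M] [hG : Group.IsFinitelyPresented G] {I : Type} (F : Filter I) (φ : G →* F.Germ M)
    (hφ : Function.Injective φ) : ∀ g : G, g ≠ 1 → ∃ ψ : G →* M, ψ g ≠ 1 := by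
  obtain ⟨n, π, hπ, S, hS, hSn⟩ := hG.out
  have h0 : ∀ i : Fin n, ∃ f : I → M, (f : F.Germ M) = φ (π (FreeGroup.of i)) := fun i => by
    induction h : φ (π (FreeGroup.of i)) using Germ.inductionOn with
    | _ f => exact ⟨f, rfl⟩
  choose f hf using h0
  let Ψ : FreeGroup (Fin n) →* (I → M) := FreeGroup.lift f
  have h1 : (Germ.coeMulHom F).comp Ψ = φ.comp π := by
    ext i
    simp only [MonoidHom.comp_apply, Ψ, FreeGroup.lift_apply_of]
    exact hf i
  have h2 : ∀ w, (Ψ w : F.Germ M) = φ (π w) := fun w => DFunLike.congr_fun h1 w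
  have h3 : ∀ w, π w = 1 ↔ ∀ᶠ k in F, Ψ w k = 1 := fun w => by
    rw [← map_eq_one_iff φ hφ, ← h2]
    exact Germ.coe_eq
  intro g hg
  obtain ⟨w, rfl⟩ := hπ g
  have h4 : ∃ᶠ k in F, Ψ w k ≠ 1 := fun h => hg ((h3 w).2 (h.mono fun k hk => not_not.1 hk))
  have h5 : ∀ᶠ k in F, ∀ r ∈ S, Ψ r k = 1 := (hS.eventually_all).2 fun r hr => (h3 r).1 (by
    have : r ∈ π.ker := hSn ▸ Subgroup.subset_normalClosure hr
    exact this)
  obtain ⟨k, hk1, hk2⟩ := (h4.and_eventually h5).exists
  let Ψk : FreeGroup (Fin n) →* M := (Pi.evalMonoidHom (fun _ : I => M) k).comp Ψ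
  have h6 : π.ker ≤ Ψk.ker := by
    rw [← hSn]
    exact Subgroup.normalClosure_le_normal fun r hr => hk2 r hr
  let ψ : G →* M := π.liftOfSurjective hπ ⟨Ψk, h6⟩
  have h7 : ψ (π w) = Ψk w := MonoidHom.liftOfRightInverse_comp_apply _ _ _ ⟨Ψk, h6⟩ w
  exact ⟨ψ, by rw [h7]; exact hk1⟩

/-- finitely presented groups are countable -/
theorem fp_countable (G : Type) [Group G] [hG : Group.IsFinitelyPresented G] : Countable G := by
  obtain ⟨n, π, hπ, -⟩ := hG.out
  have : Countable (FreeGroup (Fin n)) := inferInstance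
  exact hπ.countable

/-- the diagonal embedding -/
theorem diag {G M : Type} [Group G] [Group M] {I : Type} (F : Filter I) [F.NeBot] (φ : G →* M) (hφ : Function.Injective φ) :
    ∃ ψ : G →* F.Germ M, Function.Injective ψ := by
  refine ⟨(Germ.coeMulHom F).comp (MonoidHom.pi fun _ => φ), fun a b h => hφ ?_⟩
  exact Germ.const_inj.1 h

end Pool.Agent.Lib.MP_1d6fae_al
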