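import Pool.Agent.Lib.MP_1d6fae_al.NEq
import Pool.Agent.Lib.MP_1d6fae_al.AM
import Pool.Agent.Lib.MP_1d6fae_al.HT
import Pool.Agent.Lib.MP_1d6fae_al.HC
import Pool.Agent.Lib.MP_1d6fae_al.RS
import Pool.Agent.Lib.MP_1d6fae_al.FP
import Pool.Agent.Lib.MP_1d6fae_al.FI
import Pool.Agent.Lib.MP_1d6fae_al.CL
import Pool.Agent.Lib.MP_1d6fae_al.PO
import Pool.Agent.Lib.MP_1d6fae_al.DC
import Pool.Agent.Lib.MP_1d6fae_al.UP

/-!
# MP_1d6fae_al, assembly
-/

set_option autoImplicit false

open Filter Topology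

namespace Pool.Agent.Lib.MP_1d6fae_al

private theorem emb_comap {G H : Type} [Group G] [Group H] (f : G →* H) (hf : Function.Injective f) (h : Emb H) : Emb G := by
  obtain ⟨φ, hφ⟩ := h
  exact ⟨φ.comp f, hφ.comp hf⟩

theorem emb_iff_sep (G : Type) [Group G] [Countable G] : Emb G ↔ ∀ g : G, g ≠ 1 → ∃ φ : G →* UR, φ g ≠ 1 := by
  obtain ⟨A⟩ := am
  constructor
  · rintro ⟨φ, hφ⟩ g hg
    exact ⟨φ, fun h => hg (hφ (by rw [h, map_one]))⟩
  · intro h
    exact rs A h

private theorem sep_of_emb {G : Type} [Group G] (h : Emb G) : ∀ g : G, g ≠ 1 → ∃ φ : G →* UR, φ g ≠ 1 := by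
  obtain ⟨φ, hφ⟩ := h
  intro g hg
  exact ⟨φ, fun h => hg (hφ (by rw [h, map_one]))⟩

private theorem count_list {M S : Type} [Group M] [Countable S] (f : S → M) (h : ∀ x : M, x ∈ Subgroup.closure (Set.range f)) : Countable M := by
  let F : List (S × Bool) → M := fun l => (l.map fun a => if a.2 then f a.1 else (f a.1)⁻¹).prod
  have hF : Function.Surjective F := by
    intro x
    refine Subgroup.closure_induction (p := fun x _ => ∃ l, F l = x) ?_ ?_ ?_ ?_ (h x)
    · rintro _ ⟨s, rfl⟩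
      exact ⟨[(s, true)], by simp [F]⟩
    · exact ⟨[], by simp [F]⟩
    · rintro a b - - ⟨l, rfl⟩ ⟨m, rfl⟩
      exact ⟨l ++ m, by simp [F]⟩
    · rintro a - ⟨l, rfl⟩
      refine ⟨(l.map fun a => (a.1, !a.2)).reverse, ?_⟩
      simp only [F, List.prod_inv_reverse, List.map_reverse, List.map_map]
      refine congrArg (fun l => (List.reverse l).prod) (List.map_congr_left fun a _ => ?_)
      rcases a with ⟨s, b⟩
      cases b <;> simp
  exact hF.countable

instance hnn_countable {G : Type} [Group G] [Countable G] (C : Subgroup G) : Countable (HNNExtension G C C (MulEquiv.refl C)) := by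
  refine count_list (S := Option G) (fun o => o.elim HNNExtension.t HNNExtension.of) fun x => ?_
  induction x using HNNExtension.induction_on with
  | of g => exact Subgroup.subset_closure ⟨some g, rfl⟩
  | t => exact Subgroup.subset_closure ⟨none, rfl⟩
  | mul x y hx hy => exact Subgroup.mul_mem _ hx hy
  | inv x hx => exact Subgroup.inv_mem _ hx

theorem hnn_iff (G : Type) [Group G] [Countable G] (C : Subgroup G) :
    Emb (HNNExtension G C C (MulEquiv.refl C)) ↔ Emb G ∧ Closed C := by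
  obtain ⟨A⟩ := am
  constructor
  · intro h
    refine ⟨emb_comap HNNExtension.of (HNNExtension.of_injective _) h, ?_⟩
    obtain ⟨Φ, hΦ⟩ := h
    intro g hg
    obtain ⟨h1, h2⟩ := hc C Φ hΦ g hg
    exact ⟨Φ.comp HNNExtension.of, Φ HNNExtension.t, h1, h2⟩
  · rintro ⟨h1, h2⟩
    rw [emb_iff_sep]
    exact fun x hx => ht A C (sep_of_emb h1) h2 x hx

instance coprodI_countable {ι : Type} [Countable ι] (G : ι → Type) [∀ i, Group (G i)] [∀ i, Countable (G i)] : Countable (Monoid.CoprodI G) := by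
  refine count_list (S := Σ i, G i) (fun o => Monoid.CoprodI.of o.2) fun x => ?_
  induction x using Monoid.CoprodI.induction_on with
  | one => exact Subgroup.one_mem _
  | of i g => exact Subgroup.subset_closure ⟨⟨i, g⟩, rfl⟩
  | mul x y hx hy => exact Subgroup.mul_mem _ hx hy

theorem free_iff (ι : Type) [Countable ι] (G : ι → Type) [∀ i, Group (G i)] [∀ i, Countable (G i)] :
    Emb (Monoid.CoprodI G) ↔ ∀ i, Emb (G i) := by
  obtain ⟨A⟩ := am
  constructor
  · intro h i
    exact emb_comap (Monoid.CoprodI.of) (Monoid.CoprodI.of_injective i) h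
  · intro h
    rw [emb_iff_sep]
    exact fun w hw => fp A (fun i => sep_of_emb (h i)) w hw

private theorem pushout_countable {ι : Type} [Countable ι] {G : ι → Type} [∀ i, Group (G i)] [∀ i, Countable (G i)] {H : Type} [Group H] [Countable H]
    (φ : ∀ i, H →* G i) : Countable (Monoid.PushoutI φ) := by
  refine count_list (S := H ⊕ Σ i, G i) (fun o => Sum.elim (fun h => Monoid.PushoutI.base φ h) (fun o => Monoid.PushoutI.of o.1 o.2) o) fun x => ?_
  induction x using Monoid.PushoutI.induction_on with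
  | of i g => exact Subgroup.subset_closure ⟨Sum.inr ⟨i, g⟩, rfl⟩
  | base h => exact Subgroup.subset_closure ⟨Sum.inl h, rfl⟩
  | mul x y hx hy => exact Subgroup.mul_mem _ hx hy

/-- amalgamated products: a criterion -/
theorem amalgam (ι : Type) [Countable ι] [Nonempty ι] (G : ι → Type) [∀ i, Group (G i)] [∀ i, Countable (G i)] (H : Type) [Group H]
    (φ : ∀ i, H →* G i) (hφ : ∀ i, Function.Injective (φ i))
    (h1 : ∀ i, ∀ g : G i, g ≠ 1 → ∃ ψ : Monoid.PushoutI φ →* UR, ψ (Monoid.PushoutI.of i g) ≠ 1)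
    (h2 : ∀ i, ∀ g : G i, g ∉ (φ i).range → ∃ (ψ : Monoid.PushoutI φ →* UR) (u : UR),
      (∀ h : H, ψ (Monoid.PushoutI.base φ h) * u = u * ψ (Monoid.PushoutI.base φ h)) ∧
        ψ (Monoid.PushoutI.of i g) * u ≠ u * ψ (Monoid.PushoutI.of i g)) : Emb (Monoid.PushoutI φ) := by
  obtain ⟨A⟩ := am
  have : Countable H := (hφ (Classical.arbitrary ι)).countable
  have := pushout_countable φ
  rw [emb_iff_sep]
  exact fun w hw => po A φ hφ h1 h2 w hw

/-- amalgamated products over a common retract -/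
theorem retract_iff (ι : Type) [Countable ι] [Nonempty ι] (G : ι → Type) [∀ i, Group (G i)] [∀ i, Countable (G i)] (H : Type) [Group H]
    (φ : ∀ i, H →* G i) (r : ∀ i, G i →* H) (hr : ∀ i h, r i (φ i h) = h) : Emb (Monoid.PushoutI φ) ↔ ∀ i, Emb (G i) := by
  classical
  obtain ⟨A⟩ := am
  have hφ : ∀ i, Function.Injective (φ i) := fun i => Function.LeftInverse.injective (hr i)
  constructor
  · intro h i
    exact emb_comap (Monoid.PushoutI.of i) (Monoid.PushoutI.of_injective hφ i) h
  · intro h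
    -- the retraction of the product to `G i`
    have hq : ∀ i, ∃ q : Monoid.PushoutI φ →* G i, (∀ g, q (Monoid.PushoutI.of i g) = g) ∧ ∀ h, q (Monoid.PushoutI.base φ h) = φ i h := by
      intro i
      let f : ∀ j, G j →* G i := fun j => if e : j = i then (MonoidHom.id (G i)).comp (e ▸ MonoidHom.id (G j)) else (φ i).comp (r j)
      have hf : ∀ j, (f j).comp (φ j) = φ i := by
        intro j
        by_cases e : j = i
        · subst e
          ext h
          simp [f]
        · ext h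
          simp [f, e, hr]
      refine ⟨Monoid.PushoutI.lift f (φ i) hf, fun g => ?_, fun h => ?_⟩
      · rw [Monoid.PushoutI.lift_of]
        simp [f]
      · rw [Monoid.PushoutI.lift_base]
    refine amalgam ι G H φ hφ (fun i g hg => ?_) fun i g hg => ?_
    · obtain ⟨q, hq1, -⟩ := hq i
      obtain ⟨ψ, hψ⟩ := sep_of_emb (h i) g hg
      exact ⟨ψ.comp q, by rw [MonoidHom.comp_apply, hq1]; exact hψ⟩
    · obtain ⟨q, hq1, hq2⟩ := hq i
      obtain ⟨Φ, hΦ⟩ := h i
      obtain ⟨ψ, u, hu⟩ := dc A Φ (Φ.comp ((φ i).comp (r i)))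
      refine ⟨ψ.comp q, u, fun h => ?_, fun he => hg ?_⟩
      · rw [MonoidHom.comp_apply, hq2, hu]
        simp [hr]
      · rw [MonoidHom.comp_apply, hq1, hu] at he
        exact ⟨r i g, (hΦ he).symm⟩

/-- doubles -/
theorem double_iff (G : Type) [Group G] [Countable G] (C : Subgroup G) :
    Emb (Monoid.PushoutI (fun _ : Bool => C.subtype)) ↔ Emb G ∧ Closed C := by
  obtain ⟨A⟩ := am
  have hφ : ∀ _ : Bool, Function.Injective C.subtype := fun _ => C.subtype_injective
  constructor
  · intro h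
    have hi : Function.Injective (Monoid.PushoutI.of (φ := fun _ : Bool => C.subtype) true) := Monoid.PushoutI.of_injective hφ true
    refine ⟨emb_comap _ hi h, ?_⟩
    obtain ⟨Φ, hΦ⟩ := h
    intro g hg
    obtain ⟨ψ, u, hu⟩ := dc A (Φ.comp (Monoid.PushoutI.of (φ := fun _ : Bool => C.subtype) true))
      (Φ.comp (Monoid.PushoutI.of (φ := fun _ : Bool => C.subtype) false))
    refine ⟨ψ, u, fun c hc => ?_, fun he => hg ?_⟩
    · rw [hu]
      have e1 := Monoid.PushoutI.of_apply_eq_base (fun _ : Bool => C.subtype) true ⟨c, hc⟩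
      have e2 := Monoid.PushoutI.of_apply_eq_base (fun _ : Bool => C.subtype) false ⟨c, hc⟩
      exact congrArg Φ (e1.trans e2.symm)
    · rw [hu] at he
      have e1 := hΦ he
      have e2 : Monoid.PushoutI.of (φ := fun _ : Bool => C.subtype) true g ∈
          (Monoid.PushoutI.of (φ := fun _ : Bool => C.subtype) true).range ⊓ (Monoid.PushoutI.of (φ := fun _ : Bool => C.subtype) false).range :=
        ⟨⟨g, rfl⟩, ⟨g, e1.symm⟩⟩
      rw [Monoid.PushoutI.inf_of_range_eq_base_range hφ (by decide)] at e2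
      obtain ⟨c, hc⟩ := e2
      have e3 := Monoid.PushoutI.of_apply_eq_base (fun _ : Bool => C.subtype) true c
      have e4 := Monoid.PushoutI.of_injective hφ true (e3.trans hc)
      rw [← e4]
      exact c.2
  · rintro ⟨h1, h2⟩
    let q : Monoid.PushoutI (fun _ : Bool => C.subtype) →* G := Monoid.PushoutI.lift (fun _ => MonoidHom.id G) C.subtype (fun _ => rfl)
    have hq1 : ∀ b g, q (Monoid.PushoutI.of b g) = g := fun b g => by
      simp only [q, Monoid.PushoutI.lift_of]
      rfl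
    have hq2 : ∀ c, q (Monoid.PushoutI.base _ c) = c := fun c => by
      simp only [q, Monoid.PushoutI.lift_base]
      rfl
    refine amalgam Bool (fun _ => G) C (fun _ => C.subtype) hφ (fun b g hg => ?_) fun b g hg => ?_
    · obtain ⟨ψ, hψ⟩ := sep_of_emb h1 g hg
      exact ⟨ψ.comp q, by rw [MonoidHom.comp_apply, hq1]; exact hψ⟩
    · obtain ⟨ψ, u, h3, h4⟩ := h2 g (fun h => hg ⟨⟨g, h⟩, rfl⟩)
      refine ⟨ψ.comp q, u, fun c => ?_, ?_⟩
      · rw [MonoidHom.comp_apply, hq2]
        exact h3 c c.2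
      · rw [MonoidHom.comp_apply, hq1]
        exact h4

theorem index_iff (G : Type) [Group G] [Countable G] (N : Subgroup G) [N.FiniteIndex] : Emb G ↔ Emb N := by
  obtain ⟨A⟩ := am
  constructor
  · exact emb_comap N.subtype N.subtype_injective
  · rintro ⟨ρ, hρ⟩
    rw [emb_iff_sep]
    intro g hg
    obtain ⟨Φ, hΦ⟩ := fi A N ρ
    refine ⟨Φ, hΦ g fun h hh => hg ?_⟩
    have : (⟨g, h⟩ : N) = 1 := hρ (by rw [hh, map_one])
    exact congrArg Subtype.val this

theorem closed_centralizer (G : Type) [Group G] (h : Emb G) (S : Set G) : Closed (Subgroup.centralizer S) := by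
  obtain ⟨φ, hφ⟩ := h
  intro g hg
  obtain ⟨u, h1, h2⟩ := cl1 φ hφ S g hg
  exact ⟨φ, u, h1, h2⟩

theorem closed_index (G : Type) [Group G] (N : Subgroup G) [N.FiniteIndex] : Closed N := by
  obtain ⟨A⟩ := am
  intro g hg
  exact cl2 A N g hg

theorem closed_inf (G : Type) [Group G] (ι : Type) (C : ι → Subgroup G) (h : ∀ i, Closed (C i)) : Closed (⨅ i, C i) := by
  intro g hg
  rw [Subgroup.mem_iInf] at hg
  push Not at hg
  obtain ⟨i, hi⟩ := hg
  obtain ⟨φ, u, h1, h2⟩ := h i g hi
  exact ⟨φ, u, fun c hc => h1 c (Subgroup.mem_iInf.1 hc i), h2⟩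

theorem closed_bot (G : Type) [Group G] (h : Emb G) : Closed (⊥ : Subgroup G) := by
  obtain ⟨A⟩ := am
  intro g hg
  obtain ⟨ψ, hψ⟩ := sep_of_emb h g (fun h => hg (by rw [h]; exact Subgroup.one_mem _))
  obtain ⟨φ, a, ha⟩ := z2 A ψ
  refine ⟨φ, a, fun c hc => ?_, ha g hψ⟩
  rw [Subgroup.mem_bot.1 hc, map_one, one_mul, mul_one]

/-! the statements in terms of the definitions of NDefs -/

theorem embG_iff (G : Type) [Group G] : EmbG G ↔ Emb G := by
  constructor
  · rintro ⟨φ, h⟩
    exact ⟨(ue.toMonoidHom).comp φ, ue.injective.comp h⟩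
  · rintro ⟨φ, h⟩
    exact ⟨(ue.symm.toMonoidHom).comp φ, ue.symm.injective.comp h⟩

theorem sepIn_iff {G P : Type} [Group G] [Group P] (j : G →* P) : SepIn j ↔ ∀ g : G, g ≠ 1 → ∃ φ : P →* UR, φ (j g) ≠ 1 := by
  refine forall_congr' fun g => imp_congr_right fun _ => ⟨?_, ?_⟩
  · rintro ⟨φ, h⟩
    exact ⟨(ue.toMonoidHom).comp φ, fun h1 => h (ue.injective (h1.trans (map_one ue).symm))⟩
  · rintro ⟨φ, h⟩
    exact ⟨(ue.symm.toMonoidHom).comp φ, fun h1 => h (ue.symm.injective (h1.trans (map_one ue.symm).symm))⟩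

theorem closedIn_iff {G P : Type} [Group G] [Group P] (j : G →* P) (C : Subgroup G) : ClosedIn j C ↔
    ∀ g : G, g ∉ C → ∃ (φ : P →* UR) (u : UR), (∀ c ∈ C, φ (j c) * u = u * φ (j c)) ∧ φ (j g) * u ≠ u * φ (j g) := by
  refine forall_congr' fun g => imp_congr_right fun _ => ⟨?_, ?_⟩
  · rintro ⟨φ, u, h1, h2⟩
    refine ⟨(ue.toMonoidHom).comp φ, ue u, fun c hc => ?_, fun h => h2 (ue.injective ?_)⟩
    · have := congrArg ue (h1 c hc)
      rw [map_mul, map_mul] at this
      exact this
    · rw [map_mul, map_mul]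
      exact h
  · rintro ⟨φ, u, h1, h2⟩
    refine ⟨(ue.symm.toMonoidHom).comp φ, ue.symm u, fun c hc => ?_, fun h => h2 (ue.symm.injective ?_)⟩
    · have := congrArg ue.symm (h1 c hc)
      rw [map_mul, map_mul] at this
      exact this
    · rw [map_mul, map_mul]
      exact h

theorem closedG_iff {G : Type} [Group G] (C : Subgroup G) : ClosedG C ↔ Closed C := closedIn_iff (MonoidHom.id G) C

private theorem hyp_comap (F : Ultrafilter ℕ) {G H : Type} [Group G] [Group H] (f : G →* H) (hf : Function.Injective f) (h : UltraG F H) : UltraG F G := by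
  obtain ⟨φ, h1, h2⟩ := h
  refine ⟨fun g => φ (f g), fun g k => ?_, fun g hg => h2 (f g) fun h => hg ?_⟩
  · simp only [map_mul]
    exact h1 (f g) (f k)
  · exact hf (by rw [h, map_one])

theorem g_sep (G : Type) [Group G] [Countable G] : EmbG G ↔ SepG G :=
  (embG_iff G).trans ((emb_iff_sep G).trans (sepIn_iff (MonoidHom.id G)).symm)

/-- finitely presented groups: algebraic ultrapowers -/
theorem g_fp (G : Type) [Group G] (hG : Group.IsFinitelyPresented G) (I : Type) (F : Ultrafilter I) :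
    EmbG G ↔ ∃ φ : G →* (F : Filter I).Germ UG, Function.Injective φ := by
  have := fp_countable G
  constructor
  · rintro ⟨φ, hφ⟩
    exact diag (F : Filter I) φ hφ
  · rintro ⟨φ, hφ⟩
    exact (g_sep G).2 (up (F : Filter I) φ hφ)

theorem g_ext (G : Type) [Group G] [Countable G] (C : Subgroup G) : EmbG (Ext C) ↔ EmbG G ∧ ClosedG C := by
  rw [embG_iff, embG_iff, closedG_iff]
  exact hnn_iff G C

theorem g_dbl (G : Type) [Group G] [Countable G] (C : Subgroup G) : EmbG (Dbl C) ↔ EmbG G ∧ ClosedG C := by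
  rw [embG_iff, embG_iff, closedG_iff]
  exact double_iff G C

theorem g_free (ι : Type) [Countable ι] (G : ι → Type) [∀ i, Group (G i)] [∀ i, Countable (G i)] : EmbG (Monoid.CoprodI G) ↔ ∀ i, EmbG (G i) := by
  simp only [embG_iff]
  exact free_iff ι G

theorem g_retract (ι : Type) [Countable ι] [Nonempty ι] (G : ι → Type) [∀ i, Group (G i)] [∀ i, Countable (G i)] (H : Type) [Group H]
    (φ : ∀ i, H →* G i) (r : ∀ i, G i →* H) (hr : ∀ i h, r i (φ i h) = h) : EmbG (Monoid.PushoutI φ) ↔ ∀ i, EmbG (G i) := by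
  simp only [embG_iff]
  exact retract_iff ι G H φ r hr

theorem g_amalgam (ι : Type) [Countable ι] [Nonempty ι] (G : ι → Type) [∀ i, Group (G i)] [∀ i, Countable (G i)] (H : Type) [Group H]
    (φ : ∀ i, H →* G i) (hφ : ∀ i, Function.Injective (φ i)) (h : CritG φ) : EmbG (Monoid.PushoutI φ) := by
  rw [embG_iff]
  refine amalgam ι G H φ hφ (fun i => (sepIn_iff _).1 (h i).1) fun i g hg => ?_
  obtain ⟨ψ, u, h1, h2⟩ := (closedIn_iff _ _).1 (h i).2 g hg
  refine ⟨ψ, u, fun k => ?_, h2⟩
  have := h1 (φ i k) ⟨k, rfl⟩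
  rwa [Monoid.PushoutI.of_apply_eq_base] at this

theorem g_index (G : Type) [Group G] [Countable G] (N : Subgroup G) [N.FiniteIndex] : EmbG G ↔ EmbG N := by
  rw [embG_iff, embG_iff]
  exact index_iff G N

theorem g_bot (G : Type) [Group G] (h : EmbG G) : ClosedG (⊥ : Subgroup G) := (closedG_iff _).2 (closed_bot G ((embG_iff G).1 h))

theorem g_centralizer (G : Type) [Group G] (h : EmbG G) (S : Set G) : ClosedG (Subgroup.centralizer S) :=
  (closedG_iff _).2 (closed_centralizer G ((embG_iff G).1 h) S)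

theorem g_closed_index (G : Type) [Group G] (N : Subgroup G) [N.FiniteIndex] : ClosedG N := (closedG_iff _).2 (closed_index G N)

theorem g_closed_inf (G : Type) [Group G] (ι : Type) (C : ι → Subgroup G) (h : ∀ i, ClosedG (C i)) : ClosedG (⨅ i, C i) :=
  (closedG_iff _).2 (closed_inf G ι C fun i => (closedG_iff _).1 (h i))

theorem q_ext (F : Ultrafilter ℕ) (G : Type) [Group G] [Countable G] (C : Subgroup G) (hC : ClosedG C) (h : QG F G) : QG F (Ext C) := fun hH =>
  (g_ext G C).2 ⟨h (hyp_comap F HNNExtension.of (HNNExtension.of_injective _) hH), hC⟩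

theorem q_dbl (F : Ultrafilter ℕ) (G : Type) [Group G] [Countable G] (C : Subgroup G) (hC : ClosedG C) (h : QG F G) : QG F (Dbl C) := fun hH => by
  have hi : Function.Injective (Monoid.PushoutI.of (φ := fun _ : Bool => C.subtype) true) :=
    Monoid.PushoutI.of_injective (fun _ => C.subtype_injective) true
  exact (g_dbl G C).2 ⟨h (hyp_comap F _ hi hH), hC⟩

theorem q_free (F : Ultrafilter ℕ) (ι : Type) [Countable ι] (G : ι → Type) [∀ i, Group (G i)] [∀ i, Countable (G i)]
    (h : ∀ i, QG F (G i)) : QG F (Monoid.CoprodI G) := fun hH =>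
  (g_free ι G).2 fun i => h i (hyp_comap F Monoid.CoprodI.of (Monoid.CoprodI.of_injective i) hH)

theorem q_retract (F : Ultrafilter ℕ) (ι : Type) [Countable ι] [Nonempty ι] (G : ι → Type) [∀ i, Group (G i)] [∀ i, Countable (G i)] (H : Type) [Group H]
    (φ : ∀ i, H →* G i) (r : ∀ i, G i →* H) (hr : ∀ i h, r i (φ i h) = h) (h : ∀ i, QG F (G i)) : QG F (Monoid.PushoutI φ) := fun hH =>
  (g_retract ι G H φ r hr).2 fun i => h i
    (hyp_comap F (Monoid.PushoutI.of i) (Monoid.PushoutI.of_injective (fun i => Function.LeftInverse.injective (hr i)) i) hH)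

theorem q_index (F : Ultrafilter ℕ) (G : Type) [Group G] [Countable G] (N : Subgroup G) [N.FiniteIndex] (h : QG F N) : QG F G := fun hH =>
  (g_index G N).2 (h (hyp_comap F N.subtype N.subtype_injective hH))

end Pool.Agent.Lib.MP_1d6fae_al
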