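import Pool.Agent.Lib.MP_1d6fae_al.MU

/-!
# Row MN: the unitary matrices over `R` embed in the unitary group of `R`

PROOF IN WORDS. `F` from `mu A N`, `e = ∑ x, F x x` (a projection, `e F x y = F x y = F x y e`). `Φ a = ∑ x, ∑ y, i1 (a x y) * i2 (F x y) + i2 (1 - e)`. `Φ (a b) = Φ a Φ b` (`A.comm`, relations of `F`), `star (Φ a) = Φ (star a)`, `Φ 1 = 1`: so `Φ`
maps unitaries to unitaries. Injective: `i2 (F x x) * Φ a * i2 (F y x) = i1 (a x y) * i2 (F x x)`, so `Φ a = Φ b` gives `i1 (a x y - b x y) * i2 (F x x) = 0` and `a x y = b x y` by `A.ne`.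
-/

set_option autoImplicit false

namespace Pool.Agent.Lib.MP_1d6fae_al

section

variable {R : Type} [Ring R] [StarRing R] [Algebra ℂ R] (A : Amp R) {N : ℕ} (F : Fin N → Fin N → R)

private theorem mn_l (a b u v : R) : A.i1 a * A.i2 u * (A.i1 b * A.i2 v) = A.i1 (a * b) * A.i2 (u * v) := by
  rw [map_mul, map_mul]
  calc A.i1 a * A.i2 u * (A.i1 b * A.i2 v) = A.i1 a * (A.i2 u * A.i1 b) * A.i2 v := by simp only [mul_assoc]
    _ = A.i1 a * (A.i1 b * A.i2 u) * A.i2 v := by rw [A.comm b u]
    _ = _ := by simp only [mul_assoc]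

/-- the main part -/
private def mn_S (a : Matrix (Fin N) (Fin N) R) : R := ∑ x, ∑ y, A.i1 (a x y) * A.i2 (F x y)

private theorem mn_sub (a b : Matrix (Fin N) (Fin N) R) : mn_S A F (a - b) = mn_S A F a - mn_S A F b := by
  unfold mn_S
  rw [← Finset.sum_sub_distrib]
  refine Finset.sum_congr rfl fun x _ => ?_
  rw [← Finset.sum_sub_distrib]
  refine Finset.sum_congr rfl fun y _ => ?_
  rw [Matrix.sub_apply, map_sub, sub_mul]

private theorem mn_left (hmul : ∀ i j k l, F i j * F k l = if j = k then F i l else 0) (c : R) (x y : Fin N)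
    (b : Matrix (Fin N) (Fin N) R) : A.i1 c * A.i2 (F x y) * mn_S A F b = ∑ w, A.i1 (c * b y w) * A.i2 (F x w) := by
  unfold mn_S
  rw [Finset.mul_sum, Finset.sum_eq_single y]
  · rw [Finset.mul_sum]
    refine Finset.sum_congr rfl fun w _ => ?_
    rw [mn_l, hmul, if_pos rfl]
  · intro z _ hz
    rw [Finset.mul_sum]
    refine Finset.sum_eq_zero fun w _ => ?_
    rw [mn_l, hmul, if_neg (Ne.symm hz), map_zero, mul_zero]
  · intro h
    exact absurd (Finset.mem_univ y) h

private theorem mn_mul (hmul : ∀ i j k l, F i j * F k l = if j = k then F i l else 0)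
    (a b : Matrix (Fin N) (Fin N) R) : mn_S A F a * mn_S A F b = mn_S A F (a * b) := by
  conv_lhs => rw [mn_S]
  rw [Finset.sum_mul]
  conv_rhs => rw [mn_S]
  refine Finset.sum_congr rfl fun x _ => ?_
  rw [Finset.sum_mul]
  calc ∑ y, A.i1 (a x y) * A.i2 (F x y) * mn_S A F b = ∑ y, ∑ w, A.i1 (a x y * b y w) * A.i2 (F x w) :=
        Finset.sum_congr rfl fun y _ => mn_left A F hmul (a x y) x y b
    _ = ∑ w, ∑ y, A.i1 (a x y * b y w) * A.i2 (F x w) := Finset.sum_comm
    _ = ∑ w, A.i1 ((a * b) x w) * A.i2 (F x w) := by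
        refine Finset.sum_congr rfl fun w _ => ?_
        rw [Matrix.mul_apply, map_sum, Finset.sum_mul]

private theorem mn_star (hstar : ∀ i j, star (F i j) = F j i) (a : Matrix (Fin N) (Fin N) R) :
    star (mn_S A F a) = mn_S A F (star a) := by
  unfold mn_S
  rw [star_sum]
  have h1 : ∀ x : Fin N, star (∑ y, A.i1 (a x y) * A.i2 (F x y)) = ∑ y, A.i1 (star (a x y)) * A.i2 (F y x) := by
    intro x
    rw [star_sum]
    refine Finset.sum_congr rfl fun y _ => ?_
    rw [star_mul, ← map_star, ← map_star, hstar, A.comm]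
  rw [Finset.sum_congr rfl fun x _ => h1 x, Finset.sum_comm]
  rfl

end

theorem mn {R : Type} [Ring R] [StarRing R] [Algebra ℂ R] [StarModule ℂ R] (A : Amp R) (N : ℕ) :
    ∃ Φ : unitary (Matrix (Fin N) (Fin N) R) →* unitary R, Function.Injective Φ := by
  classical
  obtain ⟨F, hmul, hstar, hne⟩ := mu A N
  obtain ⟨e, he⟩ : ∃ e : R, e = ∑ x, F x x := ⟨_, rfl⟩
  have hFe : ∀ x y, F x y * e = F x y := by
    intro x y
    rw [he, Finset.mul_sum, Finset.sum_eq_single y]
    · rw [hmul, if_pos rfl]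
    · intro z _ hz
      rw [hmul, if_neg (Ne.symm hz)]
    · intro h
      exact absurd (Finset.mem_univ y) h
  have heF : ∀ x y, e * F x y = F x y := by
    intro x y
    rw [he, Finset.sum_mul, Finset.sum_eq_single x]
    · rw [hmul, if_pos rfl]
    · intro z _ hz
      rw [hmul, if_neg hz]
    · intro h
      exact absurd (Finset.mem_univ x) h
  have hee : e * e = e := by
    conv_lhs => rw [he, Finset.sum_mul]
    rw [← he]
    rw [Finset.sum_congr rfl fun x _ => hFe x x]
    exact he.symm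
  have hes : star e = e := by
    rw [he, star_sum]
    exact Finset.sum_congr rfl fun x _ => hstar x x
  have h11 : (1 - e) * (1 - e) = 1 - e := by
    rw [mul_sub, mul_one, sub_mul, one_mul, hee, sub_self, sub_zero]
  have hS1 : ∀ a : Matrix (Fin N) (Fin N) R, mn_S A F a * A.i2 (1 - e) = 0 := by
    intro a
    unfold mn_S
    rw [Finset.sum_mul]
    refine Finset.sum_eq_zero fun x _ => ?_
    rw [Finset.sum_mul]
    refine Finset.sum_eq_zero fun y _ => ?_
    rw [mul_assoc, ← map_mul, mul_sub, mul_one, hFe, sub_self, map_zero, mul_zero]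
  have h1S : ∀ a : Matrix (Fin N) (Fin N) R, A.i2 (1 - e) * mn_S A F a = 0 := by
    intro a
    unfold mn_S
    rw [Finset.mul_sum]
    refine Finset.sum_eq_zero fun x _ => ?_
    rw [Finset.mul_sum]
    refine Finset.sum_eq_zero fun y _ => ?_
    rw [← mul_assoc, ← A.comm, mul_assoc, ← map_mul, sub_mul, one_mul, heF, sub_self, map_zero, mul_zero]
  obtain ⟨P, hP⟩ : ∃ P : Matrix (Fin N) (Fin N) R → R, P = fun a => mn_S A F a + A.i2 (1 - e) := ⟨_, rfl⟩
  have hPmul : ∀ a b, P (a * b) = P a * P b := by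
    intro a b
    rw [hP]
    simp only
    rw [add_mul, mul_add, mul_add, mn_mul A F hmul, hS1, h1S, ← map_mul, h11, add_zero, zero_add]
  have hPstar : ∀ a, star (P a) = P (star a) := by
    intro a
    rw [hP]
    simp only
    rw [star_add, mn_star A F hstar, ← map_star, star_sub, star_one, hes]
  have hPone : P 1 = 1 := by
    rw [hP]
    simp only
    have h1 : mn_S A F (1 : Matrix (Fin N) (Fin N) R) = A.i2 e := by
      unfold mn_S
      rw [he, map_sum]
      refine Finset.sum_congr rfl fun x _ => ?_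
      rw [Finset.sum_eq_single x]
      · rw [Matrix.one_apply_eq, map_one, one_mul]
      · intro y _ hy
        rw [Matrix.one_apply_ne (Ne.symm hy), map_zero, zero_mul]
      · intro h
        exact absurd (Finset.mem_univ x) h
    rw [h1, ← map_add, add_sub_cancel, map_one]
  have hmem : ∀ U : unitary (Matrix (Fin N) (Fin N) R), P (U : Matrix (Fin N) (Fin N) R) ∈ unitary R := by
    intro U
    rw [Unitary.mem_iff]
    have h1 := Unitary.mem_iff.1 U.2
    constructor
    · rw [hPstar, ← hPmul, h1.1, hPone]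
    · rw [hPstar, ← hPmul, h1.2, hPone]
  refine ⟨⟨⟨fun U => ⟨P U, hmem U⟩, Subtype.ext hPone⟩, fun U V => Subtype.ext (hPmul _ _)⟩, ?_⟩
  intro U V hUV
  have h0 : P (U : Matrix (Fin N) (Fin N) R) = P (V : Matrix (Fin N) (Fin N) R) := congrArg Subtype.val hUV
  have h1 : mn_S A F ((U : Matrix (Fin N) (Fin N) R) - (V : Matrix (Fin N) (Fin N) R)) = 0 := by
    rw [mn_sub, sub_eq_zero]
    rw [hP] at h0
    exact add_right_cancel h0
  refine Subtype.ext ?_
  ext x y
  obtain ⟨c, hc⟩ : ∃ c : Matrix (Fin N) (Fin N) R, c = (U : Matrix (Fin N) (Fin N) R) - (V : Matrix (Fin N) (Fin N) R) := ⟨_, rfl⟩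
  rw [← hc] at h1
  have h2 : A.i1 (c x y) * A.i2 (F x x) = 0 := by
    have h3 := mn_left A F hmul 1 x x c
    rw [h1, mul_zero] at h3
    have h4 : (∑ w, A.i1 (1 * c x w) * A.i2 (F x w)) * A.i2 (F y x) = A.i1 (c x y) * A.i2 (F x x) := by
      rw [Finset.sum_mul, Finset.sum_eq_single y]
      · rw [one_mul, mul_assoc, ← map_mul, hmul, if_pos rfl]
      · intro w _ hw
        rw [mul_assoc, ← map_mul, hmul, if_neg hw, map_zero, mul_zero]
      · intro h
        exact absurd (Finset.mem_univ y) h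
    rw [← h4, ← h3, zero_mul]
  have h5 : c x y = 0 := by
    by_contra h
    exact A.ne _ _ h (hne x x) h2
  rw [hc, Matrix.sub_apply] at h5
  exact sub_eq_zero.1 h5

end Pool.Agent.Lib.MP_1d6fae_al
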