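import Pool.Agent.Lib.MP_1d6fae_al.ADefs

/-!
# Row PM: the path matrix

PROOF IN WORDS. Put `c i = q i` and `l x = 0` if `x = 0`, `l x = q (x - 1)` if `x ≥ 1` (the edge `i` joins `i` and `i + 1`). The tridiagonal matrix `u`: `u x y = q x` if `y = x + 1`, `q y` if `x = y + 1`, `1 - l x - q x` if `x = y`, `0` otherwise
(`x, y < N`; note `q (N - 1) = 0` as `n ≤ N - 1`). `star u = u`. `u * u = 1`: the entry `(x, x)` is `l x + (1 - l x - q x)^2 + q x = 1` (`l x * q x = 0 = q x * l x`, take `star` for the second), the entry `(x, x + 1)` is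
`(1 - l x - q x) q x + q x (1 - q x - q (x+1)) = 0`, the entry `(x, x + 2)` is `q x * q (x + 1) = 0`, the other ones are symmetric or empty sums. It commutes with the diagonal matrix of `x` if `x` commutes with all `q i`.
Entry `(0, n)` of `u D(h 0) u D(h 1) ... u D(h (n-1))`: more generally, for every `m ≤ n` and `k + m ≤ n`, the entry `(k, k + m)` of `pw m (fun _ => u) (fun i => D (h i))` is `pw m (fun i => q (k + i)) h` and the entries
`(k, y)` with `y > k + m` are `0`: induction on `m`, `(u D(h 0) W) (k, y) = ∑_x u k x * h 0 * W (x, y)`, only `x = k - 1, k, k + 1` occur, and `W (x, y) = 0` for `y > x + (m - 1)`, i.e. for `x ≤ k` and `y ≥ k + m`.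
-/

set_option autoImplicit false

namespace Pool.Agent.Lib.MP_1d6fae_al

section

variable {R : Type} [Ring R]

/-- the shifted sequence -/
private def pl (q : ℕ → R) : ℕ → R
  | 0 => 0
  | x + 1 => q x

/-- the infinite path operator on functions -/
private def pU (q : ℕ → R) (f : ℕ → R) (x : ℕ) : R :=
  pl q x * f (x - 1) + (1 - pl q x - q x) * f x + q x * f (x + 1)

/-- its matrix -/
private def pN (q : ℕ → R) (x y : ℕ) : R := pU q (fun w => if w = y then 1 else 0) x

private theorem pN_sum (q : ℕ → R) {n N : ℕ} (hN : n < N) (hn : ∀ i, n ≤ i → q i = 0) (f : ℕ → R) {x : ℕ} (hx : x < N) :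
    ∑ z ∈ Finset.range N, pN q x z * f z = pU q f x := by
  have h1 : ∀ z, pN q x z * f z = pl q x * (if x - 1 = z then f z else 0) + (1 - pl q x - q x) * (if x = z then f z else 0) +
      q x * (if x + 1 = z then f z else 0) := by
    intro z
    unfold pN pU
    simp only [add_mul, mul_assoc, ite_mul, one_mul, zero_mul]
  simp only [h1]
  rw [Finset.sum_add_distrib, Finset.sum_add_distrib, ← Finset.mul_sum, ← Finset.mul_sum, ← Finset.mul_sum,
    Finset.sum_ite_eq, Finset.sum_ite_eq, Finset.sum_ite_eq, if_pos (Finset.mem_range.2 (by omega : x - 1 < N)),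
    if_pos (Finset.mem_range.2 hx)]
  unfold pU
  congr 1
  by_cases h2 : x + 1 < N
  · rw [if_pos (Finset.mem_range.2 h2)]
  · rw [hn x (by omega), zero_mul, zero_mul]

private theorem pU_pU (q : ℕ → R) (h1 : ∀ i, q i * q i = q i) (h2 : ∀ i, q i * q (i + 1) = 0) (h3 : ∀ i, q (i + 1) * q i = 0)
    (f : ℕ → R) (x : ℕ) : pU q (pU q f) x = f x := by
  have l1 : ∀ x, pl q x * pl q x = pl q x := by
    intro x
    cases x with
    | zero => simp [pl]
    | succ x => exact h1 x
  have l2 : ∀ x, pl q x * q x = 0 := by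
    intro x
    cases x with
    | zero => simp [pl]
    | succ x => exact h2 x
  have l3 : ∀ x, q x * pl q x = 0 := by
    intro x
    cases x with
    | zero => simp [pl]
    | succ x => exact h3 x
  have e1 : pl q x * pU q f (x - 1) = pl q x * f x := by
    cases x with
    | zero => simp [pl]
    | succ x =>
      have : pl q (x + 1) = q x := rfl
      rw [this, Nat.add_sub_cancel]
      unfold pU
      rw [mul_add, mul_add, ← mul_assoc, ← mul_assoc, ← mul_assoc, l3, mul_sub, mul_sub, mul_one, l3, h1]
      simp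
  have e2 : q x * pU q f (x + 1) = q x * f x := by
    unfold pU
    have : pl q (x + 1) = q x := rfl
    rw [this, Nat.add_sub_cancel, mul_add, mul_add, ← mul_assoc, ← mul_assoc, ← mul_assoc, h1, mul_sub, mul_sub, mul_one, h1, h2]
    simp
  have e3 : (1 - pl q x - q x) * pU q f x = (1 - pl q x - q x) * f x := by
    unfold pU
    have a1 : (1 - pl q x - q x) * pl q x = 0 := by
      rw [sub_mul, sub_mul, one_mul, l1, l3]; simp
    have a2 : (1 - pl q x - q x) * q x = 0 := by
      rw [sub_mul, sub_mul, one_mul, l2, h1]; simp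
    have a3 : (1 - pl q x - q x) * (1 - pl q x - q x) = 1 - pl q x - q x := by
      rw [mul_sub, mul_sub, mul_one, a1, a2]; simp
    rw [mul_add, mul_add, ← mul_assoc, ← mul_assoc, ← mul_assoc, a1, a2, a3]
    simp
  rw [pU, e1, e2, e3, ← add_mul, ← add_mul]
  have : pl q x + (1 - pl q x - q x) + q x = 1 := by abel
  rw [this, one_mul]

private theorem pN_comm (q : ℕ → R) (x : R) (hx : ∀ i, x * q i = q i * x) (i j : ℕ) : x * pN q i j = pN q i j * x := by
  have h1 : Commute x (pl q i) := by
    cases i with
    | zero => exact Commute.zero_right x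
    | succ i => exact hx i
  have h2 : Commute x (q i) := hx i
  have h3 : ∀ (p : Prop) [Decidable p], Commute x (if p then (1 : R) else 0) := by
    intro p _
    split_ifs
    · exact Commute.one_right x
    · exact Commute.zero_right x
  have h4 : Commute x (1 - pl q i - q i) := ((Commute.one_right x).sub_right h1).sub_right h2
  exact ((h1.mul_right (h3 _)).add_right (h4.mul_right (h3 _))).add_right (h2.mul_right (h3 _))

/-- the entries of the products of the path matrix and of diagonal matrices -/
private theorem pw_entry (q : ℕ → R) {n N : ℕ} (hN : n < N) (hn : ∀ i, n ≤ i → q i = 0) (m : ℕ) :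
    ∀ (h : ℕ → R) (k y : Fin N),
      ((k : ℕ) + m < y → pw m (fun _ => (Matrix.of fun a b : Fin N => pN q a b)) (fun i => Matrix.diagonal (fun _ => h i)) k y = 0) ∧
      ((k : ℕ) + m = y → pw m (fun _ => (Matrix.of fun a b : Fin N => pN q a b)) (fun i => Matrix.diagonal (fun _ => h i)) k y =
        pw m (fun i => q (k + i)) h) := by
  induction m with
  | zero =>
    intro h k y
    refine ⟨fun hy => ?_, fun hy => ?_⟩
    · have : k ≠ y := by
        intro e
        rw [e] at hy
        omega
      simp [pw, this]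
    · have : k = y := Fin.ext (by omega)
      subst this
      simp [pw]
  | succ m ih =>
    intro h k y
    obtain ⟨W, hW⟩ : ∃ W : Matrix (Fin N) (Fin N) R, W = pw m (fun _ => (Matrix.of fun a b : Fin N => pN q a b))
      (fun i => Matrix.diagonal (fun _ => h (i + 1))) := ⟨_, rfl⟩
    obtain ⟨g, hg⟩ : ∃ g : ℕ → R, ∀ z, g z = if hz : z < N then h 0 * W ⟨z, hz⟩ y else 0 := ⟨_, fun _ => rfl⟩
    have h1 : pw (m + 1) (fun _ => (Matrix.of fun a b : Fin N => pN q a b)) (fun i => Matrix.diagonal (fun _ => h i)) k y = pU q g k := by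
      have h2 : pw (m + 1) (fun _ => (Matrix.of fun a b : Fin N => pN q a b)) (fun i => Matrix.diagonal (fun _ => h i)) =
          (Matrix.of fun a b : Fin N => pN q a b) * Matrix.diagonal (fun _ => h 0) * W := by
        rw [hW]
        rfl
      rw [h2, Matrix.mul_apply, ← pN_sum q hN hn g k.2, ← Fin.sum_univ_eq_sum_range (fun z => pN q k z * g z) N]
      refine Finset.sum_congr rfl fun z _ => ?_
      rw [Matrix.mul_diagonal, Matrix.of_apply, hg, dif_pos z.2, mul_assoc]
    have hg0 : ∀ z : ℕ, z + m < y → g z = 0 := by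
      intro z hz
      rw [hg]
      split_ifs with hzN
      · rw [hW, (ih (fun i => h (i + 1)) ⟨z, hzN⟩ y).1 hz, mul_zero]
      · rfl
    refine ⟨fun hy => ?_, fun hy => ?_⟩
    · rw [h1, pU, hg0 _ (by omega), hg0 _ (by omega), hg0 _ (by omega)]
      simp
    · have hk : (k : ℕ) + 1 < N := by
        have := y.2
        omega
      rw [h1, pU, hg0 ((k : ℕ) - 1) (by omega), hg0 (k : ℕ) (by omega), hg, dif_pos hk, hW,
        (ih (fun i => h (i + 1)) ⟨(k : ℕ) + 1, hk⟩ y).2 (by
          show (k : ℕ) + 1 + m = y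
          omega)]
      simp only [mul_zero, zero_add]
      show q k * (h 0 * pw m (fun i => q ((k : ℕ) + 1 + i)) (fun i => h (i + 1))) =
        q ((k : ℕ) + 0) * h 0 * pw m (fun i => q ((k : ℕ) + (i + 1))) (fun i => h (i + 1))
      have e : (fun i => q ((k : ℕ) + 1 + i)) = fun i => q ((k : ℕ) + (i + 1)) := by
        funext i
        congr 1
        omega
      rw [e, Nat.add_zero, mul_assoc]

end

private theorem pN_star {R : Type} [Ring R] [StarRing R] (q : ℕ → R) (hq : ∀ i, star (q i) = q i) (x y : ℕ) :
    star (pN q y x) = pN q x y := by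
  have hl : ∀ i, star (pl q i) = pl q i := by
    intro i
    cases i with
    | zero => simp [pl]
    | succ i => exact hq i
  have h1 : ∀ (p : Prop) [Decidable p] (a : R), star (a * (if p then 1 else 0)) = if p then star a else 0 := by
    intro p _ a
    split_ifs <;> simp
  have h2 : ∀ (p : Prop) [Decidable p] (a : R), a * (if p then 1 else 0) = if p then a else 0 := by
    intro p _ a
    split_ifs <;> simp
  have h3 : ∀ x y : ℕ, (if y - 1 = x then pl q y else 0) = if x + 1 = y then q x else 0 := by
    intro x y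
    cases y with
    | zero => simp [pl]
    | succ y =>
      by_cases h : y = x
      · subst h
        simp [pl]
      · rw [if_neg (by omega), if_neg (by omega)]
  unfold pN pU
  rw [star_add, star_add, h1, h1, h1, h2, h2, h2, star_sub, star_sub, star_one, hl, hq, h3 x y, ← h3 y x]
  by_cases h : y = x
  · subst h
    simp only [if_true]
    abel
  · have h' : ¬ x = y := fun e => h e.symm
    simp only [h, h', if_false]
    abel

theorem pm {R : Type} [Ring R] [StarRing R] (n N : ℕ) (hN : n < N) (q : ℕ → R) (hq : ∀ i, star (q i) = q i ∧ q i * q i = q i ∧ q i * q (i + 1) = 0)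
    (hn : ∀ i, n ≤ i → q i = 0) : ∃ u : Matrix (Fin N) (Fin N) R, star u = u ∧ u * u = 1 ∧
      (∀ x : R, (∀ i, x * q i = q i * x) → Matrix.diagonal (fun _ => x) * u = u * Matrix.diagonal (fun _ => x)) ∧
      ∀ h : ℕ → R, pw n (fun _ => u) (fun i => Matrix.diagonal (fun _ => h i)) ⟨0, by omega⟩ ⟨n, hN⟩ = pw n q h := by
  have h3 : ∀ i, q (i + 1) * q i = 0 := by
    intro i
    have := congrArg star (hq i).2.2
    rwa [star_mul, (hq i).1, (hq (i + 1)).1, star_zero] at this
  refine ⟨Matrix.of fun a b : Fin N => pN q a b, ?_, ?_, ?_, ?_⟩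
  · ext a b
    rw [Matrix.star_apply, Matrix.of_apply, Matrix.of_apply]
    exact pN_star q (fun i => (hq i).1) a b
  · ext a b
    rw [Matrix.mul_apply]
    simp only [Matrix.of_apply]
    rw [Fin.sum_univ_eq_sum_range (fun z => pN q a z * pN q z b) N, pN_sum q hN hn (fun z => pN q z b) a.2]
    have h4 : (fun z => pN q z b) = pU q (fun w => if w = (b : ℕ) then 1 else 0) := rfl
    rw [h4, pU_pU q (fun i => (hq i).2.1) (fun i => (hq i).2.2) h3, Matrix.one_apply]
    simp only [Fin.ext_iff]
  · intro x hx
    ext a b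
    rw [Matrix.diagonal_mul, Matrix.mul_diagonal, Matrix.of_apply]
    exact pN_comm q x hx a b
  · intro h
    have h5 := (pw_entry q hN hn n h ⟨0, by omega⟩ ⟨n, hN⟩).2 (by simp)
    rw [h5]
    congr 1
    funext i
    simp

end Pool.Agent.Lib.MP_1d6fae_al
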