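import Pool.Agent.Lib.MP_1d6fae_al.ADefs

/-!
# Row PT: a word is not killed by suitable projections

PROOF IN WORDS. Induction on `n` (for all `g`). `n = 0`: `φ = 1`, `q = 0`, the product is `1`, not `0` by `A.Ene` (the ring is not trivial). `n = 1`: `φ = 1` (or any), `q 0 = 1`, the other `q i = 0`; the product is a unitary.
Step `n -> n + 1`, `n ≥ 1`: the induction hypothesis for `g' i = g (i + 1)` gives `φ'`, `q'` with `P' = pw n q' (φ' g') ≠ 0`; the assumption for `i = 0` gives `φ''`, `f`. Put `f_1 = f`, `f_0 = 1 - f`. As `φ'' (g 0)` does not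
commute with `f`, `f_b * φ'' (g 0) * f_c ≠ 0` for some `b ≠ c` (else `f x (1-f) = 0 = (1-f) x f` and `f x = f x f = x f`). Put `φ g = i1 (φ' g) * i2 (φ'' g)` (a homomorphism, as the copies commute; unitary),
`q 0 = i2 f_b`, `q 1 = i1 (q' 0) * i2 f_c`, `q (i + 1) = i1 (q' i)` for `i ≥ 1`. These are projections commuting with `φ c`, `q i * q (i + 1) = 0` (`f_b * f_c = 0`; `q' i * q' (i+1) = 0`). The product is
`i1 (φ' (g 0) * P') * i2 (f_b * φ'' (g 0) * f_c * φ'' (g 1) * ... * φ'' (g n))`, both factors are not `0` (unitaries can be cancelled), so it is not `0` by `A.ne`.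
-/

set_option autoImplicit false

namespace Pool.Agent.Lib.MP_1d6fae_al

private theorem pt_cl {R : Type} [Ring R] [StarRing R] (U : unitary R) {x : R} (h : x * (U : R) = 0) : x = 0 := by
  have h1 : x * (U : R) * star (U : R) = 0 := by rw [h, zero_mul]
  rwa [mul_assoc, (Unitary.mem_iff.mp U.2).2, mul_one] at h1

private theorem pt_cl' {R : Type} [Ring R] [StarRing R] (U : unitary R) {x : R} (h : (U : R) * x = 0) : x = 0 := by
  have h1 : star (U : R) * ((U : R) * x) = 0 := by rw [h, mul_zero]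
  rwa [← mul_assoc, (Unitary.mem_iff.mp U.2).1, one_mul] at h1

private theorem pt_mem {R : Type} [Ring R] [StarRing R] [Algebra ℂ R] (f : R →⋆ₐ[ℂ] R) (x : unitary R) :
    f (x : R) ∈ unitary R := by
  rw [Unitary.mem_iff, ← map_star, ← map_mul, ← map_mul, (Unitary.mem_iff.mp x.2).1, (Unitary.mem_iff.mp x.2).2, map_one]
  exact ⟨rfl, rfl⟩

private theorem pt_one {R : Type} [Ring R] [StarRing R] (m : ℕ) : ∀ h : ℕ → unitary R,
    ∃ U : unitary R, pw m (fun _ => (1 : R)) (fun i => (h i : R)) = U := by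
  induction m with
  | zero => exact fun h => ⟨1, rfl⟩
  | succ m ih =>
    intro h
    obtain ⟨U, hU⟩ := ih (fun i => h (i + 1))
    refine ⟨h 0 * U, ?_⟩
    show 1 * (h 0 : R) * pw m (fun _ => (1 : R)) (fun i => (h (i + 1) : R)) = _
    rw [hU, one_mul]
    rfl

private theorem pt_pw {R : Type} [Ring R] [StarRing R] [Algebra ℂ R] (A : Amp R) (m : ℕ) : ∀ a b x y : ℕ → R,
    pw m (fun i => A.i1 (a i) * A.i2 (b i)) (fun i => A.i1 (x i) * A.i2 (y i)) =
      A.i1 (pw m a x) * A.i2 (pw m b y) := by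
  induction m with
  | zero =>
    intro a b x y
    show (1 : R) = A.i1 1 * A.i2 1
    rw [map_one, map_one, one_mul]
  | succ m ih =>
    intro a b x y
    show A.i1 (a 0) * A.i2 (b 0) * (A.i1 (x 0) * A.i2 (y 0)) *
      pw m (fun i => A.i1 (a (i + 1)) * A.i2 (b (i + 1))) (fun i => A.i1 (x (i + 1)) * A.i2 (y (i + 1))) =
      A.i1 (a 0 * x 0 * pw m (fun i => a (i + 1)) (fun i => x (i + 1))) *
        A.i2 (b 0 * y 0 * pw m (fun i => b (i + 1)) (fun i => y (i + 1)))
    rw [ih (fun i => a (i + 1)) (fun i => b (i + 1)) (fun i => x (i + 1)) (fun i => y (i + 1))]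
    simp only [map_mul]
    set P := A.i1 (pw m (fun i => a (i + 1)) (fun i => x (i + 1)))
    set Q := A.i2 (pw m (fun i => b (i + 1)) (fun i => y (i + 1)))
    have c1 : A.i2 (b 0) * A.i1 (x 0) = A.i1 (x 0) * A.i2 (b 0) := (A.comm _ _).symm
    have c2 : A.i2 (y 0) * P = P * A.i2 (y 0) := (A.comm _ _).symm
    have c3 : A.i2 (b 0) * P = P * A.i2 (b 0) := (A.comm _ _).symm
    calc A.i1 (a 0) * A.i2 (b 0) * (A.i1 (x 0) * A.i2 (y 0)) * (P * Q)
        = A.i1 (a 0) * (A.i2 (b 0) * A.i1 (x 0)) * (A.i2 (y 0) * P) * Q := by simp only [mul_assoc]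
      _ = A.i1 (a 0) * (A.i1 (x 0) * A.i2 (b 0)) * (P * A.i2 (y 0)) * Q := by rw [c1, c2]
      _ = A.i1 (a 0) * A.i1 (x 0) * (A.i2 (b 0) * P) * A.i2 (y 0) * Q := by simp only [mul_assoc]
      _ = A.i1 (a 0) * A.i1 (x 0) * (P * A.i2 (b 0)) * A.i2 (y 0) * Q := by rw [c3]
      _ = A.i1 (a 0) * A.i1 (x 0) * P * (A.i2 (b 0) * A.i2 (y 0) * Q) := by simp only [mul_assoc]

private theorem pt_uv {R : Type} [Ring R] {f x : R} (hx : x * f ≠ f * x) :
    f * x * (1 - f) ≠ 0 ∨ (1 - f) * x * f ≠ 0 := by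
  by_contra h
  rw [not_or, not_not, not_not] at h
  obtain ⟨h1, h2⟩ := h
  rw [mul_sub, mul_one, sub_eq_zero] at h1
  rw [sub_mul, one_mul, sub_mul, sub_eq_zero] at h2
  exact hx (h2.trans h1.symm)

theorem pt {R : Type} [Ring R] [StarRing R] [Algebra ℂ R] [StarModule ℂ R] (A : Amp R) {G : Type} [Group G] (C : Set G) (n : ℕ) (g : ℕ → G)
    (hg : ∀ i, i + 1 < n → ∃ (φ : G →* unitary R) (f : R), star f = f ∧ f * f = f ∧ (∀ c ∈ C, (φ c : R) * f = f * (φ c : R)) ∧
      (φ (g i) : R) * f ≠ f * (φ (g i) : R)) :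
    ∃ (φ : G →* unitary R) (q : ℕ → R), (∀ i, star (q i) = q i ∧ q i * q i = q i ∧ q i * q (i + 1) = 0) ∧ (∀ i, n ≤ i → q i = 0) ∧
      (∀ c ∈ C, ∀ i, (φ c : R) * q i = q i * (φ c : R)) ∧ pw n q (fun i => (φ (g i) : R)) ≠ 0 := by
  have : Nontrivial R := ⟨⟨A.E 0 0, 0, A.Ene 0 0⟩⟩
  induction n generalizing g with
  | zero =>
    exact ⟨1, fun _ => 0, fun i => ⟨star_zero R, mul_zero 0, mul_zero 0⟩, fun i _ => rfl,
      fun c _ i => by rw [mul_zero, zero_mul], one_ne_zero⟩
  | succ n ih =>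
    rcases Nat.eq_zero_or_pos n with rfl | hn
    · refine ⟨1, fun i => if i = 0 then 1 else 0, fun i => ?_, fun i hi => ?_, fun c _ i => ?_, ?_⟩
      · show star (if i = 0 then (1 : R) else 0) = (if i = 0 then 1 else 0) ∧
          (if i = 0 then (1 : R) else 0) * (if i = 0 then 1 else 0) = (if i = 0 then 1 else 0) ∧
          (if i = 0 then (1 : R) else 0) * (if i + 1 = 0 then 1 else 0) = 0
        rw [if_neg (Nat.succ_ne_zero i), mul_zero]
        split_ifs
        · exact ⟨star_one R, mul_one 1, rfl⟩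
        · exact ⟨star_zero R, mul_zero 0, rfl⟩
      · show (if i = 0 then (1 : R) else 0) = 0
        rw [if_neg (by omega)]
      · show ((1 : unitary R) : R) * _ = _ * ((1 : unitary R) : R)
        rw [OneMemClass.coe_one, one_mul, mul_one]
      · show (1 : R) * ((1 : unitary R) : R) * 1 ≠ 0
        rw [OneMemClass.coe_one, one_mul, one_mul]
        exact one_ne_zero
    · obtain ⟨φ', q', hq', hq0', hqc', hP'⟩ := ih (fun i => g (i + 1)) (fun i hi => hg (i + 1) (by omega))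
      obtain ⟨φ'', f, hf1, hf2, hfc, hfx⟩ := hg 0 (by omega)
      obtain ⟨u, v, hu, hv, huv, huc, hvc, hx⟩ : ∃ u v : R, (star u = u ∧ u * u = u) ∧ (star v = v ∧ v * v = v) ∧
          u * v = 0 ∧ (∀ c ∈ C, (φ'' c : R) * u = u * (φ'' c : R)) ∧ (∀ c ∈ C, (φ'' c : R) * v = v * (φ'' c : R)) ∧
          u * (φ'' (g 0) : R) * v ≠ 0 := by
        have hs1 : star (1 - f) = 1 - f := by rw [star_sub, star_one, hf1]
        have hs2 : (1 - f) * (1 - f) = 1 - f := by
          rw [mul_sub, mul_one, sub_mul, one_mul, hf2, sub_self, sub_zero]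
        have hs3 : f * (1 - f) = 0 := by rw [mul_sub, mul_one, hf2, sub_self]
        have hs4 : (1 - f) * f = 0 := by rw [sub_mul, one_mul, hf2, sub_self]
        have hs5 : ∀ c ∈ C, (φ'' c : R) * (1 - f) = (1 - f) * (φ'' c : R) := fun c hc => by
          rw [mul_sub, mul_one, sub_mul, one_mul, hfc c hc]
        rcases pt_uv hfx with h | h
        · exact ⟨f, 1 - f, ⟨hf1, hf2⟩, ⟨hs1, hs2⟩, hs3, hfc, hs5, h⟩
        · exact ⟨1 - f, f, ⟨hs1, hs2⟩, ⟨hf1, hf2⟩, hs4, hs5, hfc, h⟩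
      have c12 : ∀ x y, A.i2 y * A.i1 x = A.i1 x * A.i2 y := fun x y => (A.comm x y).symm
      let φ : G →* unitary R := MonoidHom.mk'
        (fun a => ⟨A.i1 (φ' a : R) * A.i2 (φ'' a : R), mul_mem (pt_mem A.i1 _) (pt_mem A.i2 _)⟩) (by
        intro a b
        refine Subtype.ext ?_
        show A.i1 (φ' (a * b) : R) * A.i2 (φ'' (a * b) : R) =
          A.i1 (φ' a : R) * A.i2 (φ'' a : R) * (A.i1 (φ' b : R) * A.i2 (φ'' b : R))
        have e1 : ((φ' (a * b) : unitary R) : R) = (φ' a : R) * (φ' b : R) := by rw [map_mul]; rfl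
        have e2 : ((φ'' (a * b) : unitary R) : R) = (φ'' a : R) * (φ'' b : R) := by rw [map_mul]; rfl
        rw [e1, e2, map_mul A.i1, map_mul A.i2]
        calc A.i1 (φ' a : R) * A.i1 (φ' b : R) * (A.i2 (φ'' a : R) * A.i2 (φ'' b : R))
            = A.i1 (φ' a : R) * (A.i1 (φ' b : R) * A.i2 (φ'' a : R)) * A.i2 (φ'' b : R) := by simp only [mul_assoc]
          _ = A.i1 (φ' a : R) * (A.i2 (φ'' a : R) * A.i1 (φ' b : R)) * A.i2 (φ'' b : R) := by rw [c12]
          _ = A.i1 (φ' a : R) * A.i2 (φ'' a : R) * (A.i1 (φ' b : R) * A.i2 (φ'' b : R)) := by simp only [mul_assoc])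
      have hφ : ∀ a : G, ((φ a : unitary R) : R) = A.i1 (φ' a : R) * A.i2 (φ'' a : R) := fun a => rfl
      let w : ℕ → R := fun i => if i = 0 then v else 1
      have hw : ∀ i, star (w i) = w i ∧ w i * w i = w i := by
        intro i
        show star (if i = 0 then v else 1) = (if i = 0 then v else 1) ∧
          (if i = 0 then v else 1) * (if i = 0 then v else 1) = (if i = 0 then v else 1)
        split_ifs
        · exact hv
        · exact ⟨star_one R, mul_one 1⟩
      have hwc : ∀ c ∈ C, ∀ i, (φ'' c : R) * w i = w i * (φ'' c : R) := by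
        intro c hc i
        show (φ'' c : R) * (if i = 0 then v else 1) = (if i = 0 then v else 1) * (φ'' c : R)
        split_ifs
        · exact hvc c hc
        · rw [mul_one, one_mul]
      let q : ℕ → R := fun i => Nat.casesOn i (A.i2 u) (fun j => A.i1 (q' j) * A.i2 (w j))
      have hq0 : q 0 = A.i2 u := rfl
      have hqs : ∀ j, q (j + 1) = A.i1 (q' j) * A.i2 (w j) := fun j => rfl
      refine ⟨φ, q, fun i => ⟨?_, ?_, ?_⟩, fun i hi => ?_, fun c hc i => ?_, ?_⟩
      · cases i with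
        | zero => rw [hq0, ← map_star, hu.1]
        | succ j => rw [hqs, star_mul, ← map_star, ← map_star, (hq' j).1, (hw j).1, c12]
      · cases i with
        | zero => rw [hq0, ← map_mul, hu.2]
        | succ j =>
          rw [hqs]
          calc A.i1 (q' j) * A.i2 (w j) * (A.i1 (q' j) * A.i2 (w j))
              = A.i1 (q' j) * (A.i2 (w j) * A.i1 (q' j)) * A.i2 (w j) := by simp only [mul_assoc]
            _ = A.i1 (q' j) * (A.i1 (q' j) * A.i2 (w j)) * A.i2 (w j) := by rw [c12]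
            _ = A.i1 (q' j) * A.i1 (q' j) * (A.i2 (w j) * A.i2 (w j)) := by simp only [mul_assoc]
            _ = A.i1 (q' j) * A.i2 (w j) := by rw [← map_mul, ← map_mul, (hq' j).2.1, (hw j).2]
      · cases i with
        | zero =>
          show q 0 * q 1 = 0
          have h1 : q 1 = A.i1 (q' 0) * A.i2 v := rfl
          rw [hq0, h1, ← mul_assoc, c12, mul_assoc, ← map_mul, huv, map_zero, mul_zero]
        | succ j =>
          rw [hqs, hqs (j + 1)]
          calc A.i1 (q' j) * A.i2 (w j) * (A.i1 (q' (j + 1)) * A.i2 (w (j + 1)))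
              = A.i1 (q' j) * (A.i2 (w j) * A.i1 (q' (j + 1))) * A.i2 (w (j + 1)) := by simp only [mul_assoc]
            _ = A.i1 (q' j) * (A.i1 (q' (j + 1)) * A.i2 (w j)) * A.i2 (w (j + 1)) := by rw [c12]
            _ = A.i1 (q' j) * A.i1 (q' (j + 1)) * (A.i2 (w j) * A.i2 (w (j + 1))) := by simp only [mul_assoc]
            _ = 0 := by rw [← map_mul, (hq' j).2.2, map_zero, zero_mul]
      · obtain ⟨j, rfl⟩ : ∃ j, i = j + 1 := ⟨i - 1, by omega⟩
        rw [hqs, hq0' j (by omega), map_zero, zero_mul]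
      · rw [hφ]
        cases i with
        | zero =>
          rw [hq0, mul_assoc, ← map_mul, huc c hc, map_mul, ← mul_assoc, A.comm, mul_assoc]
        | succ j =>
          rw [hqs]
          calc A.i1 (φ' c : R) * A.i2 (φ'' c : R) * (A.i1 (q' j) * A.i2 (w j))
              = A.i1 (φ' c : R) * (A.i2 (φ'' c : R) * A.i1 (q' j)) * A.i2 (w j) := by simp only [mul_assoc]
            _ = A.i1 (φ' c : R) * (A.i1 (q' j) * A.i2 (φ'' c : R)) * A.i2 (w j) := by rw [c12]
            _ = A.i1 (φ' c : R) * A.i1 (q' j) * (A.i2 (φ'' c : R) * A.i2 (w j)) := by simp only [mul_assoc]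
            _ = A.i1 (q' j) * A.i1 (φ' c : R) * (A.i2 (w j) * A.i2 (φ'' c : R)) := by
                rw [← map_mul, ← map_mul, hqc' c hc j, hwc c hc j, map_mul, map_mul]
            _ = A.i1 (q' j) * (A.i1 (φ' c : R) * A.i2 (w j)) * A.i2 (φ'' c : R) := by simp only [mul_assoc]
            _ = A.i1 (q' j) * (A.i2 (w j) * A.i1 (φ' c : R)) * A.i2 (φ'' c : R) := by rw [c12]
            _ = A.i1 (q' j) * A.i2 (w j) * (A.i1 (φ' c : R) * A.i2 (φ'' c : R)) := by simp only [mul_assoc]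
      · obtain ⟨m, rfl⟩ : ∃ m, n = m + 1 := ⟨n - 1, by omega⟩
        have h1 : pw (m + 1 + 1) q (fun i => (φ (g i) : R)) =
            A.i2 u * (A.i1 (φ' (g 0) : R) * A.i2 (φ'' (g 0) : R)) *
              pw (m + 1) (fun i => A.i1 (q' i) * A.i2 (w i))
                (fun i => A.i1 (φ' (g (i + 1)) : R) * A.i2 (φ'' (g (i + 1)) : R)) := rfl
        rw [h1, pt_pw A (m + 1) q' w (fun i => (φ' (g (i + 1)) : R)) (fun i => (φ'' (g (i + 1)) : R))]
        obtain ⟨V, hV⟩ := pt_one m (fun i => φ'' (g (i + 1 + 1)))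
        have h2 : pw (m + 1) w (fun i => (φ'' (g (i + 1)) : R)) = v * (φ'' (g (0 + 1)) : R) * (V : R) := by
          rw [← hV]
          rfl
        rw [h2]
        set P' := pw (m + 1) q' (fun i => (φ' (g (i + 1)) : R)) with hP'd
        have h3 : A.i2 u * (A.i1 (φ' (g 0) : R) * A.i2 (φ'' (g 0) : R)) *
            (A.i1 P' * A.i2 (v * (φ'' (g (0 + 1)) : R) * (V : R))) =
            A.i1 ((φ' (g 0) : R) * P') * A.i2 (u * (φ'' (g 0) : R) * v * (φ'' (g (0 + 1)) : R) * (V : R)) := by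
          simp only [map_mul]
          calc A.i2 u * (A.i1 (φ' (g 0) : R) * A.i2 (φ'' (g 0) : R)) *
                (A.i1 P' * (A.i2 v * A.i2 (φ'' (g (0 + 1)) : R) * A.i2 (V : R)))
              = (A.i2 u * A.i1 (φ' (g 0) : R)) * (A.i2 (φ'' (g 0) : R) * A.i1 P') *
                  (A.i2 v * A.i2 (φ'' (g (0 + 1)) : R) * A.i2 (V : R)) := by simp only [mul_assoc]
            _ = (A.i1 (φ' (g 0) : R) * A.i2 u) * (A.i1 P' * A.i2 (φ'' (g 0) : R)) *
                  (A.i2 v * A.i2 (φ'' (g (0 + 1)) : R) * A.i2 (V : R)) := by rw [c12, c12]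
            _ = A.i1 (φ' (g 0) : R) * (A.i2 u * A.i1 P') * A.i2 (φ'' (g 0) : R) *
                  (A.i2 v * A.i2 (φ'' (g (0 + 1)) : R) * A.i2 (V : R)) := by simp only [mul_assoc]
            _ = A.i1 (φ' (g 0) : R) * (A.i1 P' * A.i2 u) * A.i2 (φ'' (g 0) : R) *
                  (A.i2 v * A.i2 (φ'' (g (0 + 1)) : R) * A.i2 (V : R)) := by rw [c12]
            _ = A.i1 (φ' (g 0) : R) * A.i1 P' * (A.i2 u * A.i2 (φ'' (g 0) : R) * A.i2 v *
                  A.i2 (φ'' (g (0 + 1)) : R) * A.i2 (V : R)) := by simp only [mul_assoc]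
        rw [h3]
        refine A.ne _ _ ?_ ?_
        · exact fun h => hP' (pt_cl' _ h)
        · exact fun h => hx (pt_cl _ (pt_cl _ h))

end Pool.Agent.Lib.MP_1d6fae_al
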