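import Pool.Agent.Lib.MP_1d6fae_al.PA
import Pool.Agent.Lib.MP_1d6fae_al.PT
import Pool.Agent.Lib.MP_1d6fae_al.PM
import Pool.Agent.Lib.MP_1d6fae_al.MN

/-!
# Row KK: the key lemma

PROOF IN WORDS. The assumption gives for every `i` with `i + 1 < n` a homomorphism `ψ` and a unitary `a`; `pa A a` gives the projection `f`, and `i1 ∘ ψ` (as a homomorphism into the unitary group: `Unitary.map` of `A.i1`) and `f` satisfy the
assumption of `pt` (`C`, `n`, `g`). `pt` gives `φ'`, `q`; `pm n (n + 1)` gives the matrix `u'`, `mn A (n + 1)` the injective `Φ`. Put `u = Φ u'`, `φ g = Φ (diagonal (φ' g))`. `u * u = 1`; `u` commutes with `φ c`. The word `φ g0 * pw n u (φ g)` is the image under `Φ` of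
`D(g0) * pw n u' (D (g i))`; if it were `1`, the entry `(0, n)` (`n ≥ 1`) would be `0`, but it is `φ' g0 * pw n q (φ' (g i)) ≠ 0`.
-/

set_option autoImplicit false

namespace Pool.Agent.Lib.MP_1d6fae_al

private theorem kk_pw {M N : Type} [Monoid M] [Monoid N] (f : M →* N) : ∀ (n : ℕ) (q h : ℕ → M),
    f (pw n q h) = pw n (fun i => f (q i)) (fun i => f (h i))
  | 0, _, _ => map_one f
  | n + 1, q, h => by
    change f (q 0 * h 0 * pw n (fun i => q (i + 1)) (fun i => h (i + 1))) = _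
    rw [map_mul, map_mul, kk_pw f n]
    rfl

/-- the diagonal matrices -/
private def kk_D {R : Type} [Ring R] [StarRing R] (N : ℕ) : unitary R →* unitary (Matrix (Fin N) (Fin N) R) where
  toFun x := ⟨Matrix.diagonal (fun _ => (x : R)), by
    rw [Unitary.mem_iff]
    have h1 := Unitary.mem_iff.1 x.2
    rw [Matrix.star_eq_conjTranspose, Matrix.diagonal_conjTranspose, Matrix.diagonal_mul_diagonal, Matrix.diagonal_mul_diagonal]
    constructor
    · rw [← Matrix.diagonal_one]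
      congr 1
      funext i
      exact h1.1
    · rw [← Matrix.diagonal_one]
      congr 1
      funext i
      exact h1.2⟩
  map_one' := Subtype.ext (by
    change Matrix.diagonal (fun _ => ((1 : unitary R) : R)) = 1
    rw [← Matrix.diagonal_one]
    rfl)
  map_mul' x y := Subtype.ext (by
    change Matrix.diagonal (fun _ => ((x * y : unitary R) : R)) = Matrix.diagonal (fun _ => (x : R)) * Matrix.diagonal (fun _ => (y : R))
    rw [Matrix.diagonal_mul_diagonal]
    rfl)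

theorem kk {R : Type} [Ring R] [StarRing R] [Algebra ℂ R] [StarModule ℂ R] (A : Amp R) {G : Type} [Group G] (C : Set G) (n : ℕ) (hn : 1 ≤ n) (g : ℕ → G)
    (hg : ∀ i, i + 1 < n → ∃ (φ : G →* unitary R) (a : unitary R), (∀ c ∈ C, φ c * a = a * φ c) ∧ φ (g i) * a ≠ a * φ (g i)) :
    ∃ (φ : G →* unitary R) (u : unitary R), u * u = 1 ∧ (∀ c ∈ C, φ c * u = u * φ c) ∧ ∀ g0 : G, φ g0 * pw n (fun _ => u) (fun i => φ (g i)) ≠ 1 := by
  have hN : n < n + 1 := Nat.lt_succ_self n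
  have hpt : ∀ i, i + 1 < n → ∃ (φ : G →* unitary R) (f : R), star f = f ∧ f * f = f ∧ (∀ c ∈ C, (φ c : R) * f = f * (φ c : R)) ∧
      (φ (g i) : R) * f ≠ f * (φ (g i) : R) := by
    intro i hi
    obtain ⟨ψ, a, h1, h2⟩ := hg i hi
    obtain ⟨f, hf1, hf2, hf3⟩ := pa A a
    obtain ⟨m, hm⟩ : ∃ m : R →⋆* R, ∀ x, m x = A.i1 x := ⟨⟨⟨⟨A.i1, map_one A.i1⟩, map_mul A.i1⟩, map_star A.i1⟩, fun _ => rfl⟩
    have hm2 : ∀ x, (((Unitary.map m).toMonoidHom.comp ψ x : unitary R) : R) = A.i1 (ψ x : R) := fun x => hm _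
    refine ⟨(Unitary.map m).toMonoidHom.comp ψ, f, hf1, hf2, ?_, ?_⟩
    · intro c hc
      rw [hm2]
      exact (hf3 (ψ c)).2 (congrArg Subtype.val (h1 c hc))
    · intro h
      rw [hm2] at h
      exact h2 (Subtype.ext ((hf3 _).1 h))
  obtain ⟨φ', q, hq, hqn, hqc, hqp⟩ := pt A C n g hpt
  obtain ⟨u', hs, hu, hc, hp⟩ := pm n (n + 1) hN q hq hqn
  obtain ⟨Φ, hΦ⟩ := mn A (n + 1)
  obtain ⟨U, hU⟩ : ∃ U : unitary (Matrix (Fin (n + 1)) (Fin (n + 1)) R), (U : Matrix (Fin (n + 1)) (Fin (n + 1)) R) = u' :=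
    ⟨⟨u', by rw [Unitary.mem_iff, hs]; exact ⟨hu, hu⟩⟩, rfl⟩
  have hD : ∀ x : unitary R, ((kk_D (n + 1) x : unitary (Matrix (Fin (n + 1)) (Fin (n + 1)) R)) : Matrix (Fin (n + 1)) (Fin (n + 1)) R)
      = Matrix.diagonal (fun _ => (x : R)) := fun _ => rfl
  refine ⟨Φ.comp ((kk_D (n + 1)).comp φ'), Φ U, ?_, ?_, ?_⟩
  · rw [← map_mul, ← map_one Φ]
    congr 1
    refine Subtype.ext ?_
    change (U : Matrix (Fin (n + 1)) (Fin (n + 1)) R) * (U : Matrix (Fin (n + 1)) (Fin (n + 1)) R) = 1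
    rw [hU, hu]
  · intro c hcC
    change Φ (kk_D (n + 1) (φ' c)) * Φ U = Φ U * Φ (kk_D (n + 1) (φ' c))
    rw [← map_mul, ← map_mul]
    congr 1
    refine Subtype.ext ?_
    change (kk_D (n + 1) (φ' c) : Matrix (Fin (n + 1)) (Fin (n + 1)) R) * (U : Matrix (Fin (n + 1)) (Fin (n + 1)) R)
      = (U : Matrix (Fin (n + 1)) (Fin (n + 1)) R) * (kk_D (n + 1) (φ' c) : Matrix (Fin (n + 1)) (Fin (n + 1)) R)
    rw [hU, hD]
    exact hc _ (hqc c hcC)
  · intro g0 h0
    have h1 : Φ (kk_D (n + 1) (φ' g0) * pw n (fun _ => U) (fun i => kk_D (n + 1) (φ' (g i)))) = Φ 1 := by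
      rw [map_mul, kk_pw, map_one]
      exact h0
    have h2 := congrArg Subtype.val (hΦ h1)
    have h3 : (Matrix.diagonal (fun _ => ((φ' g0 : unitary R) : R)) : Matrix (Fin (n + 1)) (Fin (n + 1)) R) *
        pw n (fun _ => u') (fun i => Matrix.diagonal (fun _ => ((φ' (g i) : unitary R) : R))) = 1 := by
      have h4 := kk_pw (unitary (Matrix (Fin (n + 1)) (Fin (n + 1)) R)).subtype n (fun _ => U) (fun i => kk_D (n + 1) (φ' (g i)))
      have h5 : (Matrix.diagonal (fun _ => ((φ' g0 : unitary R) : R)) : Matrix (Fin (n + 1)) (Fin (n + 1)) R) *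
        (unitary (Matrix (Fin (n + 1)) (Fin (n + 1)) R)).subtype (pw n (fun _ => U) (fun i => kk_D (n + 1) (φ' (g i)))) = 1 := h2
      rw [h4] at h5
      rw [← hU]
      exact h5
    have h4 := congrFun (congrFun h3 ⟨0, by omega⟩) ⟨n, hN⟩
    rw [Matrix.diagonal_mul, hp, Matrix.one_apply_ne (by
      intro h
      have := congrArg Fin.val h
      simp only at this
      omega)] at h4
    have h5 : star ((φ' g0 : unitary R) : R) * (((φ' g0 : unitary R) : R) * pw n q (fun i => ((φ' (g i) : unitary R) : R))) = 0 := by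
      rw [h4, mul_zero]
    rw [← mul_assoc, Unitary.star_mul_self_of_mem (φ' g0).2, one_mul] at h5
    exact hqp h5

end Pool.Agent.Lib.MP_1d6fae_al
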