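import Pool.Agent.Lib.MP_1d6fae_al.ADefs

/-!
# Row MU: matrix units of every size (not necessarily with sum `1`)

PROOF IN WORDS. Enough for `N = 2^r` (restrict to `Fin N` with `N ≤ 2^r`, `Nat.lt_two_pow_self`), and there by induction on `r` for the index type `Fin (2^r)` (or for any type `T r` with `T 0 = Unit`, `T (r+1) = Fin 2 × T r` and an injection `Fin N → T r`):
`r = 0`: `F = 1`. Step: `F' (i, x) (j, y) = i1 (E i j) * i2 (F x y)`: the relations follow from `A.comm`, `A.Emul`, `A.Estar`, and `F' ≠ 0` from `A.ne`, `A.Ene`. (`N = 0`: nothing to do.) `1 ≠ 0` in `R` by `A.Ene`.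
-/

set_option autoImplicit false

namespace Pool.Agent.Lib.MP_1d6fae_al

/-- existence of a system of nonzero matrix units indexed by `ι` -/
private def HasMU (R : Type) [Ring R] [StarRing R] (ι : Type) [DecidableEq ι] : Prop :=
  ∃ F : ι → ι → R, (∀ i j k l, F i j * F k l = if j = k then F i l else 0) ∧ (∀ i j, star (F i j) = F j i) ∧
    ∀ i j, F i j ≠ 0

private theorem hasMU_inj {R : Type} [Ring R] [StarRing R] {ι κ : Type} [DecidableEq ι] [DecidableEq κ]
    (f : κ → ι) (hf : Function.Injective f) (h : HasMU R ι) : HasMU R κ := by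
  obtain ⟨F, h1, h2, h3⟩ := h
  refine ⟨fun i j => F (f i) (f j), fun i j k l => ?_, fun i j => h2 _ _, fun i j => h3 _ _⟩
  rw [h1]
  by_cases hjk : j = k
  · rw [if_pos hjk, if_pos (by rw [hjk])]
  · rw [if_neg hjk, if_neg fun e => hjk (hf e)]

private theorem hasMU_step {R : Type} [Ring R] [StarRing R] [Algebra ℂ R] (A : Amp R) {ι : Type} [DecidableEq ι]
    (h : HasMU R ι) : HasMU R (Fin 2 × ι) := by
  obtain ⟨F, h1, h2, h3⟩ := h
  refine ⟨fun p q => A.i1 (A.E p.1 q.1) * A.i2 (F p.2 q.2), ?_, ?_, ?_⟩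
  · rintro ⟨i, x⟩ ⟨j, y⟩ ⟨k, z⟩ ⟨l, w⟩
    show A.i1 (A.E i j) * A.i2 (F x y) * (A.i1 (A.E k l) * A.i2 (F z w)) =
      if ((j, y) : Fin 2 × ι) = (k, z) then A.i1 (A.E i l) * A.i2 (F x w) else 0
    have e : A.i1 (A.E i j) * A.i2 (F x y) * (A.i1 (A.E k l) * A.i2 (F z w)) =
        A.i1 (A.E i j * A.E k l) * A.i2 (F x y * F z w) := by
      rw [map_mul, map_mul, mul_assoc, ← mul_assoc (A.i2 (F x y)), ← A.comm, mul_assoc, mul_assoc]
    rw [e, A.Emul, h1]
    by_cases hjk : j = k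
    · by_cases hyz : y = z
      · rw [if_pos hjk, if_pos hyz, if_pos (by rw [hjk, hyz])]
      · rw [if_neg hyz, if_neg (fun he => hyz (Prod.ext_iff.1 he).2), map_zero, mul_zero]
    · rw [if_neg hjk, if_neg (fun he => hjk (Prod.ext_iff.1 he).1), map_zero, zero_mul]
  · rintro ⟨i, x⟩ ⟨j, y⟩
    show star (A.i1 (A.E i j) * A.i2 (F x y)) = A.i1 (A.E j i) * A.i2 (F y x)
    rw [star_mul, ← map_star, ← map_star, A.Estar, h2, A.comm]
  · rintro ⟨i, x⟩ ⟨j, y⟩
    exact A.ne _ _ (A.Ene _ _) (h3 _ _)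

private theorem hasMU_pow {R : Type} [Ring R] [StarRing R] [Algebra ℂ R] (A : Amp R) :
    ∀ r : ℕ, HasMU R (Fin (2 ^ r)) := by
  intro r
  induction r with
  | zero =>
    have h10 : (1 : R) ≠ 0 := by
      intro h
      apply A.Ene 0 0
      calc A.E 0 0 = A.E 0 0 * 1 := (mul_one _).symm
        _ = 0 := by rw [h, mul_zero]
    refine ⟨fun _ _ => 1, fun i j k l => ?_, fun i j => star_one R, fun i j => h10⟩
    have hjk : j = k := by
      apply Fin.ext
      have h1 := j.2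
      have h2 := k.2
      simp only [pow_zero] at h1 h2
      omega
    rw [if_pos hjk, mul_one]
  | succ r ih =>
    have h := hasMU_step A ih
    have e : Fin (2 ^ (r + 1)) ≃ Fin 2 × Fin (2 ^ r) :=
      (finCongr (by rw [pow_succ, mul_comm])).trans finProdFinEquiv.symm
    exact hasMU_inj e e.injective h

theorem mu {R : Type} [Ring R] [StarRing R] [Algebra ℂ R] [StarModule ℂ R] (A : Amp R) (N : ℕ) : ∃ F : Fin N → Fin N → R,
    (∀ i j k l, F i j * F k l = if j = k then F i l else 0) ∧ (∀ i j, star (F i j) = F j i) ∧ ∀ i j, F i j ≠ 0 := by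
  have h := hasMU_inj (R := R) (Fin.castLE (Nat.lt_two_pow_self (n := N)).le) (Fin.castLE_injective _) (hasMU_pow A N)
  exact h

end Pool.Agent.Lib.MP_1d6fae_al
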