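import Pool.Agent.Lib.MP_1d6fae_al.CDefs

/-!
# MP_1d6fae_al: the definitions used in the final statement
-/

set_option autoImplicit false

open Filter Topology

namespace Pool.Agent.Lib.MP_1d6fae_al

/-- the group of all surjective linear isometries of `l^2(V)` -/
def U0 : Type := L2 V ≃ₗᵢ[ℂ] L2 V

noncomputable instance instGroupU0 : Group U0 := inferInstanceAs (Group (L2 V ≃ₗᵢ[ℂ] L2 V))

/-- the value of `u ξ` at `x` -/
noncomputable def val (u : U0) (ξ : L2 V) (x : V) : ℂ := (show L2 V ≃ₗᵢ[ℂ] L2 V from u) ξ x

/-- the set of all right twisted translations `r`: `(r ξ) x = sg (x + v) v * ξ (x + v)` for some `v ∈ V` -/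
def RT : Set U0 := {r | ∃ v : V, ∀ (ξ : L2 V) (x : V), val r ξ x = sg (x + v) v * ξ (x + v)}

/-- the unitary group of the hyperfinite factor `R`: the centralizer of the right twisted translations -/
def UG : Type := Subgroup.centralizer RT

noncomputable instance instGroupUG : Group UG := inferInstanceAs (Group (Subgroup.centralizer RT))

/-- the element of `UG` as an isometry -/
def toU0 (u : UG) : U0 := (show Subgroup.centralizer RT from u).1

/-- `G` embeds in `UG` -/
def EmbG (G : Type) [Group G] : Prop := ∃ φ : G →* UG, Function.Injective φ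

/-- the homomorphisms from `P` to `UG` separate the points of `G` (with respect to `j : G → P`) -/
def SepIn {G P : Type} [Group G] [Group P] (j : G →* P) : Prop := ∀ g : G, g ≠ 1 → ∃ φ : P →* UG, φ (j g) ≠ 1

/-- the subgroup `C` of `G` is closed with respect to the homomorphisms from `P` to `UG` and `j : G → P`: for `g ∉ C` there are a homomorphism
`φ : P → UG` and `u ∈ UG` commuting with `φ(j(C))` and not with `φ(j(g))` -/
def ClosedIn {G P : Type} [Group G] [Group P] (j : G →* P) (C : Subgroup G) : Prop :=
  ∀ g : G, g ∉ C → ∃ (φ : P →* UG) (u : UG), (∀ c ∈ C, φ (j c) * u = u * φ (j c)) ∧ φ (j g) * u ≠ u * φ (j g)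

/-- the homomorphisms to `UG` separate the points of `G` -/
def SepG (G : Type) [Group G] : Prop := SepIn (MonoidHom.id G)

/-- the subgroup `C` is closed in `G` -/
def ClosedG {G : Type} [Group G] (C : Subgroup G) : Prop := ClosedIn (MonoidHom.id G) C

/-- the extension `<G, t | [t, C] = 1>` -/
abbrev Ext {G : Type} [Group G] (C : Subgroup G) : Type := HNNExtension G C C (MulEquiv.refl C)

/-- the double of `G` along `C` -/
abbrev Dbl {G : Type} [Group G] (C : Subgroup G) : Type := Monoid.PushoutI (fun _ : Bool => C.subtype)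

/-- the criterion for the amalgamated product `P` of the groups `G i` over `H`: the homomorphisms from `P` to `UG` separate the points of every
`G i`, and `H` is closed in every `G i` with respect to them -/
def CritG {ι : Type} {G : ι → Type} [∀ i, Group (G i)] {H : Type} [Group H] (φ : ∀ i, H →* G i) : Prop :=
  ∀ i, SepIn (Monoid.PushoutI.of (φ := φ) i) ∧ ClosedIn (Monoid.PushoutI.of (φ := φ) i) (φ i).range

/-- the `2`-norm distance `‖(u - v) δ_0‖` -/
noncomputable def dist2 (u v : UG) : ℝ :=
  ‖(show L2 V ≃ₗᵢ[ℂ] L2 V from toU0 u) (dl 0) - (show L2 V ≃ₗᵢ[ℂ] L2 V from toU0 v) (dl 0)‖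

/-- `G` embeds in the metric ultrapower of `UG` with respect to `F`: there are maps of `G` into the sequences of elements of `UG` which are
multiplicative and injective modulo the sequences which tend to `1` along `F` -/
def UltraG (F : Ultrafilter ℕ) (G : Type) [Group G] : Prop :=
  ∃ φ : G → ℕ → UG, (∀ g h, Tendsto (fun n => dist2 (φ (g * h) n) (φ g n * φ h n)) F (𝓝 0)) ∧
    ∀ g, g ≠ 1 → ¬ Tendsto (fun n => dist2 (φ g n) 1) F (𝓝 0)

/-- Q1 for the group `G` -/
def QG (F : Ultrafilter ℕ) (G : Type) [Group G] : Prop := UltraG F G → EmbG G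

end Pool.Agent.Lib.MP_1d6fae_al
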