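import Pool.Agent.Lib.MP_1d6fae_al.TD

/-!
# Row RH: the cocycle and the right translations

PROOF IN WORDS. `chi (a + b) = chi a * chi b` (two elements: decide). `bl` is additive in both arguments (`Finsupp.sum_add_index'`; `Finsupp.sum` of sums), so `sg` is multiplicative. `bl v w = bl (eV v).1 (eV w).1 + bl (eV v).2 (eV w).2`: both sides are sums over the coordinates, the coordinates of
`(eV v).1`, `(eV v).2` are those of `v` at `natSumNatEquivNat (inl i)`, `(inr i)` (or: both sides are biadditive in `v`, `w`; check on `Finsupp.single`). `v + v = 0` in `V`. `rhd`: `(rho v (dl w)) x = sg (x + v) v * dl w (x + v)`, not zero only for `x = w + v`. `rht`: evaluate at `x`, `eV (x + v) = eV x + eV v`, `sg` splits.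
-/

set_option autoImplicit false

namespace Pool.Agent.Lib.MP_1d6fae_al

private theorem chi_zero : chi 0 = 1 := if_pos rfl

private theorem chi_one : chi 1 = -1 := if_neg (by decide)

private theorem z2 : ∀ a : ZMod 2, a = 0 ∨ a = 1 := by decide

private theorem chi_add (a b : ZMod 2) : chi (a + b) = chi a * chi b := by
  rcases z2 a with rfl | rfl <;> rcases z2 b with rfl | rfl
  · rw [add_zero, chi_zero, one_mul]
  · rw [zero_add, chi_zero, one_mul]
  · rw [add_zero, chi_zero, mul_one]
  · rw [show (1 + 1 : ZMod 2) = 0 by decide, chi_zero, chi_one]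
    norm_num

private theorem chi_sq (a : ZMod 2) : chi a * chi a = 1 := by
  rcases z2 a with rfl | rfl
  · rw [chi_zero, one_mul]
  · rw [chi_one]
    norm_num

private theorem bl_l (v w x : V) : bl (v + w) x = bl v x + bl w x := by
  unfold bl
  refine Finsupp.sum_add_index' (fun i => by simp) (fun i a b => ?_)
  rw [Prod.fst_add, add_mul]

private theorem bl_r (v w x : V) : bl v (w + x) = bl v w + bl v x := by
  unfold bl
  rw [← Finsupp.sum_add]
  refine Finsupp.sum_congr fun i _ => ?_
  rw [Finsupp.add_apply, Prod.snd_add, mul_add]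

private theorem bl_zl (x : V) : bl 0 x = 0 := by
  unfold bl
  exact Finsupp.sum_zero_index

private theorem bl_single (i : ℕ) (a : ZMod 2 × ZMod 2) (w : V) : bl (Finsupp.single i a) w = a.1 * (w i).2 := by
  unfold bl
  exact Finsupp.sum_single_index (by simp)

private theorem eV_one (w : V) (j : ℕ) : (eV w).1 j = w (Equiv.natSumNatEquivNat (Sum.inl j)) := rfl

private theorem eV_two (w : V) (j : ℕ) : (eV w).2 j = w (Equiv.natSumNatEquivNat (Sum.inr j)) := rfl

private theorem eV_inl (j : ℕ) (a : ZMod 2 × ZMod 2) :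
    eV (Finsupp.single (Equiv.natSumNatEquivNat (Sum.inl j)) a) = (Finsupp.single j a, 0) := by
  refine Prod.ext ?_ ?_
  · ext1 k
    rw [eV_one, Finsupp.single_apply, Finsupp.single_apply]
    simp
  · ext1 k
    rw [eV_two, Finsupp.single_apply]
    simp
    intro h
    omega

private theorem eV_inr (j : ℕ) (a : ZMod 2 × ZMod 2) :
    eV (Finsupp.single (Equiv.natSumNatEquivNat (Sum.inr j)) a) = (0, Finsupp.single j a) := by
  refine Prod.ext ?_ ?_
  · ext1 k
    rw [eV_one, Finsupp.single_apply]
    simp
    intro h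
    omega
  · ext1 k
    rw [eV_two, Finsupp.single_apply, Finsupp.single_apply]
    simp

private theorem bl_e (v w : V) : bl v w = bl (eV v).1 (eV w).1 + bl (eV v).2 (eV w).2 := by
  induction v using Finsupp.induction_linear with
  | zero => simp [bl_zl]
  | add f g hf hg =>
    rw [bl_l, hf, hg, map_add, Prod.fst_add, Prod.snd_add, bl_l, bl_l]
    ring
  | single i a =>
    obtain ⟨s, rfl⟩ := Equiv.natSumNatEquivNat.surjective i
    rcases s with j | j
    · rw [eV_inl, bl_zl, bl_single, bl_single, eV_one, add_zero]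
    · rw [eV_inr, bl_zl, bl_single, bl_single, eV_two, zero_add]

theorem sg_l (v w x : V) : sg (v + w) x = sg v x * sg w x := by
  unfold sg
  rw [bl_l, chi_add]

theorem sg_r (v w x : V) : sg v (w + x) = sg v w * sg v x := by
  unfold sg
  rw [bl_r, chi_add]

theorem sg_e (v w : V) : sg v w = sg (eV v).1 (eV w).1 * sg (eV v).2 (eV w).2 := by
  unfold sg
  rw [bl_e, chi_add]

theorem v2 (v : V) : v + v = 0 := by
  ext1 i
  rw [Finsupp.add_apply, Finsupp.zero_apply]
  exact Prod.ext (CharTwo.add_self_eq_zero _) (CharTwo.add_self_eq_zero _)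

private theorem rho_apply (v : V) (f : L2 V) (x : V) : rho v f x = sg (x + v) v * f (x + v) := rfl

open Classical in
private theorem dl_self {α : Type} (a : α) : (dl a : L2 α) a = 1 := by
  unfold dl
  exact lp.single_apply_self _ _ _

open Classical in
private theorem dl_ne {α : Type} {a b : α} (h : b ≠ a) : (dl a : L2 α) b = 0 := by
  unfold dl
  exact lp.single_apply_ne _ _ _ h

theorem rhd (v w : V) : rho v (dl w) = sg w v • dl (w + v) := by
  ext x
  rw [rho_apply]
  have h : x = w + v ↔ x + v = w := by
    constructor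
    · rintro rfl
      rw [add_assoc, v2, add_zero]
    · rintro rfl
      rw [add_assoc, v2, add_zero]
  rw [lp.coeFn_smul, Pi.smul_apply, smul_eq_mul]
  by_cases hx : x + v = w
  · rw [hx, h.2 hx, dl_self, dl_self]
  · rw [dl_ne hx, dl_ne fun hc => hx (h.1 hc), mul_zero, mul_zero]

theorem rht (v : V) (f g : L2 V) : rho v (tv eV.toEquiv f g) = tv eV.toEquiv (rho (eV v).1 f) (rho (eV v).2 g) := by
  ext x
  rw [rho_apply, tv_apply, tv_apply, rho_apply, rho_apply]
  have h : eV.toEquiv (x + v) = ((eV x).1 + (eV v).1, (eV x).2 + (eV v).2) := map_add eV x v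
  have h2 : eV.toEquiv x = eV x := rfl
  rw [sg_e, h, h2, map_add, Prod.fst_add, Prod.snd_add]
  ring

theorem rhn (v : V) (f : L2 V) : ‖rho v f‖ = ‖f‖ := spF_norm _ _ (fun _ => norm_chi _) f

private theorem rho_sq (v : V) : rho v * rho v = sg v v • 1 := by
  ext f x
  change rho v (rho v f) x = (sg v v • f : L2 V) x
  rw [rho_apply, rho_apply, lp.coeFn_smul, Pi.smul_apply, smul_eq_mul, add_assoc, v2, add_zero, sg_l]
  have := chi_sq (bl x v)
  unfold sg
  linear_combination (chi (bl v v) * f x) * this

private theorem rho_star (v : V) : star (rho v) = sg v v • rho v := by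
  have h1 : star (rho v) * rho v = 1 := (ContinuousLinearMap.norm_map_iff_adjoint_comp_self (rho v)).1 (rhn v)
  have h2 : sg v v * sg v v = 1 := chi_sq _
  calc star (rho v) = (sg v v * sg v v) • (star (rho v) * 1) := by rw [h2, one_smul, mul_one]
    _ = sg v v • (star (rho v) * (sg v v • 1)) := by rw [mul_smul, mul_smul_comm]
    _ = sg v v • (star (rho v) * rho v * rho v) := by rw [← rho_sq, mul_assoc]
    _ = sg v v • rho v := by rw [h1, one_mul]

/-- membership in `Rf`: it is enough to commute with the `rho v` -/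
theorem rfm (T : L2 V →L[ℂ] L2 V) : T ∈ Rf ↔ ∀ v, T * rho v = rho v * T := by
  unfold Rf
  rw [StarSubalgebra.mem_centralizer_iff]
  constructor
  · intro h v
    exact (h _ ⟨v, rfl⟩).1.symm
  · rintro h _ ⟨v, rfl⟩
    refine ⟨(h v).symm, ?_⟩
    rw [rho_star, smul_mul_assoc, mul_smul_comm, h v]

end Pool.Agent.Lib.MP_1d6fae_al
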