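import Pool.Agent.Lib.MP_1d6fae_al.NDefs
import Pool.Agent.Lib.MP_1d6fae_al.RH

/-!
# MP_1d6fae_al: `UG` is the unitary group of the `*`-algebra `Rf`
-/

set_option autoImplicit false

namespace Pool.Agent.Lib.MP_1d6fae_al

private theorem chi_sq (a : ZMod 2) : chi a * chi a = 1 := by
  unfold chi
  split_ifs <;> norm_num

private theorem rho_rho (v : V) (f : L2 V) : rho v (rho v f) = sg v v • f := by
  ext x
  change sg (x + v) v * (sg (x + v + v) v * f (x + v + v)) = (sg v v • f : L2 V) x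
  rw [lp.coeFn_smul, Pi.smul_apply, smul_eq_mul, add_assoc, v2, add_zero, sg_l]
  have := chi_sq (bl x v)
  unfold sg
  linear_combination (chi (bl v v) * f x) * this

/-- the right twisted translation as an isometry -/
private noncomputable def rq (v : V) : L2 V ≃ₗᵢ[ℂ] L2 V :=
  LinearIsometryEquiv.ofSurjective (⟨(rho v : L2 V →L[ℂ] L2 V).toLinearMap, rhn v⟩ : L2 V →ₗᵢ[ℂ] L2 V) fun f =>
    ⟨sg v v • rho v f, by
      change rho v (sg v v • rho v f) = f
      rw [map_smul, rho_rho, smul_smul]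
      have : sg v v * sg v v = 1 := chi_sq _
      rw [this, one_smul]⟩

private theorem rq_mem (v : V) : (rq v : U0) ∈ RT := ⟨v, fun _ _ => rfl⟩

/-- the isometry given by an element of `UG` -/
private noncomputable def liso (u : UG) : L2 V ≃ₗᵢ[ℂ] L2 V := toU0 u

private theorem ne_mem (u : UG) : ((Unitary.linearIsometryEquiv.symm (liso u) : unitary (L2 V →L[ℂ] L2 V)) : L2 V →L[ℂ] L2 V) ∈ Rf := by
  rw [rfm]
  intro v
  refine ContinuousLinearMap.ext fun ξ => ?_
  have h : (show U0 from rq v) * toU0 u = toU0 u * (show U0 from rq v) := (show Subgroup.centralizer RT from u).2 _ (rq_mem v)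
  exact (congrArg (fun w : L2 V ≃ₗᵢ[ℂ] L2 V => w ξ) h).symm

private noncomputable def toU (u : UG) : unitary Rf :=
  ⟨⟨((Unitary.linearIsometryEquiv.symm (liso u) : unitary (L2 V →L[ℂ] L2 V)) : L2 V →L[ℂ] L2 V), ne_mem u⟩, by
    have h := (Unitary.linearIsometryEquiv.symm (liso u) : unitary (L2 V →L[ℂ] L2 V)).2
    rw [Unitary.mem_iff] at h ⊢
    exact ⟨Subtype.ext h.1, Subtype.ext h.2⟩⟩

private noncomputable def ofU (w : unitary Rf) : UG :=
  let e : L2 V ≃ₗᵢ[ℂ] L2 V := Unitary.linearIsometryEquiv ⟨((w : Rf) : L2 V →L[ℂ] L2 V), by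
      have h := w.2
      rw [Unitary.mem_iff] at h ⊢
      exact ⟨congrArg Subtype.val h.1, congrArg Subtype.val h.2⟩⟩
  (⟨(e : U0), by
      rintro r ⟨v, hv⟩
      have h1 : ∀ ξ : L2 V, e (rho v ξ) = rho v (e ξ) := fun ξ =>
        congrArg (fun S : L2 V →L[ℂ] L2 V => S ξ) ((rfm _).1 (w : Rf).2 v)
      have h2 : ∀ ξ : L2 V, (show L2 V ≃ₗᵢ[ℂ] L2 V from r) ξ = rho v ξ := fun ξ => lp.ext (funext fun x => hv ξ x)
      refine LinearIsometryEquiv.ext fun ξ => ?_
      change (show L2 V ≃ₗᵢ[ℂ] L2 V from r) (e ξ) = e ((show L2 V ≃ₗᵢ[ℂ] L2 V from r) ξ)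
      rw [h2, h2, h1]⟩ : Subgroup.centralizer RT)

/-- the isomorphism -/
noncomputable def ue : UG ≃* unitary Rf where
  toFun := toU
  invFun := ofU
  left_inv _ := Subtype.ext (LinearIsometryEquiv.ext fun _ => rfl)
  right_inv _ := Subtype.ext (Subtype.ext rfl)
  map_mul' _ _ := Subtype.ext (Subtype.ext rfl)

end Pool.Agent.Lib.MP_1d6fae_al
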