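import Pool.Agent.Lib.MP_1d6fae_al.ADefs

/-!
# Row PA: a projection which commutes with the copy of `x` exactly if `a` commutes with `x`

PROOF IN WORDS. `X = i1 a * i2 (E 0 1)`, `Y = i1 (star a) * i2 (E 1 0)`, `f = (1/2) (1 + X + Y)` (the projection `(1/2) [[1, a], [a*, 1]]`). `star X = Y`, `X X = 0 = Y Y`, `X Y = i2 (E 0 0)`,
`Y X = i2 (E 1 1)` (`a` unitary, `A.comm`, `A.Emul`), so `(1 + X + Y)^2 = 2 (1 + X + Y)` by `A.Eone`. If `x a = a x` then `x a* = a* x` (`a` unitary) and `i1 x` commutes with `X` and `Y`. Conversely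
`i1 x * f = f * i1 x` gives `i1 (x a - a x) * i2 (E 0 1) + i1 (x a* - a* x) * i2 (E 1 0) = 0`; multiply by `i2 (E 1 0)` from the right: `i1 (x a - a x) * i2 (E 0 0) = 0`, so `x a = a x` by `A.ne`.
-/

set_option autoImplicit false

namespace Pool.Agent.Lib.MP_1d6fae_al

private theorem pa_swap {R : Type} [Ring R] {p q r s : R} (h : q * r = r * q) : p * q * (r * s) = p * r * (q * s) := by
  rw [mul_assoc, ← mul_assoc q r s, h, mul_assoc r q s, ← mul_assoc]

theorem pa {R : Type} [Ring R] [StarRing R] [Algebra ℂ R] [StarModule ℂ R] (A : Amp R) (a : unitary R) : ∃ f : R, star f = f ∧ f * f = f ∧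
    ∀ x : R, A.i1 x * f = f * A.i1 x ↔ x * (a : R) = (a : R) * x := by
  obtain ⟨b, hb⟩ : ∃ b, b = A.i1 (a : R) := ⟨_, rfl⟩
  obtain ⟨b', hb'⟩ : ∃ b', b' = A.i1 (star (a : R)) := ⟨_, rfl⟩
  obtain ⟨u, hu⟩ : ∃ u, u = A.i2 (A.E 0 1) := ⟨_, rfl⟩
  obtain ⟨v, hv⟩ : ∃ v, v = A.i2 (A.E 1 0) := ⟨_, rfl⟩
  have hc1 : ∀ x, A.i1 x * u = u * A.i1 x := fun x => by rw [hu]; exact A.comm x _
  have hc2 : ∀ x, A.i1 x * v = v * A.i1 x := fun x => by rw [hv]; exact A.comm x _
  have haa : (a : R) * star (a : R) = 1 := Unitary.mul_star_self_of_mem a.2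
  have haa' : star (a : R) * (a : R) = 1 := Unitary.star_mul_self_of_mem a.2
  have hbb : b * b' = 1 := by rw [hb, hb', ← map_mul, haa, map_one]
  have hbb' : b' * b = 1 := by rw [hb, hb', ← map_mul, haa', map_one]
  have huu : u * u = 0 := by
    rw [hu, ← map_mul, A.Emul, if_neg (by decide), map_zero]
  have hvv : v * v = 0 := by
    rw [hv, ← map_mul, A.Emul, if_neg (by decide), map_zero]
  have huv : u * v = A.i2 (A.E 0 0) := by
    rw [hu, hv, ← map_mul, A.Emul, if_pos rfl]
  have hvu : v * u = A.i2 (A.E 1 1) := by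
    rw [hu, hv, ← map_mul, A.Emul, if_pos rfl]
  have hub : u * b = b * u := by rw [hb]; exact (hc1 _).symm
  have hub' : u * b' = b' * u := by rw [hb']; exact (hc1 _).symm
  have hvb : v * b = b * v := by rw [hb]; exact (hc2 _).symm
  have hvb' : v * b' = b' * v := by rw [hb']; exact (hc2 _).symm
  have hsb : star b = b' := by rw [hb, hb', map_star]
  have hsb' : star b' = b := by rw [← hsb, star_star]
  have hsu : star u = v := by rw [hu, hv, ← map_star, A.Estar]
  have hsv : star v = u := by rw [← hsu, star_star]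
  obtain ⟨S, hS⟩ : ∃ S, S = b * u + b' * v := ⟨_, rfl⟩
  have hSs : star S = S := by
    rw [hS, star_add, star_mul, star_mul, hsb, hsu, hsb', hsv, hvb', hub, add_comm]
  have hSS : S * S = 1 := by
    rw [hS, add_mul, mul_add, mul_add, pa_swap hub, pa_swap hub', pa_swap hvb, pa_swap hvb', huu, hvv, hbb, hbb', huv, hvu,
      mul_zero, mul_zero, zero_add, add_zero, one_mul, one_mul, ← map_add, A.Eone, map_one]
  refine ⟨(1 / 2 : ℂ) • (1 + S), ?_, ?_, ?_⟩
  · rw [star_smul, star_add, star_one, hSs]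
    congr 1
    simp
  · have e : (1 + S) * (1 + S) = (2 : ℂ) • (1 + S) := by
      rw [two_smul, mul_add, mul_one, add_mul, one_mul, hSS, add_comm S 1]
    rw [smul_mul_smul_comm, e, smul_smul]
    congr 1
    norm_num
  · intro x
    have e1 : A.i1 x * ((1 / 2 : ℂ) • (1 + S)) = (1 / 2 : ℂ) • (A.i1 x + A.i1 x * S) := by
      rw [mul_smul_comm, mul_add, mul_one]
    have e2 : ((1 / 2 : ℂ) • (1 + S)) * A.i1 x = (1 / 2 : ℂ) • (A.i1 x + S * A.i1 x) := by
      rw [smul_mul_assoc, add_mul, one_mul]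
    have e3 : A.i1 x * ((1 / 2 : ℂ) • (1 + S)) = ((1 / 2 : ℂ) • (1 + S)) * A.i1 x ↔ A.i1 x * S = S * A.i1 x := by
      rw [e1, e2]
      constructor
      · intro h
        have h1 := congrArg (fun z => (2 : ℂ) • z) h
        simp only [smul_smul] at h1
        norm_num at h1
        exact h1
      · intro h
        rw [h]
    rw [e3]
    constructor
    · intro h
      have h1 : A.i1 x * S * v = S * A.i1 x * v := by rw [h]
      have h2 : S * v = b * A.i2 (A.E 0 0) := by
        rw [hS, add_mul, mul_assoc, mul_assoc, hvv, huv, mul_zero, add_zero]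
      rw [mul_assoc, mul_assoc, hc2 x, ← mul_assoc S v, h2, mul_assoc b, ← A.comm x, ← mul_assoc, ← mul_assoc] at h1
      have h3 : A.i1 (x * (a : R) - (a : R) * x) * A.i2 (A.E 0 0) = 0 := by
        rw [map_sub, map_mul, map_mul, ← hb, sub_mul, h1, sub_self]
      by_contra hne
      exact A.ne _ _ (sub_ne_zero.2 hne) (A.Ene 0 0) h3
    · intro h
      have h' : x * star (a : R) = star (a : R) * x := by
        calc x * star (a : R) = star (a : R) * ((a : R) * x) * star (a : R) := by rw [← mul_assoc, haa', one_mul]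
          _ = star (a : R) * (x * (a : R)) * star (a : R) := by rw [h]
          _ = star (a : R) * x * ((a : R) * star (a : R)) := by simp only [mul_assoc]
          _ = star (a : R) * x := by rw [haa, mul_one]
      rw [hS, mul_add, add_mul, ← mul_assoc, ← mul_assoc, mul_assoc b, mul_assoc b', ← hc1 x, ← hc2 x, ← mul_assoc, ← mul_assoc,
        hb, hb', ← map_mul, ← map_mul, ← map_mul, ← map_mul, h, h']

end Pool.Agent.Lib.MP_1d6fae_al
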