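import Pool.Agent.Lib.MP_1d6fae_al.TP
import Pool.Agent.Lib.MP_1d6fae_al.RH

/-!
# Row RI: the two copies of `Rf` in itself

PROOF IN WORDS. `tp eV.toEquiv` gives `Φ1`, `tp (eV.toEquiv.trans (Equiv.prodComm V V))` gives `Φ2` with `Φ2 T (tv eV f g) = tv eV f (T g)` (`tv` for the swapped bijection is `tv` with the arguments exchanged). If `T ∈ Rf`, then `Φ1 T`, `Φ2 T ∈ Rf` (`rfm`): they commute with `rho v` on the product vectors by `rht`,
so by `td` everywhere. So `i1`, `i2` are the restrictions (`StarAlgHom.codRestrict`, `StarSubalgebra.subtype`). `comm`: on product vectors. `ne`: `x ≠ 0`, `y ≠ 0`: there are `f`, `g` with `x f ≠ 0`, `y g ≠ 0`, and `i1 x * i2 y` maps `tv f g` to `tv (x f) (y g)`, of norm `‖x f‖ ‖y g‖ ≠ 0` (`tvn`).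
-/

set_option autoImplicit false

namespace Pool.Agent.Lib.MP_1d6fae_al

private theorem ri_swap (f g : L2 V) : tv (eV.toEquiv.trans (Equiv.prodComm V V)) f g = tv eV.toEquiv g f := by
  ext c
  rw [tv_apply, tv_apply, mul_comm]
  rfl

private theorem ri_ne (x : Rf) (hx : x ≠ 0) : ∃ f : L2 V, (x : L2 V →L[ℂ] L2 V) f ≠ 0 := by
  by_contra h
  push Not at h
  apply hx
  apply Subtype.ext
  ext1 f
  rw [h f]
  rfl

theorem ri : ∃ i1 i2 : Rf →⋆ₐ[ℂ] Rf, Cop i1 i2 := by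
  obtain ⟨P1, h1⟩ := tp eV.toEquiv
  obtain ⟨P2, h2'⟩ := tp (eV.toEquiv.trans (Equiv.prodComm V V))
  have h2 : ∀ (S : L2 V →L[ℂ] L2 V) (f g : L2 V), P2 S (tv eV.toEquiv f g) = tv eV.toEquiv f (S g) := by
    intro S f g
    have h3 := h2' S g f
    rw [ri_swap, ri_swap] at h3
    exact h3
  have m1 : ∀ S : L2 V →L[ℂ] L2 V, S ∈ Rf → P1 S ∈ Rf := by
    intro S hS
    rw [rfm] at hS ⊢
    intro v
    apply td eV.toEquiv
    intro f g
    have h3 : S (rho (eV v).1 f) = rho (eV v).1 (S f) := congrArg (fun A : L2 V →L[ℂ] L2 V => A f) (hS (eV v).1)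
    change P1 S (rho v (tv eV.toEquiv f g)) = rho v (P1 S (tv eV.toEquiv f g))
    rw [rht, h1, h1, rht, h3]
  have m2 : ∀ S : L2 V →L[ℂ] L2 V, S ∈ Rf → P2 S ∈ Rf := by
    intro S hS
    rw [rfm] at hS ⊢
    intro v
    apply td eV.toEquiv
    intro f g
    have h3 : S (rho (eV v).2 g) = rho (eV v).2 (S g) := congrArg (fun A : L2 V →L[ℂ] L2 V => A g) (hS (eV v).2)
    change P2 S (rho v (tv eV.toEquiv f g)) = rho v (P2 S (tv eV.toEquiv f g))
    rw [rht, h2, h2, rht, h3]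
  refine ⟨(P1.comp Rf.subtype).codRestrict Rf fun x => m1 x x.2, (P2.comp Rf.subtype).codRestrict Rf fun x => m2 x x.2, ?_, ?_, ?_, ?_⟩
  · intro x f g
    exact h1 x f g
  · intro x f g
    exact h2 x f g
  · intro x y
    apply Subtype.ext
    apply td eV.toEquiv
    intro f g
    change P1 x (P2 y (tv eV.toEquiv f g)) = P2 y (P1 x (tv eV.toEquiv f g))
    rw [h2, h1, h1, h2]
  · intro x y hx hy h0
    obtain ⟨f, hf⟩ := ri_ne x hx
    obtain ⟨g, hg⟩ := ri_ne y hy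
    have h3 : P1 (x : L2 V →L[ℂ] L2 V) (P2 (y : L2 V →L[ℂ] L2 V) (tv eV.toEquiv f g)) = 0 := by
      have h4 := congrArg (fun z : Rf => (z : L2 V →L[ℂ] L2 V) (tv eV.toEquiv f g)) h0
      exact h4
    rw [h2, h1] at h3
    have h5 := tvn eV.toEquiv ((x : L2 V →L[ℂ] L2 V) f) ((y : L2 V →L[ℂ] L2 V) g)
    rw [h3, norm_zero] at h5
    rcases mul_eq_zero.1 h5.symm with h6 | h6
    · exact hf (norm_eq_zero.1 h6)
    · exact hg (norm_eq_zero.1 h6)

end Pool.Agent.Lib.MP_1d6fae_al
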