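import Pool.Agent.Lib.MP_1d6fae_al.CDefs

/-!
# Row TD: product vectors and basis vectors

PROOF IN WORDS. `td0`: the span of the basis vectors is dense in `L2 α` (`lp.hasSum_single`), the operators are continuous. `td`: `tv e (dl a) (dl b) = dl (e.symm (a, b))` (`tvd`), then `td0`. `tvn`: `‖tv e f g‖^2 = ∑ ‖f a‖^2 ‖g b‖^2 = ‖f‖^2 ‖g‖^2` (`lp.norm_rpow_eq_tsum`, `Equiv.tsum_eq`,
product of two nonnegative series). `tva`, `tvs`: additivity and homogeneity in every argument (by `lp.ext`).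
-/

set_option autoImplicit false

namespace Pool.Agent.Lib.MP_1d6fae_al

theorem dl_apply {α : Type} [DecidableEq α] (a b : α) : dl a b = if b = a then 1 else 0 := by
  classical
  unfold dl
  by_cases h : b = a
  · subst h
    simp [lp.single_apply]
  · simp [lp.single_apply, h]

theorem td0 {α : Type} (S T : L2 α →L[ℂ] L2 α) (h : ∀ a, S (dl a) = T (dl a)) : S = T := by
  classical
  ext1 ξ
  have h1 := lp.hasSum_single (p := 2) (by norm_num) ξ
  have h2 : ∀ a, lp.single 2 a (ξ a) = ξ a • (dl a : L2 α) := by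
    intro a
    unfold dl
    rw [← lp.single_smul]
    simp
  simp only [h2] at h1
  have h3 := h1.mapL S
  have h4 := h1.mapL T
  simp only [map_smul, h] at h3 h4
  exact h3.unique h4

theorem tvd {α β γ : Type} (e : γ ≃ α × β) (a : α) (b : β) : tv e (dl a) (dl b) = dl (e.symm (a, b)) := by
  classical
  ext c
  rw [tv_apply, dl_apply, dl_apply, dl_apply]
  by_cases h : c = e.symm (a, b)
  · subst h
    simp
  · have : ¬ ((e c).1 = a ∧ (e c).2 = b) := fun h' => h (by rw [← Prod.ext_iff (y := (a, b))] at h'; rw [← h']; simp)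
    rw [if_neg h]
    by_cases h1 : (e c).1 = a
    · rw [if_neg (fun h2 => this ⟨h1, h2⟩)]
      simp
    · rw [if_neg h1]
      simp

theorem td {α β γ : Type} (e : γ ≃ α × β) (S T : L2 γ →L[ℂ] L2 γ) (h : ∀ f g, S (tv e f g) = T (tv e f g)) : S = T := by
  refine td0 S T fun c => ?_
  have := h (dl (e c).1) (dl (e c).2)
  rw [tvd] at this
  simpa using this

theorem tvn {α β γ : Type} (e : γ ≃ α × β) (f : L2 α) (g : L2 β) : ‖tv e f g‖ = ‖f‖ * ‖g‖ := by
  have h2 : (2 : ENNReal).toReal = 2 := by norm_num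
  have h1 := lp.norm_rpow_eq_tsum (p := 2) (by norm_num) (tv e f g)
  have hf := lp.norm_rpow_eq_tsum (p := 2) (by norm_num) f
  have hg := lp.norm_rpow_eq_tsum (p := 2) (by norm_num) g
  have sf := lp.memℓp f
  have sg := lp.memℓp g
  rw [memℓp_gen_iff (by norm_num)] at sf sg
  have h3 : (∑' c, ‖tv e f g c‖ ^ (2 : ENNReal).toReal) = ∑' x : α × β, ‖f x.1‖ ^ (2 : ENNReal).toReal * ‖g x.2‖ ^ (2 : ENNReal).toReal := by
    rw [← Equiv.tsum_eq e (fun x : α × β => ‖f x.1‖ ^ (2 : ENNReal).toReal * ‖g x.2‖ ^ (2 : ENNReal).toReal)]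
    refine tsum_congr fun c => ?_
    rw [tv_apply, norm_mul, Real.mul_rpow (norm_nonneg _) (norm_nonneg _)]
  have h4 : ‖tv e f g‖ ^ (2 : ENNReal).toReal = (‖f‖ * ‖g‖) ^ (2 : ENNReal).toReal := by
    rw [h1, h3, Real.mul_rpow (norm_nonneg _) (norm_nonneg _), hf, hg]
    exact (Summable.tsum_mul_tsum sf sg (Summable.mul_of_nonneg sf sg (fun _ => by positivity) (fun _ => by positivity))).symm
  rw [h2] at h4
  exact (Real.rpow_left_inj (norm_nonneg _) (by positivity) (by norm_num : (2 : ℝ) ≠ 0)).1 h4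

theorem tva {α β γ : Type} (e : γ ≃ α × β) (f f' : L2 α) (g g' : L2 β) : tv e (f + f') g = tv e f g + tv e f' g ∧ tv e f (g + g') = tv e f g + tv e f g' := by
  constructor
  · ext c
    simp [tv_apply, add_mul]
  · ext c
    simp [tv_apply, mul_add]

theorem tvs {α β γ : Type} (e : γ ≃ α × β) (c : ℂ) (f : L2 α) (g : L2 β) : tv e (c • f) g = c • tv e f g ∧ tv e f (c • g) = c • tv e f g := by
  constructor
  · ext x
    simp [tv_apply, mul_assoc]
  · ext x
    simp [tv_apply]
    ring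

end Pool.Agent.Lib.MP_1d6fae_al
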