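import Pool.Agent.Lib.MP_1d6fae_al.TD

/-!
# Row TP: the operator `T ⊗ 1`

PROOF IN WORDS. For `ξ ∈ L2 γ` and `b : β` let `ξ_b a = ξ (e.symm (a, b))`, an element of `L2 α` (`Summable.prod_factor` for the family on `α × β`, after `Equiv.summable_iff`), and `∑_b ‖ξ_b‖^2 = ‖ξ‖^2`. Define `(Φ T ξ) c = (T ξ_(e c).2) (e c).1`: it is in `L2 γ` as `∑_b ‖T ξ_b‖^2 ≤ ‖T‖^2 ‖ξ‖^2`
(`summable_prod_of_nonneg`), linear in `ξ`, bounded by `‖T‖` (`LinearMap.mkContinuous`), and `(Φ T ξ)_b = T ξ_b`, so `Φ (S T) = Φ S Φ T`, `Φ 1 = 1`, `Φ` is linear in `T`. `star`: check `⟪Φ T (dl c), dl c'⟫ = ⟪dl c, Φ (star T) (dl c')⟫` on basis vectors `dl c = tv e (dl a) (dl b)`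
(`ContinuousLinearMap.eq_adjoint_iff` and density, or the same computation with the sums `⟪ξ, η⟫ = ∑_b ⟪ξ_b, η_b⟫`). `Φ T (tv e f g) = tv e (T f) g`: `(tv e f g)_b = g b • f`.
-/

set_option autoImplicit false

namespace Pool.Agent.Lib.MP_1d6fae_al

private theorem sqs {δ : Type} (η : L2 δ) : Summable (fun x => ‖η x‖ ^ 2) := by
  have h := lp.memℓp η
  rw [memℓp_gen_iff (by norm_num)] at h
  have h5 : (2 : ENNReal).toReal = ((2 : ℕ) : ℝ) := by norm_num
  rw [h5] at h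
  simpa only [Real.rpow_natCast] using h

private theorem sqn {δ : Type} (η : L2 δ) : ‖η‖ ^ 2 = ∑' x, ‖η x‖ ^ 2 := by
  have h := lp.norm_rpow_eq_tsum (p := 2) (by norm_num) η
  have h5 : (2 : ENNReal).toReal = ((2 : ℕ) : ℝ) := by norm_num
  rw [h5] at h
  simpa only [Real.rpow_natCast] using h

private theorem memt {δ : Type} (f : δ → ℂ) (h : Summable (fun x => ‖f x‖ ^ 2)) : Memℓp f 2 := by
  rw [memℓp_gen_iff (by norm_num)]
  have h5 : (2 : ENNReal).toReal = ((2 : ℕ) : ℝ) := by norm_num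
  rw [h5]
  simpa only [Real.rpow_natCast] using h

/-- the equivalence with the product in the other order -/
private def es {α β γ : Type} (e : γ ≃ α × β) : β × α ≃ γ := (Equiv.prodComm β α).trans e.symm

private theorem es_apply {α β γ : Type} (e : γ ≃ α × β) (b : β) (a : α) : es e (b, a) = e.symm (a, b) := rfl

private theorem sum_es {α β γ : Type} (e : γ ≃ α × β) (ξ : L2 γ) : Summable (fun p : β × α => ‖ξ (es e p)‖ ^ 2) :=
  (Equiv.summable_iff (es e)).2 (sqs ξ)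

private noncomputable def slc {α β γ : Type} (e : γ ≃ α × β) (ξ : L2 γ) (b : β) : L2 α :=
  ⟨fun a => ξ (es e (b, a)), memt _ ((sum_es e ξ).prod_factor b)⟩

private theorem slc_apply {α β γ : Type} (e : γ ≃ α × β) (ξ : L2 γ) (b : β) (a : α) :
    slc e ξ b a = ξ (es e (b, a)) := rfl

private theorem slc_add {α β γ : Type} (e : γ ≃ α × β) (ξ η : L2 γ) (b : β) :
    slc e (ξ + η) b = slc e ξ b + slc e η b := by
  ext a
  rfl

private theorem slc_smul {α β γ : Type} (e : γ ≃ α × β) (c : ℂ) (ξ : L2 γ) (b : β) :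
    slc e (c • ξ) b = c • slc e ξ b := by
  ext a
  rfl

private theorem slc_sum {α β γ : Type} (e : γ ≃ α × β) (ξ : L2 γ) : Summable (fun b => ‖slc e ξ b‖ ^ 2) := by
  have h := ((summable_prod_of_nonneg (fun p => by positivity)).1 (sum_es e ξ)).2
  refine h.congr fun b => ?_
  rw [sqn]
  rfl

private theorem slc_tsum {α β γ : Type} (e : γ ≃ α × β) (ξ : L2 γ) : ∑' b, ‖slc e ξ b‖ ^ 2 = ‖ξ‖ ^ 2 := by
  rw [sqn ξ, ← Equiv.tsum_eq (es e) (fun x => ‖ξ x‖ ^ 2), (sum_es e ξ).tsum_prod]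
  refine tsum_congr fun b => ?_
  rw [sqn]
  rfl

private theorem bd {α β γ : Type} (e : γ ≃ α × β) (T : L2 α →L[ℂ] L2 α) (ξ : L2 γ) (b : β) :
    ‖T (slc e ξ b)‖ ^ 2 ≤ ‖T‖ ^ 2 * ‖slc e ξ b‖ ^ 2 := by
  rw [← mul_pow]
  exact pow_le_pow_left₀ (norm_nonneg _) (T.le_opNorm _) 2

private theorem sumT {α β γ : Type} (e : γ ≃ α × β) (T : L2 α →L[ℂ] L2 α) (ξ : L2 γ) :
    Summable (fun p : β × α => ‖T (slc e ξ p.1) p.2‖ ^ 2) := by
  have h1 : ∀ b, Summable fun a => ‖T (slc e ξ b) a‖ ^ 2 := fun b => sqs (T (slc e ξ b))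
  have h2 : Summable fun b => ‖T (slc e ξ b)‖ ^ 2 :=
    Summable.of_nonneg_of_le (fun b => by positivity) (bd e T ξ) ((slc_sum e ξ).mul_left (‖T‖ ^ 2))
  have h3 : Summable fun b => ∑' a, ‖T (slc e ξ b) a‖ ^ 2 := h2.congr fun b => sqn (T (slc e ξ b))
  exact (summable_prod_of_nonneg (f := fun p : β × α => ‖T (slc e ξ p.1) p.2‖ ^ 2) (fun p => by positivity)).2 ⟨h1, h3⟩

private noncomputable def ph {α β γ : Type} (e : γ ≃ α × β) (T : L2 α →L[ℂ] L2 α) (ξ : L2 γ) : L2 γ :=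
  ⟨fun c => T (slc e ξ (e c).2) (e c).1, memt _ (by
    have h := sumT e T ξ
    rw [← Equiv.summable_iff (es e)]
    refine h.congr fun p => ?_
    simp [es])⟩

private theorem ph_es {α β γ : Type} (e : γ ≃ α × β) (T : L2 α →L[ℂ] L2 α) (ξ : L2 γ) (b : β) (a : α) :
    ph e T ξ (es e (b, a)) = T (slc e ξ b) a := by
  show T (slc e ξ (e (e.symm (a, b))).2) (e (e.symm (a, b))).1 = _
  rw [Equiv.apply_symm_apply]

private theorem slc_ph {α β γ : Type} (e : γ ≃ α × β) (T : L2 α →L[ℂ] L2 α) (ξ : L2 γ) (b : β) :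
    slc e (ph e T ξ) b = T (slc e ξ b) := by
  ext a
  rw [slc_apply, ph_es]

private theorem ext_slc {α β γ : Type} (e : γ ≃ α × β) (ξ η : L2 γ) (h : ∀ b, slc e ξ b = slc e η b) : ξ = η := by
  ext c
  obtain ⟨⟨b, a⟩, rfl⟩ := (es e).surjective c
  rw [← slc_apply, ← slc_apply, h]

private theorem ph_norm {α β γ : Type} (e : γ ≃ α × β) (T : L2 α →L[ℂ] L2 α) (ξ : L2 γ) : ‖ph e T ξ‖ ≤ ‖T‖ * ‖ξ‖ := by
  refine (pow_le_pow_iff_left₀ (norm_nonneg _) (by positivity) two_ne_zero).1 ?_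
  rw [← slc_tsum e (ph e T ξ), mul_pow, ← slc_tsum e ξ, ← tsum_mul_left]
  refine Summable.tsum_le_tsum (fun b => ?_) (slc_sum e _) ((slc_sum e ξ).mul_left _)
  rw [slc_ph]
  exact bd e T ξ b

private noncomputable def Ph {α β γ : Type} (e : γ ≃ α × β) (T : L2 α →L[ℂ] L2 α) : L2 γ →L[ℂ] L2 γ :=
  LinearMap.mkContinuous
    { toFun := ph e T
      map_add' := fun ξ η => by
        refine ext_slc e _ _ fun b => ?_
        rw [slc_add, slc_ph, slc_ph, slc_ph, slc_add, map_add]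
      map_smul' := fun c ξ => by
        refine ext_slc e _ _ fun b => ?_
        rw [RingHom.id_apply, slc_smul, slc_ph, slc_ph, slc_smul, map_smul] } ‖T‖ (ph_norm e T)

private theorem slc_Ph {α β γ : Type} (e : γ ≃ α × β) (T : L2 α →L[ℂ] L2 α) (ξ : L2 γ) (b : β) :
    slc e (Ph e T ξ) b = T (slc e ξ b) := slc_ph e T ξ b

private theorem inner_slc {α β γ : Type} (e : γ ≃ α × β) (ξ η : L2 γ) :
    inner ℂ ξ η = ∑' b, inner ℂ (slc e ξ b) (slc e η b) := by
  have h := lp.summable_inner (𝕜 := ℂ) ξ η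
  have h2 : Summable (fun p : β × α => inner ℂ (ξ (es e p)) (η (es e p))) := (Equiv.summable_iff (es e)).2 h
  rw [lp.inner_eq_tsum, ← Equiv.tsum_eq (es e) (fun x => inner ℂ (ξ x) (η x)), h2.tsum_prod]
  refine tsum_congr fun b => ?_
  rw [lp.inner_eq_tsum]
  rfl

theorem tp {α β γ : Type} (e : γ ≃ α × β) : ∃ Φ : (L2 α →L[ℂ] L2 α) →⋆ₐ[ℂ] (L2 γ →L[ℂ] L2 γ), ∀ (T : L2 α →L[ℂ] L2 α) (f : L2 α) (g : L2 β), Φ T (tv e f g) = tv e (T f) g := by
  refine ⟨{ toFun := Ph e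
            map_one' := ?_
            map_mul' := ?_
            map_zero' := ?_
            map_add' := ?_
            commutes' := ?_
            map_star' := ?_ }, ?_⟩
  · refine ContinuousLinearMap.ext fun ξ => ext_slc e _ _ fun b => ?_
    rw [slc_Ph]
    rfl
  · intro S T
    refine ContinuousLinearMap.ext fun ξ => ext_slc e _ _ fun b => ?_
    rw [slc_Ph, mul_apply_eq_comp, mul_apply_eq_comp, slc_Ph, slc_Ph]
  · refine ContinuousLinearMap.ext fun ξ => ext_slc e _ _ fun b => ?_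
    rw [slc_Ph]
    rfl
  · intro S T
    refine ContinuousLinearMap.ext fun ξ => ext_slc e _ _ fun b => ?_
    rw [slc_Ph, ContinuousLinearMap.add_apply, ContinuousLinearMap.add_apply, slc_add, slc_Ph, slc_Ph]
  · intro r
    refine ContinuousLinearMap.ext fun ξ => ext_slc e _ _ fun b => ?_
    show slc e (Ph e (algebraMap ℂ _ r) ξ) b = _
    rw [slc_Ph, Algebra.algebraMap_eq_smul_one, Algebra.algebraMap_eq_smul_one,
      ContinuousLinearMap.smul_apply, ContinuousLinearMap.smul_apply, slc_smul]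
    rfl
  · intro T
    show Ph e (star T) = star (Ph e T)
    rw [ContinuousLinearMap.star_eq_adjoint, ContinuousLinearMap.star_eq_adjoint,
      ContinuousLinearMap.eq_adjoint_iff]
    intro ξ η
    rw [inner_slc e, inner_slc e]
    refine tsum_congr fun b => ?_
    rw [slc_Ph, slc_Ph, ContinuousLinearMap.adjoint_inner_left]
  · intro T f g
    show Ph e T (tv e f g) = tv e (T f) g
    refine ext_slc e _ _ fun b => ?_
    rw [slc_Ph]
    have h1 : ∀ f' : L2 α, slc e (tv e f' g) b = g b • f' := by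
      intro f'
      ext a
      rw [slc_apply, tv_apply, es_apply, Equiv.apply_symm_apply]
      show f' a * g b = g b * f' a
      ring
    rw [h1, h1, map_smul]

end Pool.Agent.Lib.MP_1d6fae_al
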